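import Pool.Agent.TH915.PW.Smooth

set_option autoImplicit false

/-!
The criterion for record prime-free neighbourhoods, with the number of the places; exponential sums
with phases whose derivatives are close to `1 / t`.
-/

namespace Pool.Agent.Y565.RG

open Finset Filter
open Pool.Agent.H469R2.NK (e norm_e e_add conj_e Av Av_le Cq Cq_pos iterate harm_le)
open Pool.Agent.W147.PS (ff ff_compare ev_pow)
open Pool.Agent.TH915.PW (crit_scaled Hy SD SD_sq SD_le root_le)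

/-- the criterion with the number of the good places -/
theorem crit_count (η : ℝ) (h0 : 0 < η) (h1 : η ≤ 1) : ∃ κ : ℝ, 0 < κ ∧ ∀ᶠ M : ℝ in atTop,
    ∀ (ι : Type) (s : Finset ι) (a : ι → ℝ), s.Nonempty → (∀ i ∈ s, M ^ η ≤ a i) →
    (∀ q h : ℕ, 1 ≤ q → (q : ℝ) ≤ M ^ η → 1 ≤ h → (h : ℝ) ≤ M ^ (4 * η) →
      ‖∑ i ∈ s, e ((h : ℝ) / q * a i)‖ ≤ s.card * M ^ (-(4 * η)) / 8) →
    ∃ G : Finset ι, G ⊆ s ∧ s.card * M ^ (-(4 * η)) / 2 ≤ (G.card : ℝ) ∧
      ∀ i ∈ G, ∀ q : ℕ, q.Prime → κ * ff M < |(q : ℝ) - a i| := by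
  classical
  obtain ⟨κ, hκ, hcrit⟩ := crit_scaled η h0 h1
  refine ⟨κ, hκ, ?_⟩
  filter_upwards [hcrit, eventually_ge_atTop (1 : ℝ), ev_pow (-(4 * η)) 0 2 (by linarith)]
    with M hcr hM1 hM2
  intro ι Q A hne hlow hexp
  rw [Real.rpow_zero] at hM2
  have hM0 : 0 < M := by linarith
  have hz0 : 0 < M ^ (-(4 * η)) := by positivity
  have hQpos : (0 : ℝ) < Q.card := by exact_mod_cast hne.card_pos
  set G : Finset ι := Q.filter (fun p => ∀ q : ℕ, q.Prime → κ * ff M < |(q : ℝ) - A p|) with hG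
  have hGQ : G ⊆ Q := filter_subset _ _
  refine ⟨G, hGQ, ?_, fun i hi => (mem_filter.mp hi).2⟩
  by_contra hlt
  rw [not_le] at hlt
  set s : Finset ι := Q \ G with hs
  have hscard : (s.card : ℝ) = Q.card - G.card := by
    rw [hs, card_sdiff_of_subset hGQ, Nat.cast_sub (card_le_card hGQ)]
  have hsbig : 3 / 4 * (Q.card : ℝ) ≤ s.card := by
    rw [hscard]
    nlinarith
  obtain ⟨p, hp, hp2'⟩ := hcr ι s A (by
      rw [← Finset.card_pos]
      have : (0 : ℝ) < s.card := by linarith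
      exact_mod_cast this) (fun p hp => hlow p (Finset.mem_sdiff.mp hp).1) (by
      intro q h hq hqZ hh hhZ
      have h1 := hexp q h hq hqZ hh hhZ
      have h2 : ∑ p ∈ s, e ((h : ℝ) / q * A p) = ∑ p ∈ Q, e ((h : ℝ) / q * A p) -
          ∑ p ∈ G, e ((h : ℝ) / q * A p) := by
        rw [hs, ← sum_sdiff hGQ]
        ring
      rw [h2]
      have h3 : ‖∑ p ∈ G, e ((h : ℝ) / q * A p)‖ ≤ G.card := by
        refine (norm_sum_le _ _).trans ?_
        simp only [norm_e, sum_const, nsmul_eq_mul, mul_one]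
        exact le_rfl
      have h4 : 3 / 4 * (Q.card : ℝ) * M ^ (-(4 * η)) ≤ s.card * M ^ (-(4 * η)) := by gcongr
      calc _ ≤ _ := norm_sub_le _ _
        _ ≤ Q.card * M ^ (-(4 * η)) / 8 + G.card := add_le_add h1 h3
        _ ≤ _ := by nlinarith)
  rw [hs] at hp
  have hp3' := Finset.mem_sdiff.mp hp
  apply hp3'.2
  rw [hG]
  exact Finset.mem_filter.mpr ⟨hp3'.1, hp2'⟩

/-- The exponential sum bound, with the gain of the differences. -/
theorem exp_bound2 {k : ℕ} {A B lo hi : ℝ} {φ : ℕ → ℝ → ℝ} (hlo : 0 < lo) (hhi : 0 ≤ hi) (θ : ℝ)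
    (hθ : 0 < θ) (h : Hy k A B lo hi φ) (u : ℝ) (N L H : ℕ) (hN : 1 ≤ N) (hL : L ≤ N)
    (hu : A ≤ u) (huL : u + L ≤ B) (hH : 1 ≤ H) (hHN : H ≤ N)
    (hup : 2 * (θ * (hi * (H : ℝ) ^ k)) ≤ 1) :
    (‖∑ n ∈ range L, e (θ * φ 0 (u + n))‖ / N) ^ (2 ^ k) ≤
      Cq k * (1 / H + 2 / (θ * lo) / N * ((∑ l ∈ Ico 1 H, (1 : ℝ) / l) / H) ^ k) := by
  have hN' : (1 : ℝ) ≤ N := by exact_mod_cast hN
  have hH' : (1 : ℝ) ≤ H := by exact_mod_cast hH
  have hL' : (L : ℝ) ≤ N := by exact_mod_cast hL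
  have hHN' : (H : ℝ) ≤ N := by exact_mod_cast hHN
  have hstep : ∀ ls : List ℕ, (‖SD φ θ u L ls‖ / N) ^ 2 ≤
      2 / H + 4 * ((∑ l ∈ Ico 1 H, ‖SD φ θ u L (l :: ls)‖ / N) / H) := by
    intro ls
    have h := SD_sq φ θ u L H ls
    set Sg := ∑ l ∈ Ico 1 H, ‖SD φ θ u L (l :: ls)‖ with hSg
    have hSg0 : 0 ≤ Sg := sum_nonneg fun _ _ => norm_nonneg _
    have h2 : (H : ℝ) * ‖SD φ θ u L ls‖ ^ 2 ≤ (2 * N) * (N + 2 * Sg) := by
      refine h.trans ?_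
      have : (L : ℝ) + H ≤ 2 * N := by linarith
      gcongr
    rw [← sum_div, ← hSg]
    have e1 : 2 / (H : ℝ) + 4 * (Sg / N / H) = ((2 * N) * (N + 2 * Sg)) / (H * N ^ 2) := by
      field_simp
      ring
    rw [e1, div_pow, div_le_div_iff₀ (by positivity) (by positivity)]
    calc ‖SD φ θ u L ls‖ ^ 2 * (H * N ^ 2) = ((H : ℝ) * ‖SD φ θ u L ls‖ ^ 2) * N ^ 2 := by ring
      _ ≤ _ := by gcongr
  have hit := iterate hH (fun ls => ‖SD φ θ u L ls‖ / N) (fun ls => by positivity) hstep k []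
  have hSS : ∑ n ∈ range L, e (θ * φ 0 (u + n)) = SD φ θ u L [] := by
    unfold SD
    simp only [List.sum_nil, Nat.sub_zero]
    rfl
  rw [hSS]
  refine hit.trans ?_
  have hC := Cq_pos k
  gcongr
  have h1 := Av_le (H := H) (T := fun ls => ‖SD φ θ u L ls‖ / N)
    (κ := 2 / (θ * lo) / N) k (by
      intro ls hlen hent
      have hpos : 0 < ls.prod := List.prod_pos fun l hl => (hent l hl).1
      have hle : ls.prod ≤ H ^ k := by
        have := List.prod_le_pow_card ls H (fun l hl => (hent l hl).2.le)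
        rwa [hlen] at this
      have hle' : ((ls.prod : ℕ) : ℝ) ≤ (H : ℝ) ^ k := by exact_mod_cast hle
      have h1 := SD_le hlo θ hθ h u L hu huL ls hpos hlen (by
        refine le_trans ?_ hup
        gcongr)
      have hP : (0 : ℝ) < (ls.prod : ℕ) := by exact_mod_cast hpos
      calc ‖SD φ θ u L ls‖ / N ≤ (2 / (θ * lo * (ls.prod : ℕ))) / N := by
            gcongr
        _ = _ := by field_simp) k [] (by simp) (by simp)
  calc Av H (fun ls => ‖SD φ θ u L ls‖ / N) k [] ≤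
        2 / (θ * lo) / N * ((∑ l ∈ Ico 1 H, (1 : ℝ) / l) / H) ^ k / (([] : List ℕ).prod : ℕ) := h1
    _ = 2 / (θ * lo) / N * ((∑ l ∈ Ico 1 H, (1 : ℝ) / l) / H) ^ k := by simp

/-- the gain -/
lemma gain_le (H k : ℕ) (hH : 4 ≤ H) (hk : 1 ≤ k) :
    ((∑ l ∈ Ico 1 H, (1 : ℝ) / l) / H) ^ k ≤ 2 / √(H : ℝ) := by
  have hH' : (4 : ℝ) ≤ H := by exact_mod_cast hH
  have hs : 2 ≤ √(H : ℝ) := by
    apply Real.le_sqrt_of_sq_le
    linarith
  have h1 : (∑ l ∈ Ico 1 H, (1 : ℝ) / l) ≤ 2 * √(H : ℝ) := by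
    have h2 := harm_le H
    have h3 : Real.log (√(H : ℝ)) = Real.log H / 2 := Real.log_sqrt (by positivity)
    have h4 := Real.log_le_sub_one_of_pos (show (0 : ℝ) < √(H : ℝ) by linarith)
    linarith
  have h4 : (∑ l ∈ Ico 1 H, (1 : ℝ) / l) / H ≤ 2 / √(H : ℝ) := by
    rw [div_le_div_iff₀ (by linarith) (by linarith)]
    have a2 : √(H : ℝ) * √(H : ℝ) = H := Real.mul_self_sqrt (by linarith)
    nlinarith
  have h5 : 0 ≤ (∑ l ∈ Ico 1 H, (1 : ℝ) / l) / H := by positivity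
  have h6 : 2 / √(H : ℝ) ≤ 1 := by
    rw [div_le_one (by linarith)]
    exact hs
  calc ((∑ l ∈ Ico 1 H, (1 : ℝ) / l) / H) ^ k ≤ ((∑ l ∈ Ico 1 H, (1 : ℝ) / l) / H) ^ 1 :=
        pow_le_pow_of_le_one h5 (h4.trans h6) hk
    _ = _ := pow_one _
    _ ≤ _ := h4

end Pool.Agent.Y565.RG
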