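import Pool.Agent.TH915.PW.PrimeMain
import Pool.Agent.Y565.RG.Count

set_option autoImplicit false

/-!
Bilinear sums with arbitrary coefficients, and record prime-free neighbourhoods of
`α a b + f a + g b`, `a ∈ A`, `b ∈ B`, `A`, `B` arbitrary dense sets and `f`, `g` arbitrary functions.
-/

namespace Pool.Agent.Y565.RG

open Finset Filter
open Pool.Agent.H469R2.NK (e norm_e e_add conj_e)
open Pool.Agent.W147.PS (ff ff_compare ev_pow)
open Pool.Agent.TH915.PW (GS GS_frequent GS_eventually freq_approx fract_of_approx ee_eq_e)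
open Pool.Agent.Helper112 (ee lsSep lsSep_neg ls_general)

/-- multiples of `θ` in a short block are well spaced -/
lemma sep_block {θ : ℝ} {c : ℤ} {D : ℕ} (hcop : IsCoprime c (D : ℤ))
    (hap : |θ - c / D| ≤ 1 / (D : ℝ) ^ 2) (hD : 2 ≤ D) (r s : ℕ) (hrs : r ≠ s)
    (hblock : r / (D / 2) = s / (D / 2)) : lsSep (2 * D) ((s : ℝ) * θ - (r : ℝ) * θ) := by
  have hL : 0 < D / 2 := by omega
  have key : ∀ r s : ℕ, r < s → r / (D / 2) = s / (D / 2) →
      lsSep (2 * D) ((s : ℝ) * θ - (r : ℝ) * θ) := by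
    intro r s h1 h2
    have h3 : s - r < D / 2 := by
      have e1 := Nat.div_add_mod r (D / 2)
      have e2 := Nat.div_add_mod s (D / 2)
      have e3 := Nat.mod_lt s hL
      have e4 := Nat.mod_lt r hL
      rw [h2] at e1
      omega
    have h4 := fract_of_approx hcop hap (T := s - r) (by omega) (by omega)
    have h5 : (((s - r : ℕ) : ℝ)) * θ = (s : ℝ) * θ - (r : ℝ) * θ := by
      rw [Nat.cast_sub h1.le]
      ring
    rw [h5] at h4
    unfold lsSep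
    push_cast
    exact h4
  rcases lt_or_gt_of_ne hrs with h | h
  · exact key r s h hblock
  · have h1 := key s r h hblock.symm
    have h2 := (lsSep_neg (by omega) h1).1
    rw [neg_sub] at h2
    exact h2

/-- the mean square of the inner sums -/
lemma mean_square {θ : ℝ} {c : ℤ} {D : ℕ} (hcop : IsCoprime c (D : ℤ))
    (hap : |θ - c / D| ≤ 1 / (D : ℝ) ^ 2) (hD : 4 ≤ D) (N : ℕ) (hDN : D ≤ N) (B : Finset ℕ)
    (hB : B ⊆ Icc 1 N) (v : ℕ → ℂ) (hv : ∀ b, ‖v b‖ ≤ 1) :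
    ∑ a ∈ Icc 1 N, ‖∑ b ∈ B, v b * e (θ * a * b)‖ ^ 2 ≤ 90 * (N : ℝ) ^ 2 / D * B.card := by
  classical
  have hDN' : (D : ℝ) ≤ N := by exact_mod_cast hDN
  have hD4 : (4 : ℝ) ≤ D := by exact_mod_cast hD
  set L : ℕ := D / 2 with hL
  have hL0 : 0 < L := by omega
  have hLD : (D : ℝ) / 4 ≤ L := by
    have h1 : D ≤ 4 * L := by omega
    have h2 : (D : ℝ) ≤ 4 * L := by exact_mod_cast h1
    linarith
  set α : ℕ → ℂ := fun b => if b ∈ B then v b else 0 with hα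
  have hinner : ∀ a : ℕ, ∑ b ∈ B, v b * e (θ * a * b) =
      ∑ n ∈ Icc 1 N, α n * ee (n * ((a : ℝ) * θ)) := by
    intro a
    rw [← sum_subset hB (fun b _ hb => by rw [hα]; simp [hb])]
    refine sum_congr rfl fun b hb => ?_
    rw [hα]
    simp only [hb, if_true]
    rw [ee_eq_e]
    congr 2
    ring
  have hαsq : ∑ n ∈ Icc 1 N, ‖α n‖ ^ 2 ≤ B.card := by
    rw [← sum_subset hB (fun b _ hb => by rw [hα]; simp [hb])]
    calc ∑ n ∈ B, ‖α n‖ ^ 2 ≤ ∑ n ∈ B, (1 : ℝ) := by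
          apply sum_le_sum
          intro b hb
          rw [hα]
          simp only [hb, if_true]
          exact pow_le_one₀ (norm_nonneg _) (hv b)
      _ = B.card := by simp
  have hsplit : ∑ a ∈ Icc 1 N, ‖∑ b ∈ B, v b * e (θ * a * b)‖ ^ 2 =
      ∑ j ∈ range (N / L + 1), ∑ a ∈ (Icc 1 N).filter (fun a => a / L = j),
        ‖∑ b ∈ B, v b * e (θ * a * b)‖ ^ 2 := by
    rw [sum_fiberwise_of_maps_to]
    intro a ha
    rw [Finset.mem_Icc] at ha
    rw [Finset.mem_range]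
    exact Nat.lt_succ_of_le (Nat.div_le_div_right ha.2)
  rw [hsplit]
  have hblock : ∀ j ∈ range (N / L + 1), ∑ a ∈ (Icc 1 N).filter (fun a => a / L = j),
        ‖∑ b ∈ B, v b * e (θ * a * b)‖ ^ 2 ≤ 18 * N * B.card := by
    intro j _
    have h1 := ls_general ((Icc 1 N).filter (fun a => a / L = j)) (fun a : ℕ => (a : ℝ) * θ)
      (2 * D) N (by omega) (by
        intro r hr s hs hrs
        rw [Finset.mem_filter] at hr hs
        exact sep_block hcop hap (by omega) r s hrs (by rw [← hL, hr.2, hs.2])) α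
    have h2 : ∑ a ∈ (Icc 1 N).filter (fun a => a / L = j), ‖∑ b ∈ B, v b * e (θ * a * b)‖ ^ 2 =
        ∑ r ∈ (Icc 1 N).filter (fun a => a / L = j),
          ‖∑ n ∈ Icc 1 N, α n * ee (n * ((r : ℝ) * θ))‖ ^ 2 := by
      refine sum_congr rfl fun a _ => ?_
      rw [hinner]
    rw [h2]
    refine h1.trans ?_
    have h3 : (0 : ℝ) ≤ ∑ n ∈ Icc 1 N, ‖α n‖ ^ 2 := by positivity
    push_cast
    calc 6 * ((N : ℝ) + 2 * D) * ∑ n ∈ Icc 1 N, ‖α n‖ ^ 2 ≤ 6 * (N + 2 * N) * B.card := by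
          gcongr
      _ = _ := by ring
  refine (sum_le_sum hblock).trans ?_
  rw [sum_const, card_range, nsmul_eq_mul]
  have h4 : ((N / L + 1 : ℕ) : ℝ) ≤ 5 * N / D := by
    push_cast
    have h5 : ((N / L : ℕ) : ℝ) ≤ (N : ℝ) / L := Nat.cast_div_le
    have h6 : (N : ℝ) / L ≤ N / (D / 4) := by
      apply div_le_div_of_nonneg_left (by positivity) (by positivity) hLD
    have h7 : (N : ℝ) / (D / 4) = 4 * N / D := by field_simp
    have h8 : (1 : ℝ) ≤ N / D := by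
      rw [le_div_iff₀ (by linarith)]
      linarith
    calc ((N / L : ℕ) : ℝ) + 1 ≤ 4 * N / D + N / D := by linarith
      _ = _ := by ring
  calc ((N / L + 1 : ℕ) : ℝ) * (18 * N * B.card) ≤ 5 * N / D * (18 * N * B.card) := by gcongr
    _ = _ := by ring

/-- the bilinear sum -/
lemma bilinear {θ : ℝ} {c : ℤ} {D : ℕ} (hcop : IsCoprime c (D : ℤ))
    (hap : |θ - c / D| ≤ 1 / (D : ℝ) ^ 2) (hD : 4 ≤ D) (N : ℕ) (hDN : D ≤ N) (A B : Finset ℕ)
    (hA : A ⊆ Icc 1 N) (hB : B ⊆ Icc 1 N) (u v : ℕ → ℂ) (hu : ∀ b, ‖u b‖ ≤ 1)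
    (hv : ∀ b, ‖v b‖ ≤ 1) :
    ‖∑ a ∈ A, ∑ b ∈ B, u a * v b * e (θ * a * b)‖ ^ 2 ≤
      90 * (N : ℝ) ^ 2 / D * (A.card * B.card) := by
  have h1 := mean_square hcop hap hD N hDN B hB v hv
  have h2 : ‖∑ a ∈ A, ∑ b ∈ B, u a * v b * e (θ * a * b)‖ ≤
      ∑ a ∈ A, 1 * ‖∑ b ∈ B, v b * e (θ * a * b)‖ := by
    refine (norm_sum_le _ _).trans (sum_le_sum fun a _ => ?_)
    have h3 : ∑ b ∈ B, u a * v b * e (θ * a * b) = u a * ∑ b ∈ B, v b * e (θ * a * b) := by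
      rw [mul_sum]
      exact sum_congr rfl fun b _ => by ring
    rw [h3, norm_mul]
    exact mul_le_mul_of_nonneg_right (hu a) (norm_nonneg _)
  have h4 := Finset.sum_mul_sq_le_sq_mul_sq A (fun _ => (1 : ℝ))
    (fun a => ‖∑ b ∈ B, v b * e (θ * a * b)‖)
  calc ‖∑ a ∈ A, ∑ b ∈ B, u a * v b * e (θ * a * b)‖ ^ 2 ≤
      (∑ a ∈ A, 1 * ‖∑ b ∈ B, v b * e (θ * a * b)‖) ^ 2 :=
        pow_le_pow_left₀ (norm_nonneg _) h2 2
    _ ≤ (∑ a ∈ A, (1 : ℝ) ^ 2) * ∑ a ∈ A, ‖∑ b ∈ B, v b * e (θ * a * b)‖ ^ 2 := h4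
    _ ≤ A.card * ∑ a ∈ Icc 1 N, ‖∑ b ∈ B, v b * e (θ * a * b)‖ ^ 2 := by
        have h5 : ∑ a ∈ A, (1 : ℝ) ^ 2 = A.card := by simp
        rw [h5]
        apply mul_le_mul_of_nonneg_left _ (Nat.cast_nonneg _)
        exact sum_le_sum_of_subset_of_nonneg hA fun _ _ _ => by positivity
    _ ≤ A.card * (90 * (N : ℝ) ^ 2 / D * B.card) := by gcongr
    _ = _ := by ring

set_option maxHeartbeats 1000000 in
/-- the theorem at a good scale -/
theorem products_scale (α : ℝ) (τ ε : ℝ) (hτ0 : 0 < τ) (hτ1 : τ ≤ 1 / 2) (hε : 0 < ε)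
    (hε1 : ε ≤ 1) :
    ∃ κ : ℝ, 0 < κ ∧ ∀ᶠ Z : ℝ in atTop, GS α τ Z → ∀ (A B : Finset ℕ) (f g : ℕ → ℝ),
      (∀ a ∈ A, 1 ≤ a ∧ (a : ℝ) ≤ Z) → (∀ b ∈ B, 1 ≤ b ∧ (b : ℝ) ≤ Z) →
      Z ^ (2 - τ / 8) ≤ (A.card : ℝ) * B.card →
      (∀ a ∈ A, ∀ b ∈ B, Z ^ ε ≤ α * a * b + f a + g b) →
      ∃ G : Finset (ℕ × ℕ), (A.card : ℝ) * B.card * Z ^ (-ε) ≤ G.card ∧
        ∀ x ∈ G, x.1 ∈ A ∧ x.2 ∈ B ∧ ∀ q : ℕ, q.Prime →
          κ * ff Z < |(q : ℝ) - (α * x.1 * x.2 + f x.1 + g x.2)| := by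
  classical
  set η : ℝ := min (τ / 100) (ε / 8) with hη
  have hη0 : 0 < η := lt_min (by positivity) (by positivity)
  have hητ : η ≤ τ / 100 := min_le_left _ _
  have hηε : η ≤ ε / 8 := min_le_right _ _
  obtain ⟨κ, hκ, hcrit⟩ := crit_count η hη0 (by linarith)
  refine ⟨κ, hκ, ?_⟩
  filter_upwards [hcrit, freq_approx τ η (τ / 4) hη0 (by positivity) (by linarith) (by linarith)
      1 le_rfl, eventually_ge_atTop (2 : ℝ),
    (tendsto_rpow_atTop (show (0 : ℝ) < τ / 4 by positivity)).eventually_ge_atTop 4,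
    ev_pow (2 - τ / 4 + 8 * η) (2 - τ / 8) (90 * 64) (by linarith),
    ev_pow (1 - τ / 4) 1 2 (by linarith), ev_pow (-ε) (-(4 * η)) 2 (by linarith)]
    with Z hcr hfr hZ2 hp1 hp2 hp3 hp4
  intro hGS A B f g hA hB hAB hlow
  rw [Real.rpow_one] at hp3
  have hZ0 : 0 < Z := by linarith
  have hZ1 : 1 ≤ Z := by linarith
  set N : ℕ := ⌊Z⌋₊ with hN
  have hNZ : (N : ℝ) ≤ Z := Nat.floor_le hZ0.le
  have hNZ2 : Z / 2 ≤ (N : ℝ) := by
    have := Nat.lt_floor_add_one Z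
    rw [← hN] at this
    linarith
  have hAN : A ⊆ Icc 1 N := fun a ha => by
    rw [Finset.mem_Icc]
    exact ⟨(hA a ha).1, Nat.le_floor (hA a ha).2⟩
  have hBN : B ⊆ Icc 1 N := fun b hb => by
    rw [Finset.mem_Icc]
    exact ⟨(hB b hb).1, Nat.le_floor (hB b hb).2⟩
  have hABpos : (0 : ℝ) < (A.card : ℝ) * B.card := lt_of_lt_of_le (by positivity) hAB
  have hcard : ((A ×ˢ B).card : ℝ) = (A.card : ℝ) * B.card := by
    rw [card_product]
    push_cast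
    rfl
  obtain ⟨G, hG1, hG2, hG3⟩ := hcr (ℕ × ℕ) (A ×ˢ B)
    (fun x => α * x.1 * x.2 + f x.1 + g x.2) (by
      rw [← Finset.card_pos]
      have : (0 : ℝ) < (A ×ˢ B).card := by rw [hcard]; exact hABpos
      exact_mod_cast this) (by
      intro x hx
      rw [Finset.mem_product] at hx
      refine le_trans ?_ (hlow x.1 hx.1 x.2 hx.2)
      exact Real.rpow_le_rpow_of_exponent_le hZ1 (by linarith)) (by
      intro q h hq hqZ hh hhZ
      obtain ⟨c, D, hcop, hD1, hD2, hap⟩ := hfr α hGS h q hh hhZ hq hqZ 0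
      simp only [Int.cast_zero, zero_div, add_zero] at hap
      set θ : ℝ := (h : ℝ) / q * α with hθ
      have hD4 : 4 ≤ D := by
        have : (4 : ℝ) ≤ D := hp1.trans hD1
        exact_mod_cast this
      have hDN : D ≤ N := by
        have : (D : ℝ) ≤ N := by linarith
        exact_mod_cast this
      have hbil := bilinear hcop hap hD4 N hDN A B hAN hBN
        (fun a => e ((h : ℝ) / q * f a)) (fun b => e ((h : ℝ) / q * g b))
        (fun a => (norm_e _).le) (fun b => (norm_e _).le)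
      have hsum : ∑ x ∈ A ×ˢ B, e ((h : ℝ) / q * (α * x.1 * x.2 + f x.1 + g x.2)) =
          ∑ a ∈ A, ∑ b ∈ B, e ((h : ℝ) / q * f a) * e ((h : ℝ) / q * g b) * e (θ * a * b) := by
        rw [sum_product]
        refine sum_congr rfl fun a _ => sum_congr rfl fun b _ => ?_
        rw [← e_add, ← e_add]
        congr 1
        rw [hθ]
        ring
      rw [hsum, hcard]
      refine le_of_sq_le_sq ?_ (by positivity)
      refine hbil.trans ?_
      have hD0 : (0 : ℝ) < D := by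
        have : (4 : ℝ) ≤ D := by exact_mod_cast hD4
        linarith
      have h1 : 90 * (N : ℝ) ^ 2 / D ≤ 90 * Z ^ (2 - τ / 4) := by
        rw [div_le_iff₀ hD0]
        have h2 : Z ^ (2 - τ / 4) * Z ^ (τ / 4) = Z ^ 2 := by
          rw [← Real.rpow_add hZ0]
          norm_num
        calc 90 * (N : ℝ) ^ 2 ≤ 90 * Z ^ 2 := by gcongr
          _ = 90 * Z ^ (2 - τ / 4) * Z ^ (τ / 4) := by rw [← h2]; ring
          _ ≤ _ := by gcongr
      have h3 : 90 * Z ^ (2 - τ / 4) * 64 ≤ (A.card : ℝ) * B.card * Z ^ (-(8 * η)) := by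
        rw [Real.rpow_neg hZ0.le, ← div_eq_mul_inv, le_div_iff₀ (by positivity)]
        have h4 : Z ^ (2 - τ / 4) * Z ^ (8 * η) = Z ^ (2 - τ / 4 + 8 * η) := by
          rw [← Real.rpow_add hZ0]
        calc 90 * Z ^ (2 - τ / 4) * 64 * Z ^ (8 * η) =
            90 * 64 * (Z ^ (2 - τ / 4) * Z ^ (8 * η)) := by ring
          _ = 90 * 64 * Z ^ (2 - τ / 4 + 8 * η) := by rw [h4]
          _ ≤ Z ^ (2 - τ / 8) := hp2
          _ ≤ _ := hAB
      have h5 : Z ^ (-(4 * η)) * Z ^ (-(4 * η)) = Z ^ (-(8 * η)) := by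
        rw [← Real.rpow_add hZ0]
        congr 1
        ring
      calc 90 * (N : ℝ) ^ 2 / D * ((A.card : ℝ) * B.card) ≤
          90 * Z ^ (2 - τ / 4) * ((A.card : ℝ) * B.card) := by gcongr
        _ = (90 * Z ^ (2 - τ / 4) * 64) * ((A.card : ℝ) * B.card) / 64 := by ring
        _ ≤ ((A.card : ℝ) * B.card * Z ^ (-(8 * η))) * ((A.card : ℝ) * B.card) / 64 := by gcongr
        _ = _ := by rw [← h5]; ring)
  refine ⟨G, ?_, ?_⟩
  · rw [hcard] at hG2
    refine le_trans ?_ hG2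
    have h6 : (A.card : ℝ) * B.card * (2 * Z ^ (-ε)) ≤ (A.card : ℝ) * B.card * Z ^ (-(4 * η)) := by
      gcongr
    linarith
  · intro x hx
    have h7 := Finset.mem_product.mp (hG1 hx)
    exact ⟨h7.1, h7.2, hG3 x hx⟩

end Pool.Agent.Y565.RG
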