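import Pool.Agent.Y565.RG.Bilin

set_option autoImplicit false

/-!
Record prime-free neighbourhoods of `α a b + f a + g b`, `a ∈ A`, `b ∈ B`, `A`, `B` arbitrary dense
sets and `f`, `g` arbitrary functions: final form.
-/

namespace Pool.Agent.Y565.RG

open Finset Filter
open Pool.Agent.W147.PS (ff ff_compare ev_pow)
open Pool.Agent.TH915.PW (GS GS_frequent GS_eventually)

theorem products_both (α : ℝ) (hirr : Irrational α) (ε : ℝ) (hε : 0 < ε) (hε1 : ε ≤ 1) :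
    ∃ κ : ℝ, 0 < κ ∧
      (∀ Z₁ : ℝ, ∃ Z : ℝ, Z₁ ≤ Z ∧ ∀ (A B : Finset ℕ) (f g : ℕ → ℝ),
        (∀ a ∈ A, 1 ≤ a ∧ (a : ℝ) ≤ Z) → (∀ b ∈ B, 1 ≤ b ∧ (b : ℝ) ≤ Z) →
        Z ^ (2 - 1 / 16 : ℝ) ≤ (A.card : ℝ) * B.card →
        (∀ a ∈ A, ∀ b ∈ B, Z ^ ε ≤ α * a * b + f a + g b) →
        ∃ G : Finset (ℕ × ℕ), (A.card : ℝ) * B.card * Z ^ (-ε) ≤ G.card ∧
          ∀ x ∈ G, x.1 ∈ A ∧ x.2 ∈ B ∧ ∀ q : ℕ, q.Prime →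
            κ * ff Z < |(q : ℝ) - (α * x.1 * x.2 + f x.1 + g x.2)|) ∧
      (¬ Liouville α → ∃ δ : ℝ, 0 < δ ∧ ∃ Z₀ : ℝ, ∀ Z : ℝ, Z₀ ≤ Z →
        ∀ (A B : Finset ℕ) (f g : ℕ → ℝ),
        (∀ a ∈ A, 1 ≤ a ∧ (a : ℝ) ≤ Z) → (∀ b ∈ B, 1 ≤ b ∧ (b : ℝ) ≤ Z) →
        Z ^ (2 - δ) ≤ (A.card : ℝ) * B.card →
        (∀ a ∈ A, ∀ b ∈ B, Z ^ ε ≤ α * a * b + f a + g b) →
        ∃ G : Finset (ℕ × ℕ), (A.card : ℝ) * B.card * Z ^ (-ε) ≤ G.card ∧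
          ∀ x ∈ G, x.1 ∈ A ∧ x.2 ∈ B ∧ ∀ q : ℕ, q.Prime →
            κ * ff Z < |(q : ℝ) - (α * x.1 * x.2 + f x.1 + g x.2)|) := by
  obtain ⟨κ₁, hκ₁, h1⟩ := products_scale α (1 / 2) ε (by norm_num) le_rfl hε hε1
  have hpos : ∀ᶠ Z : ℝ in atTop, 0 ≤ ff Z := by
    filter_upwards [ff_compare 1 one_pos le_rfl, eventually_ge_atTop (1 : ℝ)] with Z hZ hZ1
    exact (Real.log_nonneg hZ1).trans hZ.1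
  -- part one, with any smaller constant
  have part1 : ∀ κ : ℝ, κ ≤ κ₁ → ∀ Z₁ : ℝ, ∃ Z : ℝ, Z₁ ≤ Z ∧ ∀ (A B : Finset ℕ) (f g : ℕ → ℝ),
        (∀ a ∈ A, 1 ≤ a ∧ (a : ℝ) ≤ Z) → (∀ b ∈ B, 1 ≤ b ∧ (b : ℝ) ≤ Z) →
        Z ^ (2 - 1 / 16 : ℝ) ≤ (A.card : ℝ) * B.card →
        (∀ a ∈ A, ∀ b ∈ B, Z ^ ε ≤ α * a * b + f a + g b) →
        ∃ G : Finset (ℕ × ℕ), (A.card : ℝ) * B.card * Z ^ (-ε) ≤ G.card ∧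
          ∀ x ∈ G, x.1 ∈ A ∧ x.2 ∈ B ∧ ∀ q : ℕ, q.Prime →
            κ * ff Z < |(q : ℝ) - (α * x.1 * x.2 + f x.1 + g x.2)| := by
    intro κ hκ Z₁
    obtain ⟨Z₀, hZ₀⟩ := eventually_atTop.mp (h1.and hpos)
    obtain ⟨Z, hZ, hGS⟩ := GS_frequent hirr (1 / 2) le_rfl (max Z₀ Z₁)
    obtain ⟨h2, h3⟩ := hZ₀ Z ((le_max_left _ _).trans hZ)
    refine ⟨Z, (le_max_right _ _).trans hZ, fun A B f g hA hB hAB hlow => ?_⟩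
    obtain ⟨G, hG1, hG2⟩ := h2 hGS A B f g hA hB (by
      convert hAB using 2
      norm_num) hlow
    refine ⟨G, hG1, fun x hx => ?_⟩
    obtain ⟨h4, h5, h6⟩ := hG2 x hx
    exact ⟨h4, h5, fun q hq => lt_of_le_of_lt (mul_le_mul_of_nonneg_right hκ h3) (h6 q hq)⟩
  by_cases hL : Liouville α
  · exact ⟨κ₁, hκ₁, part1 κ₁ le_rfl, fun h => absurd hL h⟩
  · obtain ⟨τ, hτ0, hτ1, hGS⟩ := GS_eventually hirr hL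
    obtain ⟨κ₂, hκ₂, h2⟩ := products_scale α τ ε hτ0 hτ1 hε hε1
    refine ⟨min κ₁ κ₂, lt_min hκ₁ hκ₂, part1 _ (min_le_left _ _), fun _ => ⟨τ / 8, by positivity, ?_⟩⟩
    obtain ⟨Z₀, hZ₀⟩ := eventually_atTop.mp ((h2.and hpos).and hGS)
    refine ⟨Z₀, fun Z hZ A B f g hA hB hAB hlow => ?_⟩
    obtain ⟨⟨h3, h4⟩, h5⟩ := hZ₀ Z hZ
    obtain ⟨G, hG1, hG2⟩ := h3 h5 A B f g hA hB hAB hlow
    refine ⟨G, hG1, fun x hx => ?_⟩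
    obtain ⟨h6, h7, h8⟩ := hG2 x hx
    exact ⟨h6, h7, fun q hq => lt_of_le_of_lt
      (mul_le_mul_of_nonneg_right (min_le_right _ _) h4) (h8 q hq)⟩

end Pool.Agent.Y565.RG
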