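import Pool.Agent.Y565.RG.Sep

set_option autoImplicit false

/-!
Bilinear sums over separated sets of reals with smooth phases with a mixed derivative.
-/

namespace Pool.Agent.Y565.RG

open Finset
open Pool.Agent.H469R2.NK (e norm_e e_add)
open Pool.Agent.TH915.PW (e_sub)

lemma e_sub_one_lower (x : ℝ) (hx : |x| ≤ 1 / 2) : 4 * |x| ≤ ‖e x - 1‖ := by
  have h2 : e x = Complex.exp (Complex.I * ((2 * Real.pi * x : ℝ) : ℂ)) := by
    unfold e
    congr 1
    ring
  rw [h2, Complex.norm_exp_I_mul_ofReal_sub_one, Real.norm_eq_abs, abs_mul,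
    abs_of_pos (show (0 : ℝ) < 2 by norm_num)]
  have h3 : 2 * Real.pi * x / 2 = Real.pi * x := by ring
  rw [h3]
  have hpi := Real.pi_pos
  have h4 : |Real.pi * x| = Real.pi * |x| := by rw [abs_mul, abs_of_pos hpi]
  have h5 : |Real.sin (Real.pi * x)| = Real.sin |Real.pi * x| := by
    apply Real.abs_sin_eq_sin_abs_of_abs_le_pi
    rw [h4]
    nlinarith
  have h6 := Real.mul_le_sin (x := |Real.pi * x|) (abs_nonneg _) (by rw [h4]; nlinarith)
  rw [h5]
  have h7 : 2 / Real.pi * |Real.pi * x| = 2 * |x| := by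
    rw [h4]
    field_simp
  rw [h7] at h6
  linarith

/-- a form of the inequality of Kusmin and Landau without monotonicity -/
lemma kl_var (N : ℕ) (ψ : ℕ → ℝ) (lam mu : ℝ) (hlam : 0 < lam) (hmu : 0 ≤ mu)
    (h1 : ∀ n, n < N → lam ≤ |ψ (n + 1) - ψ n| ∧ |ψ (n + 1) - ψ n| ≤ 1 / 2)
    (h2 : ∀ n, n + 1 < N → |(ψ (n + 2) - ψ (n + 1)) - (ψ (n + 1) - ψ n)| ≤ mu) :
    ‖∑ n ∈ range N, e (ψ n)‖ ≤ 1 / (2 * lam) + N * (mu / (2 * lam ^ 2)) := by
  rcases Nat.eq_zero_or_pos N with rfl | hN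
  · simp
    positivity
  obtain ⟨m, rfl⟩ : ∃ m, N = m + 1 := ⟨N - 1, by omega⟩
  set r : ℕ → ℂ := fun n => 1 / (e (ψ (n + 1) - ψ n) - 1) with hr
  have hlow : ∀ n, n < m + 1 → 4 * lam ≤ ‖e (ψ (n + 1) - ψ n) - 1‖ := by
    intro n hn
    obtain ⟨a, b⟩ := h1 n hn
    have := e_sub_one_lower _ b
    linarith
  have hne : ∀ n, n < m + 1 → e (ψ (n + 1) - ψ n) - 1 ≠ 0 := by
    intro n hn h
    have := hlow n hn
    rw [h, norm_zero] at this
    linarith
  have hrn : ∀ n, n < m + 1 → ‖r n‖ ≤ 1 / (4 * lam) := by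
    intro n hn
    rw [hr]
    simp only
    rw [norm_div, norm_one]
    exact one_div_le_one_div_of_le (by positivity) (hlow n hn)
  have hstep : ∀ n, n < m + 1 → e (ψ n) = r n * (e (ψ (n + 1)) - e (ψ n)) := by
    intro n hn
    have h3 : e (ψ (n + 1)) = e (ψ n) * e (ψ (n + 1) - ψ n) := by
      rw [← e_add]
      congr 1
      ring
    have h4 := hne n hn
    rw [h3, hr]
    simp only
    have h5 : e (ψ n) * e (ψ (n + 1) - ψ n) - e (ψ n) = e (ψ n) * (e (ψ (n + 1) - ψ n) - 1) := by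
      ring
    rw [h5]
    field_simp
  have hid : ∀ k, k < m + 1 → ∑ n ∈ range (k + 1), e (ψ n) =
      r k * e (ψ (k + 1)) - r 0 * e (ψ 0) - ∑ n ∈ range k, e (ψ (n + 1)) * (r (n + 1) - r n) := by
    intro k
    induction k with
    | zero =>
      intro hk
      simp only [zero_add, range_one, sum_singleton, range_zero, sum_empty, sub_zero]
      have := hstep 0 hk
      rw [zero_add] at this
      linear_combination this
    | succ k ih =>
      intro hk
      rw [sum_range_succ, ih (by omega), sum_range_succ]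
      have := hstep (k + 1) hk
      linear_combination this
  rw [hid m (by omega)]
  have hdiff : ∀ n, n < m → ‖e (ψ (n + 1)) * (r (n + 1) - r n)‖ ≤ mu / (2 * lam ^ 2) := by
    intro n hn
    rw [norm_mul, norm_e, one_mul]
    have a := hlow n (by omega)
    have b := hlow (n + 1) (by omega)
    have a' := hne n (by omega)
    have b' := hne (n + 1) (by omega)
    have h3 : r (n + 1) - r n = (e (ψ (n + 1) - ψ n) - e (ψ (n + 1 + 1) - ψ (n + 1))) /
        ((e (ψ (n + 1 + 1) - ψ (n + 1)) - 1) * (e (ψ (n + 1) - ψ n) - 1)) := by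
      rw [hr]
      simp only
      rw [div_sub_div _ _ b' a']
      congr 1
      ring
    rw [h3, norm_div, norm_mul]
    have h4 := e_close (ψ (n + 1) - ψ n) (ψ (n + 1 + 1) - ψ (n + 1))
    have h5 := h2 n (by omega)
    rw [abs_sub_comm] at h5
    have h6 : ‖e (ψ (n + 1) - ψ n) - e (ψ (n + 1 + 1) - ψ (n + 1))‖ ≤ 2 * Real.pi * mu :=
      h4.trans (mul_le_mul_of_nonneg_left h5 (by positivity))
    have h7 : 2 * Real.pi * mu ≤ 8 * mu := by
      have := Real.pi_le_four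
      nlinarith
    have h8 : (4 * lam) * (4 * lam) ≤ ‖e (ψ (n + 1 + 1) - ψ (n + 1)) - 1‖ *
        ‖e (ψ (n + 1) - ψ n) - 1‖ := mul_le_mul b a (by positivity) (norm_nonneg _)
    calc _ ≤ 8 * mu / ((4 * lam) * (4 * lam)) :=
          div_le_div₀ (by positivity) (h6.trans h7) (by positivity) h8
      _ = _ := by
          field_simp
          ring
  have hsum : ‖∑ n ∈ range m, e (ψ (n + 1)) * (r (n + 1) - r n)‖ ≤ m * (mu / (2 * lam ^ 2)) := by
    refine (norm_sum_le _ _).trans ?_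
    calc ∑ n ∈ range m, ‖e (ψ (n + 1)) * (r (n + 1) - r n)‖ ≤
        ∑ n ∈ range m, mu / (2 * lam ^ 2) :=
          sum_le_sum fun n hn => hdiff n (Finset.mem_range.mp hn)
      _ = _ := by rw [sum_const, card_range, nsmul_eq_mul]
  have e1 : ‖r m * e (ψ (m + 1))‖ ≤ 1 / (4 * lam) := by
    rw [norm_mul, norm_e, mul_one]
    exact hrn m (by omega)
  have e2 : ‖r 0 * e (ψ 0)‖ ≤ 1 / (4 * lam) := by
    rw [norm_mul, norm_e, mul_one]
    exact hrn 0 (by omega)
  have e3 : (0 : ℝ) ≤ mu / (2 * lam ^ 2) := by positivity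
  calc _ ≤ ‖r m * e (ψ (m + 1)) - r 0 * e (ψ 0)‖ +
        ‖∑ n ∈ range m, e (ψ (n + 1)) * (r (n + 1) - r n)‖ := norm_sub_le _ _
    _ ≤ (‖r m * e (ψ (m + 1))‖ + ‖r 0 * e (ψ 0)‖) +
        ‖∑ n ∈ range m, e (ψ (n + 1)) * (r (n + 1) - r n)‖ := by
          gcongr
          exact norm_sub_le _ _
    _ ≤ (1 / (4 * lam) + 1 / (4 * lam)) + m * (mu / (2 * lam ^ 2)) := by gcongr
    _ = 1 / (2 * lam) + m * (mu / (2 * lam ^ 2)) := by
        congr 1
        field_simp
        norm_num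
    _ ≤ _ := by
        push_cast
        linarith

/-- the mean square over a grid of a sum with smooth phases -/
lemma mean_gen (Y : Finset ℝ) (V : ℝ) (hV : 0 < V) (hY0 : ∀ y ∈ Y, 0 ≤ y ∧ y ≤ V)
    (hY : ∀ y ∈ Y, ∀ y' ∈ Y, y ≠ y' → 1 ≤ |y - y'|) (F : ℕ → ℝ → ℝ) (N : ℕ) (hN : 1 ≤ N)
    (lam mu : ℝ) (hlam : 0 < lam) (hmu : 0 ≤ mu)
    (h1 : ∀ n, n < N → ∀ y ∈ Y, ∀ y' ∈ Y,
      lam * |y - y'| ≤ |(F (n + 1) y - F (n + 1) y') - (F n y - F n y')| ∧
      |(F (n + 1) y - F (n + 1) y') - (F n y - F n y')| ≤ 1 / 2)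
    (h2 : ∀ n, n + 1 < N → ∀ y ∈ Y, ∀ y' ∈ Y,
      |((F (n + 2) y - F (n + 2) y') - (F (n + 1) y - F (n + 1) y')) -
        ((F (n + 1) y - F (n + 1) y') - (F n y - F n y'))| ≤ mu * |y - y'|)
    (w : ℝ → ℂ) (hw : ∀ y, ‖w y‖ ≤ 1) :
    ∑ n ∈ range (N + 1), ‖∑ y ∈ Y, w y * e (F n y)‖ ^ 2 ≤
      Y.card * ((N + 1) + (1 / lam + N * (mu / (2 * lam ^ 2))) * (2 * (1 + Real.log (V + 1)))) := by
  classical
  have key : (((∑ n ∈ range (N + 1), ‖∑ y ∈ Y, w y * e (F n y)‖ ^ 2 : ℝ)) : ℂ) =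
      ∑ y ∈ Y, ∑ y' ∈ Y, w y * (starRingEnd ℂ) (w y') *
        ∑ n ∈ range (N + 1), e (F n y - F n y') := by
    push_cast
    have h1 : ∀ n : ℕ, ((‖∑ y ∈ Y, w y * e (F n y)‖ : ℂ)) ^ 2 =
        ∑ y ∈ Y, ∑ y' ∈ Y, w y * (starRingEnd ℂ) (w y') * e (F n y - F n y') := by
      intro n
      rw [← Complex.mul_conj', map_sum, sum_mul_sum]
      refine sum_congr rfl fun y _ => sum_congr rfl fun y' _ => ?_
      rw [map_mul, e_sub]
      ring
    rw [sum_congr rfl fun n _ => h1 n, sum_comm]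
    refine sum_congr rfl fun y _ => ?_
    rw [sum_comm]
    refine sum_congr rfl fun y' _ => ?_
    rw [mul_sum]
  have h3 : (∑ n ∈ range (N + 1), ‖∑ y ∈ Y, w y * e (F n y)‖ ^ 2 : ℝ) ≤
      ∑ y ∈ Y, ∑ y' ∈ Y, ‖∑ n ∈ range (N + 1), e (F n y - F n y')‖ := by
    have h3 : ‖(((∑ n ∈ range (N + 1), ‖∑ y ∈ Y, w y * e (F n y)‖ ^ 2 : ℝ)) : ℂ)‖ =
        ∑ n ∈ range (N + 1), ‖∑ y ∈ Y, w y * e (F n y)‖ ^ 2 := by
      rw [Complex.norm_real, Real.norm_of_nonneg (by positivity)]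
    rw [← h3, key]
    refine (norm_sum_le _ _).trans (sum_le_sum fun y _ => ?_)
    refine (norm_sum_le _ _).trans (sum_le_sum fun y' _ => ?_)
    rw [norm_mul, norm_mul, RCLike.norm_conj]
    calc ‖w y‖ * ‖w y'‖ * ‖∑ n ∈ range (N + 1), e (F n y - F n y')‖ ≤
        1 * 1 * ‖∑ n ∈ range (N + 1), e (F n y - F n y')‖ := by
          gcongr
          · exact hw y
          · exact hw y'
      _ = _ := by ring
  refine h3.trans ?_
  have h4 : ∀ y ∈ Y, ∑ y' ∈ Y, ‖∑ n ∈ range (N + 1), e (F n y - F n y')‖ ≤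
      (N + 1) + (1 / lam + N * (mu / (2 * lam ^ 2))) * (2 * (1 + Real.log (V + 1))) := by
    intro y hy
    rw [← add_sum_erase Y _ hy]
    apply add_le_add
    · refine (norm_sum_le _ _).trans ?_
      simp only [norm_e, sum_const, card_range, nsmul_eq_mul, mul_one]
      push_cast
      exact le_rfl
    · calc ∑ y' ∈ Y.erase y, ‖∑ n ∈ range (N + 1), e (F n y - F n y')‖ ≤
          ∑ y' ∈ Y.erase y, (1 / lam + N * (mu / (2 * lam ^ 2))) * (1 / |y - y'|) := by
            apply sum_le_sum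
            intro y' hy'
            rw [mem_erase] at hy'
            have hyy : 0 < |y - y'| := abs_pos.mpr (sub_ne_zero.mpr (Ne.symm hy'.1))
            have a := kl_var N (fun n => F n y - F n y') (lam * |y - y'|) (mu * |y - y'|)
              (by positivity) (by positivity)
              (fun n hn => h1 n hn y hy y' hy'.2) (fun n hn => h2 n hn y hy y' hy'.2)
            have b : lam * |y - y'| ≤ 1 / 2 :=
              (h1 0 (by omega) y hy y' hy'.2).1.trans (h1 0 (by omega) y hy y' hy'.2).2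
            have c : (1 : ℝ) ≤ 1 / (2 * (lam * |y - y'|)) := by
              rw [le_div_iff₀ (by positivity)]
              linarith
            rw [sum_range_succ]
            calc _ ≤ ‖∑ n ∈ range N, e (F n y - F n y')‖ + ‖e (F N y - F N y')‖ := norm_add_le _ _
              _ ≤ (1 / (2 * (lam * |y - y'|)) +
                    N * (mu * |y - y'| / (2 * (lam * |y - y'|) ^ 2))) +
                  1 / (2 * (lam * |y - y'|)) := by
                  rw [norm_e]
                  exact add_le_add a c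
              _ = _ := by
                  field_simp
                  ring
        _ = (1 / lam + N * (mu / (2 * lam ^ 2))) * ∑ y' ∈ Y.erase y, 1 / |y - y'| := by
            rw [mul_sum]
        _ ≤ (1 / lam + N * (mu / (2 * lam ^ 2))) * (2 * (1 + Real.log (V + 1))) := by
            gcongr
            exact harm_sep_two Y V hV.le hY0 hY y hy
  calc ∑ y ∈ Y, ∑ y' ∈ Y, ‖∑ n ∈ range (N + 1), e (F n y - F n y')‖ ≤
      ∑ y ∈ Y, (((N : ℝ) + 1) +
        (1 / lam + N * (mu / (2 * lam ^ 2))) * (2 * (1 + Real.log (V + 1)))) := sum_le_sum h4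
    _ = _ := by rw [sum_const, nsmul_eq_mul]

end Pool.Agent.Y565.RG
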