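import Pool.Agent.Y565.RG.Gen

set_option autoImplicit false

/-!
Bilinear sums over separated sets of reals with smooth phases with a mixed derivative.
-/

namespace Pool.Agent.Y565.RG

open Finset
open Pool.Agent.H469R2.NK (e norm_e e_add)
open Pool.Agent.TH915.PW (e_sub)

/-- the bilinear sum over separated sets, with a phase of two variables -/
lemma bil_gen (X Y : Finset ℝ) (U V : ℝ) (hU : 1 ≤ U) (hV : 0 < V)
    (hX0 : ∀ x ∈ X, 0 ≤ x ∧ x ≤ U)
    (hX : ∀ x ∈ X, ∀ x' ∈ X, x ≠ x' → 1 ≤ |x - x'|) (hY0 : ∀ y ∈ Y, 0 ≤ y ∧ y ≤ V)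
    (hY : ∀ y ∈ Y, ∀ y' ∈ Y, y ≠ y' → 1 ≤ |y - y'|) (F : ℝ → ℝ → ℝ) (c C E : ℝ)
    (hc : 0 < c) (hC : 0 ≤ C) (hE : 0 ≤ E)
    (hF1 : ∀ x x' y y' : ℝ, 0 ≤ x → x ≤ U → 0 ≤ x' → x' ≤ U → 0 ≤ y → y ≤ V → 0 ≤ y' → y' ≤ V →
      c * (|x - x'| * |y - y'|) ≤ |(F x y - F x y') - (F x' y - F x' y')| ∧
      |(F x y - F x y') - (F x' y - F x' y')| ≤ C * (|x - x'| * |y - y'|))
    (hF2 : ∀ x h y y' : ℝ, 0 ≤ x → 0 ≤ h → x + 2 * h ≤ U → 0 ≤ y → y ≤ V → 0 ≤ y' → y' ≤ V →
      |((F (x + 2 * h) y - F (x + 2 * h) y') - (F (x + h) y - F (x + h) y')) -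
        ((F (x + h) y - F (x + h) y') - (F x y - F x y'))| ≤ E * (h ^ 2 * |y - y'|))
    (δ ρ : ℝ) (hδ : 0 < δ)
    (hδ1 : δ ≤ 1) (hρ : C * δ * V ≤ ρ) (hρ2 : ρ ≤ 1 / 2) (u w : ℝ → ℂ) (hu : ∀ x, ‖u x‖ ≤ 1)
    (hw : ∀ y, ‖w y‖ ≤ 1) :
    ‖∑ x ∈ X, ∑ y ∈ Y, u x * w y * e (F x y)‖ ≤ 2 * Real.pi * ρ * (X.card * Y.card) +
      Real.sqrt (X.card * Y.card * (U / δ + 1 +
        (1 / (c * δ) * (1 + U * E / (2 * c))) * (2 * (1 + Real.log (V + 1))))) := by
  classical
  have hU0 : 0 < U := by linarith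
  set n : ℝ → ℕ := fun x => ⌊x / δ⌋₊ with hn
  have hnx : ∀ x ∈ X, 0 ≤ x - δ * n x ∧ x - δ * n x ≤ δ := by
    intro x hx
    have a0 : 0 ≤ x / δ := div_nonneg (hX0 x hx).1 hδ.le
    have a1 := Nat.floor_le a0
    have a2 := (Nat.lt_floor_add_one (x / δ)).le
    have e1 : δ * (x / δ) = x := by field_simp
    have b1 := mul_le_mul_of_nonneg_left a1 hδ.le
    have b2 := mul_le_mul_of_nonneg_left a2 hδ.le
    rw [e1] at b1 b2
    rw [mul_add, mul_one] at b2
    constructor <;> simp only [hn] <;> linarith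
  have hinj : Set.InjOn n (X : Set ℝ) := by
    intro x hx x' hx' h
    by_contra hne
    have h4 := hX x hx x' hx' hne
    have a1 : x / δ < ⌊x / δ⌋₊ + 1 := Nat.lt_floor_add_one (x / δ)
    have a2 : x' / δ < ⌊x' / δ⌋₊ + 1 := Nat.lt_floor_add_one (x' / δ)
    have b1 := Nat.floor_le (div_nonneg (hX0 x hx).1 hδ.le)
    have b2 := Nat.floor_le (div_nonneg (hX0 x' hx').1 hδ.le)
    simp only [hn] at h
    rw [h] at a1 b1
    have h5 : |x / δ - x' / δ| < 1 := by
      rw [abs_lt]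
      constructor <;> linarith
    rw [← sub_div, abs_div, abs_of_pos hδ, div_lt_one hδ] at h5
    linarith
  -- the number of grid points
  set N : ℕ := ⌊U / δ⌋₊ with hN
  have hN1 : 1 ≤ N := by
    apply Nat.le_floor
    rw [Nat.cast_one, le_div_iff₀ hδ]
    linarith
  have hNU : (N : ℝ) ≤ U / δ := Nat.floor_le (by positivity)
  have hNU' : (N : ℝ) * δ ≤ U := by rwa [le_div_iff₀ hδ] at hNU
  have hgrid : ∀ m : ℕ, m ≤ N → 0 ≤ δ * m ∧ δ * m ≤ U := by
    intro m hm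
    have hm' : (m : ℝ) ≤ N := by exact_mod_cast hm
    constructor
    · positivity
    · calc δ * m ≤ δ * N := by gcongr
        _ = N * δ := mul_comm _ _
        _ ≤ U := hNU'
  have hnN : ∀ x ∈ X, n x ≤ N := fun x hx => Nat.floor_le_floor
    (div_le_div_of_nonneg_right (hX0 x hx).2 hδ.le)
  set F' : ℝ → ℝ → ℝ := fun x y => F x y - F x 0 with hF'
  set G : ℕ → ℂ := fun m => ∑ y ∈ Y, w y * e (F' (δ * m) y) with hG
  set u' : ℝ → ℂ := fun x => u x * e (F x 0) with hu'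
  have hu'1 : ∀ x, ‖u' x‖ ≤ 1 := by
    intro x
    rw [hu']
    simp only
    rw [norm_mul, norm_e, mul_one]
    exact hu x
  have hre : ∑ x ∈ X, ∑ y ∈ Y, u x * w y * e (F x y) =
      ∑ x ∈ X, ∑ y ∈ Y, u' x * w y * e (F' x y) := by
    refine sum_congr rfl fun x _ => sum_congr rfl fun y _ => ?_
    have e1 : F x y = F x 0 + F' x y := by
      simp only [hF']
      ring
    rw [e1, e_add, hu']
    ring
  rw [hre]
  have hdiff : ‖(∑ x ∈ X, ∑ y ∈ Y, u' x * w y * e (F' x y)) - ∑ x ∈ X, u' x * G (n x)‖ ≤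
      2 * Real.pi * ρ * (X.card * Y.card) := by
    rw [← sum_sub_distrib]
    calc ‖∑ x ∈ X, ((∑ y ∈ Y, u' x * w y * e (F' x y)) - u' x * G (n x))‖ ≤
        ∑ x ∈ X, ∑ y ∈ Y, 2 * Real.pi * ρ := by
          refine (norm_sum_le _ _).trans (sum_le_sum fun x hx => ?_)
          rw [hG, mul_sum, ← sum_sub_distrib]
          refine (norm_sum_le _ _).trans (sum_le_sum fun y hy => ?_)
          have e1 : u' x * w y * e (F' x y) - u' x * (w y * e (F' (δ * (n x : ℝ)) y)) =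
              u' x * w y * (e (F' x y) - e (F' (δ * (n x : ℝ)) y)) := by ring
          rw [e1, norm_mul, norm_mul]
          have h1 := e_close (F' x y) (F' (δ * (n x : ℝ)) y)
          have hg := hgrid (n x) (hnN x hx)
          have h3 := hY0 y hy
          have h2 := (hF1 x (δ * (n x : ℝ)) y 0 (hX0 x hx).1 (hX0 x hx).2 hg.1 hg.2 h3.1 h3.2
            le_rfl hV.le).2
          have e2 : F' x y - F' (δ * (n x : ℝ)) y =
              (F x y - F x 0) - (F (δ * (n x : ℝ)) y - F (δ * (n x : ℝ)) 0) := by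
            simp only [hF']
          have h6 := hnx x hx
          have h4 : |F' x y - F' (δ * (n x : ℝ)) y| ≤ ρ := by
            rw [e2]
            refine h2.trans (le_trans ?_ hρ)
            rw [sub_zero, abs_of_nonneg h6.1, abs_of_nonneg h3.1, mul_assoc]
            exact mul_le_mul_of_nonneg_left (mul_le_mul h6.2 h3.2 h3.1 hδ.le) hC
          have h5 : 2 * Real.pi * |F' x y - F' (δ * (n x : ℝ)) y| ≤ 2 * Real.pi * ρ :=
            mul_le_mul_of_nonneg_left h4 (by positivity)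
          calc ‖u' x‖ * ‖w y‖ * ‖e (F' x y) - e (F' (δ * (n x : ℝ)) y)‖ ≤
              1 * 1 * (2 * Real.pi * ρ) := by
                refine mul_le_mul (mul_le_mul (hu'1 x) (hw y) (norm_nonneg _) zero_le_one)
                  (h1.trans h5) (norm_nonneg _) (by norm_num)
            _ = _ := by ring
      _ = _ := by
          rw [sum_const, sum_const, nsmul_eq_mul, nsmul_eq_mul]
          ring
  have hmean := mean_gen Y V hV hY0 hY (fun m y => F' (δ * (m : ℝ)) y) N hN1 (c * δ) (E * δ ^ 2)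
    (by positivity) (by positivity) (by
      intro m hm y hy y' hy'
      have g1 := hgrid (m + 1) (by omega)
      have g0 := hgrid m (by omega)
      push_cast at g1
      have a := hF1 (δ * ((m : ℝ) + 1)) (δ * m) y y' g1.1 g1.2 g0.1 g0.2 (hY0 y hy).1 (hY0 y hy).2
        (hY0 y' hy').1 (hY0 y' hy').2
      have e1 : |δ * ((m : ℝ) + 1) - δ * m| = δ := by
        have : δ * ((m : ℝ) + 1) - δ * m = δ := by ring
        rw [this, abs_of_pos hδ]
      rw [e1] at a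
      have e2 : (F' (δ * ((m + 1 : ℕ) : ℝ)) y - F' (δ * ((m + 1 : ℕ) : ℝ)) y') -
          (F' (δ * (m : ℝ)) y - F' (δ * (m : ℝ)) y') =
          (F (δ * ((m : ℝ) + 1)) y - F (δ * ((m : ℝ) + 1)) y') -
            (F (δ * (m : ℝ)) y - F (δ * (m : ℝ)) y') := by
        simp only [hF']
        push_cast
        ring
      have hyy : |y - y'| ≤ V := by
        have := hY0 y hy
        have := hY0 y' hy'
        rw [abs_le]
        constructor <;> linarith
      rw [e2]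
      refine ⟨by rw [mul_assoc]; exact a.1, a.2.trans ?_⟩
      calc C * (δ * |y - y'|) ≤ C * (δ * V) := by gcongr
        _ = C * δ * V := by ring
        _ ≤ ρ := hρ
        _ ≤ 1 / 2 := hρ2) (by
      intro m hm y hy y' hy'
      have g2 := hgrid (m + 2) (by omega)
      have g0 := hgrid m (by omega)
      push_cast at g2
      have a := hF2 (δ * m) δ y y' g0.1 hδ.le (by linarith [g2.2]) (hY0 y hy).1 (hY0 y hy).2
        (hY0 y' hy').1 (hY0 y' hy').2
      have e1 : δ * (m : ℝ) + 2 * δ = δ * ((m : ℝ) + 2) := by ring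
      have e2 : δ * (m : ℝ) + δ = δ * ((m : ℝ) + 1) := by ring
      rw [e1, e2] at a
      have e3 : ((F' (δ * ((m + 2 : ℕ) : ℝ)) y - F' (δ * ((m + 2 : ℕ) : ℝ)) y') -
            (F' (δ * ((m + 1 : ℕ) : ℝ)) y - F' (δ * ((m + 1 : ℕ) : ℝ)) y')) -
          ((F' (δ * ((m + 1 : ℕ) : ℝ)) y - F' (δ * ((m + 1 : ℕ) : ℝ)) y') -
            (F' (δ * (m : ℝ)) y - F' (δ * (m : ℝ)) y')) =
          ((F (δ * ((m : ℝ) + 2)) y - F (δ * ((m : ℝ) + 2)) y') -
            (F (δ * ((m : ℝ) + 1)) y - F (δ * ((m : ℝ) + 1)) y')) -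
          ((F (δ * ((m : ℝ) + 1)) y - F (δ * ((m : ℝ) + 1)) y') -
            (F (δ * (m : ℝ)) y - F (δ * (m : ℝ)) y')) := by
        simp only [hF']
        push_cast
        ring
      rw [e3, mul_assoc]
      exact a) w hw
  have hlog : 0 ≤ 1 + Real.log (V + 1) := by
    have := Real.log_nonneg (show (1 : ℝ) ≤ V + 1 by linarith)
    linarith
  have hmain : ‖∑ x ∈ X, u' x * G (n x)‖ ≤
      Real.sqrt (X.card * Y.card * (U / δ + 1 +
        (1 / (c * δ) * (1 + U * E / (2 * c))) * (2 * (1 + Real.log (V + 1))))) := by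
    apply Real.le_sqrt_of_sq_le
    have h1 : ‖∑ x ∈ X, u' x * G (n x)‖ ≤ ∑ x ∈ X, 1 * ‖G (n x)‖ := by
      refine (norm_sum_le _ _).trans (sum_le_sum fun x _ => ?_)
      rw [norm_mul]
      exact mul_le_mul_of_nonneg_right (hu'1 x) (norm_nonneg _)
    have h2 := Finset.sum_mul_sq_le_sq_mul_sq X (fun _ => (1 : ℝ)) (fun x => ‖G (n x)‖)
    have h3 : 1 / (c * δ) + N * (E * δ ^ 2 / (2 * (c * δ) ^ 2)) ≤
        1 / (c * δ) * (1 + U * E / (2 * c)) := by
      have h4 : N * (E * δ ^ 2 / (2 * (c * δ) ^ 2)) ≤ (U / δ) * (E * δ ^ 2 / (2 * (c * δ) ^ 2)) := by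
        gcongr
      have h5 : 1 / (c * δ) + (U / δ) * (E * δ ^ 2 / (2 * (c * δ) ^ 2)) =
          1 / (c * δ) * (1 + U * E / (2 * c)) := by
        field_simp
      linarith
    calc ‖∑ x ∈ X, u' x * G (n x)‖ ^ 2 ≤ (∑ x ∈ X, 1 * ‖G (n x)‖) ^ 2 :=
          pow_le_pow_left₀ (norm_nonneg _) h1 2
      _ ≤ (∑ x ∈ X, (1 : ℝ) ^ 2) * ∑ x ∈ X, ‖G (n x)‖ ^ 2 := h2
      _ = X.card * ∑ m ∈ X.image n, ‖G m‖ ^ 2 := by
          rw [sum_image (fun s hs s' hs' h => hinj hs hs' h)]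
          simp
      _ ≤ X.card * ∑ m ∈ range (N + 1), ‖G m‖ ^ 2 := by
          apply mul_le_mul_of_nonneg_left _ (Nat.cast_nonneg _)
          apply sum_le_sum_of_subset_of_nonneg
          · intro m hm
            obtain ⟨x, hx, rfl⟩ := mem_image.mp hm
            rw [Finset.mem_range]
            exact Nat.lt_succ_of_le (hnN x hx)
          · intro m _ _
            positivity
      _ ≤ X.card * (Y.card * (((N : ℝ) + 1) +
            (1 / (c * δ) + N * (E * δ ^ 2 / (2 * (c * δ) ^ 2))) *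
              (2 * (1 + Real.log (V + 1))))) := by
          apply mul_le_mul_of_nonneg_left _ (Nat.cast_nonneg _)
          exact hmean
      _ ≤ X.card * (Y.card * (U / δ + 1 +
        (1 / (c * δ) * (1 + U * E / (2 * c))) * (2 * (1 + Real.log (V + 1))))) := by gcongr
      _ = _ := by ring
  calc _ = ‖((∑ x ∈ X, ∑ y ∈ Y, u' x * w y * e (F' x y)) - ∑ x ∈ X, u' x * G (n x)) +
        ∑ x ∈ X, u' x * G (n x)‖ := by rw [sub_add_cancel]
    _ ≤ _ := (norm_add_le _ _).trans (add_le_add hdiff hmain)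

end Pool.Agent.Y565.RG
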