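import Pool.Agent.TH915.PW.Disc
import Pool.Agent.Y565.RG.Count

set_option autoImplicit false

/-!
Bilinear exponential sums over arbitrary separated sets of real numbers, and record prime-free
neighbourhoods of `T x y / Z² + f x + g y`, `x ∈ X`, `y ∈ Y`.
-/

namespace Pool.Agent.Y565.RG

open Finset Filter
open Pool.Agent.H469R2.NK (e norm_e e_add conj_e harm_le)
open Pool.Agent.W147.PS (ff ff_compare ev_pow)
open Pool.Agent.TH915.PW (kernel_small e_sub)

lemma geom_half (n : ℕ) (y : ℝ) (hy : y ≠ 0) (hy2 : |y| ≤ 1 / 2) :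
    ‖∑ j ∈ range n, e (j * y)‖ ≤ 2 / |y| := by
  have h0 : 0 < |y| := abs_pos.mpr hy
  have h3 : ‖∑ j ∈ range n, e (j * y)‖ ^ 2 ≤ 4 / |y| ^ 2 := by
    rcases lt_or_gt_of_ne hy with h | h
    · have e1 : Int.fract y = y + 1 := by
        rw [Int.fract_eq_iff]
        rw [abs_of_neg h] at hy2
        exact ⟨by linarith, by linarith, -1, by push_cast; ring⟩
      refine kernel_small n y |y| h0 ?_ ?_
      · rw [e1, abs_of_neg h]
        rw [abs_of_neg h] at hy2
        linarith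
      · rw [e1, abs_of_neg h]
        linarith
    · have e1 : Int.fract y = y := by
        rw [Int.fract_eq_iff]
        rw [abs_of_pos h] at hy2
        exact ⟨h.le, by linarith, 0, by push_cast; ring⟩
      refine kernel_small n y |y| h0 ?_ ?_
      · rw [e1, abs_of_pos h]
      · rw [e1, abs_of_pos h]
        rw [abs_of_pos h] at hy2
        linarith
  have h4 : 4 / |y| ^ 2 = (2 / |y|) ^ 2 := by rw [div_pow]; norm_num
  rw [h4] at h3
  exact (pow_le_pow_iff_left₀ (norm_nonneg _) (by positivity) (by norm_num)).mp h3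

/-- a harmonic sum over well spaced numbers -/
lemma harm_sep (S : Finset ℝ) (t : ℝ → ℝ) (Z : ℝ) (hZ : 0 ≤ Z) (h1 : ∀ s ∈ S, 1 ≤ t s)
    (h2 : ∀ s ∈ S, t s ≤ Z) (h3 : ∀ s ∈ S, ∀ s' ∈ S, s ≠ s' → 1 ≤ |t s - t s'|) :
    ∑ s ∈ S, 1 / t s ≤ 1 + Real.log (Z + 1) := by
  classical
  have hinj : Set.InjOn (fun s => ⌊t s⌋₊) (S : Set ℝ) := by
    intro s hs s' hs' h
    by_contra hne
    have h4 := h3 s hs s' hs' hne
    have a1 := Nat.floor_le (show 0 ≤ t s by linarith [h1 s hs])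
    have a2 := Nat.lt_floor_add_one (t s)
    have b1 := Nat.floor_le (show 0 ≤ t s' by linarith [h1 s' hs'])
    have b2 := Nat.lt_floor_add_one (t s')
    simp only at h
    rw [h] at a1 a2
    have h5 : |t s - t s'| < 1 := by
      rw [abs_lt]
      constructor <;> linarith
    linarith
  have hH : 1 ≤ ⌊Z⌋₊ + 1 := by omega
  calc ∑ s ∈ S, 1 / t s ≤ ∑ s ∈ S, (1 : ℝ) / (⌊t s⌋₊ : ℕ) := by
        apply sum_le_sum
        intro s hs
        have a1 := Nat.floor_le (show 0 ≤ t s by linarith [h1 s hs])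
        have a3 : 1 ≤ ⌊t s⌋₊ := Nat.le_floor (by exact_mod_cast h1 s hs)
        have a4 : (0 : ℝ) < (⌊t s⌋₊ : ℕ) := by exact_mod_cast a3
        exact one_div_le_one_div_of_le a4 a1
    _ = ∑ l ∈ S.image (fun s => ⌊t s⌋₊), (1 : ℝ) / l := by
        rw [sum_image (fun s hs s' hs' h => hinj hs hs' h)]
    _ ≤ ∑ l ∈ Ico 1 (⌊Z⌋₊ + 1), (1 : ℝ) / l := by
        apply sum_le_sum_of_subset_of_nonneg
        · intro l hl
          obtain ⟨s, hs, rfl⟩ := mem_image.mp hl
          rw [Finset.mem_Ico]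
          exact ⟨Nat.le_floor (by exact_mod_cast h1 s hs),
            Nat.lt_succ_of_le (Nat.floor_le_floor (h2 s hs))⟩
        · intro l _ _
          positivity
    _ ≤ 1 + Real.log ((⌊Z⌋₊ + 1 : ℕ) : ℝ) := harm_le _
    _ ≤ 1 + Real.log (Z + 1) := by
        have b1 := Nat.floor_le hZ
        have b2 : (0 : ℝ) < ((⌊Z⌋₊ + 1 : ℕ) : ℝ) := by positivity
        have := Real.log_le_log b2 (show (((⌊Z⌋₊ + 1 : ℕ) : ℝ)) ≤ Z + 1 by push_cast; linarith)
        linarith

lemma harm_sep_two (Y : Finset ℝ) (Z : ℝ) (hZ : 0 ≤ Z) (hY0 : ∀ y ∈ Y, 0 ≤ y ∧ y ≤ Z)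
    (hY : ∀ y ∈ Y, ∀ y' ∈ Y, y ≠ y' → 1 ≤ |y - y'|) (y : ℝ) (hy : y ∈ Y) :
    ∑ y' ∈ Y.erase y, 1 / |y - y'| ≤ 2 * (1 + Real.log (Z + 1)) := by
  classical
  rw [← sum_filter_add_sum_filter_not (Y.erase y) (fun y' => y' < y)]
  have h1 : ∑ y' ∈ (Y.erase y).filter (fun y' => y' < y), 1 / |y - y'| ≤
      1 + Real.log (Z + 1) := by
    apply harm_sep _ (fun y' => |y - y'|) Z hZ
    · intro s hs
      rw [mem_filter, mem_erase] at hs
      exact hY y hy s hs.1.2 (Ne.symm hs.1.1)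
    · intro s hs
      rw [mem_filter, mem_erase] at hs
      have a := hY0 y hy
      have b := hY0 s hs.1.2
      rw [abs_le]
      constructor <;> linarith
    · intro s hs s' hs' hne
      rw [mem_filter, mem_erase] at hs hs'
      have e1 : |y - s| = y - s := abs_of_pos (by linarith [hs.2])
      have e2 : |y - s'| = y - s' := abs_of_pos (by linarith [hs'.2])
      have h5 := hY s hs.1.2 s' hs'.1.2 hne
      have e3 : y - s - (y - s') = -(s - s') := by ring
      rw [e1, e2, e3, abs_neg]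
      exact h5
  have h2 : ∑ y' ∈ (Y.erase y).filter (fun y' => ¬ y' < y), 1 / |y - y'| ≤
      1 + Real.log (Z + 1) := by
    apply harm_sep _ (fun y' => |y - y'|) Z hZ
    · intro s hs
      rw [mem_filter, mem_erase] at hs
      exact hY y hy s hs.1.2 (Ne.symm hs.1.1)
    · intro s hs
      rw [mem_filter, mem_erase] at hs
      have a := hY0 y hy
      have b := hY0 s hs.1.2
      rw [abs_le]
      constructor <;> linarith
    · intro s hs s' hs' hne
      rw [mem_filter, mem_erase] at hs hs'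
      have e1 : |y - s| = -(y - s) := abs_of_nonpos (by linarith [not_lt.mp hs.2])
      have e2 : |y - s'| = -(y - s') := abs_of_nonpos (by linarith [not_lt.mp hs'.2])
      have h5 := hY s hs.1.2 s' hs'.1.2 hne
      have e3 : -(y - s) - -(y - s') = s - s' := by ring
      rw [e1, e2, e3]
      exact h5
  linarith

/-- the mean square over the integers of an exponential sum with separated frequencies -/
lemma mean_sep (Y : Finset ℝ) (Z : ℝ) (hZ : 0 < Z) (hY0 : ∀ y ∈ Y, 0 ≤ y ∧ y ≤ Z)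
    (hY : ∀ y ∈ Y, ∀ y' ∈ Y, y ≠ y' → 1 ≤ |y - y'|) (c : ℝ) (hc : c ≠ 0) (hcZ : |c| * Z ≤ 1 / 2)
    (w : ℝ → ℂ) (hw : ∀ y, ‖w y‖ ≤ 1) (N : ℕ) :
    ∑ n ∈ range N, ‖∑ y ∈ Y, w y * e (n * (c * y))‖ ^ 2 ≤
      Y.card * (N + 4 / |c| * (1 + Real.log (Z + 1))) := by
  classical
  have hc0 : 0 < |c| := abs_pos.mpr hc
  have key : (((∑ n ∈ range N, ‖∑ y ∈ Y, w y * e (n * (c * y))‖ ^ 2 : ℝ)) : ℂ) =
      ∑ y ∈ Y, ∑ y' ∈ Y, w y * (starRingEnd ℂ) (w y') * ∑ n ∈ range N, e (n * (c * (y - y'))) := by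
    push_cast
    have h1 : ∀ n : ℕ, ((‖∑ y ∈ Y, w y * e (n * (c * y))‖ : ℂ)) ^ 2 =
        ∑ y ∈ Y, ∑ y' ∈ Y, w y * (starRingEnd ℂ) (w y') * e (n * (c * (y - y'))) := by
      intro n
      rw [← Complex.mul_conj', map_sum, sum_mul_sum]
      refine sum_congr rfl fun y _ => sum_congr rfl fun y' _ => ?_
      rw [map_mul, show (n : ℝ) * (c * (y - y')) = n * (c * y) - n * (c * y') by ring, e_sub]
      ring
    rw [sum_congr rfl fun n _ => h1 n, sum_comm]
    refine sum_congr rfl fun y _ => ?_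
    rw [sum_comm]
    refine sum_congr rfl fun y' _ => ?_
    rw [mul_sum]
  have h2 : (∑ n ∈ range N, ‖∑ y ∈ Y, w y * e (n * (c * y))‖ ^ 2 : ℝ) ≤
      ∑ y ∈ Y, ∑ y' ∈ Y, ‖∑ n ∈ range N, e (n * (c * (y - y')))‖ := by
    have h3 : ‖(((∑ n ∈ range N, ‖∑ y ∈ Y, w y * e (n * (c * y))‖ ^ 2 : ℝ)) : ℂ)‖ =
        ∑ n ∈ range N, ‖∑ y ∈ Y, w y * e (n * (c * y))‖ ^ 2 := by
      rw [Complex.norm_real, Real.norm_of_nonneg (by positivity)]
    rw [← h3, key]
    refine (norm_sum_le _ _).trans (sum_le_sum fun y _ => ?_)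
    refine (norm_sum_le _ _).trans (sum_le_sum fun y' _ => ?_)
    rw [norm_mul, norm_mul, RCLike.norm_conj]
    calc ‖w y‖ * ‖w y'‖ * ‖∑ n ∈ range N, e (n * (c * (y - y')))‖ ≤
        1 * 1 * ‖∑ n ∈ range N, e (n * (c * (y - y')))‖ := by
          gcongr
          · exact hw y
          · exact hw y'
      _ = _ := by ring
  refine h2.trans ?_
  have h4 : ∀ y ∈ Y, ∑ y' ∈ Y, ‖∑ n ∈ range N, e (n * (c * (y - y')))‖ ≤
      N + 4 / |c| * (1 + Real.log (Z + 1)) := by
    intro y hy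
    rw [← add_sum_erase Y _ hy]
    apply add_le_add
    · refine (norm_sum_le _ _).trans ?_
      simp only [norm_e, sum_const, card_range, nsmul_eq_mul, mul_one]
      exact le_rfl
    · calc ∑ y' ∈ Y.erase y, ‖∑ n ∈ range N, e (n * (c * (y - y')))‖ ≤
          ∑ y' ∈ Y.erase y, 2 / |c| * (1 / |y - y'|) := by
            apply sum_le_sum
            intro y' hy'
            rw [mem_erase] at hy'
            have a := hY0 y hy
            have b := hY0 y' hy'.2
            have h5 : |y - y'| ≤ Z := by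
              rw [abs_le]
              constructor <;> linarith
            have h6 : c * (y - y') ≠ 0 := mul_ne_zero hc (sub_ne_zero.mpr (Ne.symm hy'.1))
            have h7 : |c * (y - y')| ≤ 1 / 2 := by
              rw [abs_mul]
              exact (mul_le_mul_of_nonneg_left h5 hc0.le).trans hcZ
            refine (geom_half N _ h6 h7).trans (le_of_eq ?_)
            rw [abs_mul]
            field_simp
        _ = 2 / |c| * ∑ y' ∈ Y.erase y, 1 / |y - y'| := by rw [mul_sum]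
        _ ≤ 2 / |c| * (2 * (1 + Real.log (Z + 1))) := by
            gcongr
            exact harm_sep_two Y Z hZ.le hY0 hY y hy
        _ = _ := by ring
  calc ∑ y ∈ Y, ∑ y' ∈ Y, ‖∑ n ∈ range N, e (n * (c * (y - y')))‖ ≤
      ∑ y ∈ Y, ((N : ℝ) + 4 / |c| * (1 + Real.log (Z + 1))) := sum_le_sum h4
    _ = _ := by rw [sum_const, nsmul_eq_mul]

lemma e_close (a b : ℝ) : ‖e a - e b‖ ≤ 2 * Real.pi * |a - b| := by
  have h1 : e a - e b = e b * (e (a - b) - 1) := by
    rw [mul_sub, mul_one, ← e_add]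
    congr 2
    ring
  rw [h1, norm_mul, norm_e, one_mul]
  have h2 : e (a - b) = Complex.exp (Complex.I * ((2 * Real.pi * (a - b) : ℝ) : ℂ)) := by
    unfold e
    congr 1
    ring
  rw [h2]
  refine (Real.norm_exp_I_mul_ofReal_sub_one_le).trans (le_of_eq ?_)
  rw [Real.norm_eq_abs, abs_mul, abs_of_pos (by positivity : (0 : ℝ) < 2 * Real.pi)]

/-- the bilinear sum over separated sets -/
lemma bil_sep (X Y : Finset ℝ) (U V : ℝ) (hU : 0 < U) (hV : 0 < V)
    (hX0 : ∀ x ∈ X, 0 ≤ x ∧ x ≤ U)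
    (hX : ∀ x ∈ X, ∀ x' ∈ X, x ≠ x' → 1 ≤ |x - x'|) (hY0 : ∀ y ∈ Y, 0 ≤ y ∧ y ≤ V)
    (hY : ∀ y ∈ Y, ∀ y' ∈ Y, y ≠ y' → 1 ≤ |y - y'|) (θ δ ρ : ℝ) (hθ : θ ≠ 0) (hδ : 0 < δ)
    (hδ1 : δ ≤ 1) (hρ : |θ| * δ * V ≤ ρ) (hρ2 : ρ ≤ 1 / 2) (u w : ℝ → ℂ) (hu : ∀ x, ‖u x‖ ≤ 1)
    (hw : ∀ y, ‖w y‖ ≤ 1) :
    ‖∑ x ∈ X, ∑ y ∈ Y, u x * w y * e (θ * x * y)‖ ≤ 2 * Real.pi * ρ * (X.card * Y.card) +
      Real.sqrt (X.card * Y.card * (U / δ + 1 + 4 / (|θ| * δ) * (1 + Real.log (V + 1)))) := by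
  classical
  set n : ℝ → ℕ := fun x => ⌊x / δ⌋₊ with hn
  have hθ0 : 0 < |θ| := abs_pos.mpr hθ
  have hnx : ∀ x ∈ X, 0 ≤ x - δ * n x ∧ x - δ * n x ≤ δ := by
    intro x hx
    have a0 : 0 ≤ x / δ := div_nonneg (hX0 x hx).1 hδ.le
    have a1 := Nat.floor_le a0
    have a2 := (Nat.lt_floor_add_one (x / δ)).le
    have e1 : δ * (x / δ) = x := by field_simp
    have b1 := mul_le_mul_of_nonneg_left a1 hδ.le
    have b2 := mul_le_mul_of_nonneg_left a2 hδ.le
    rw [e1] at b1 b2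
    rw [mul_add, mul_one] at b2
    constructor <;> simp only [hn] <;> linarith
  have hinj : Set.InjOn n (X : Set ℝ) := by
    intro x hx x' hx' h
    by_contra hne
    have h4 := hX x hx x' hx' hne
    have a1 : x / δ < ⌊x / δ⌋₊ + 1 := Nat.lt_floor_add_one (x / δ)
    have a2 : x' / δ < ⌊x' / δ⌋₊ + 1 := Nat.lt_floor_add_one (x' / δ)
    have b1 := Nat.floor_le (div_nonneg (hX0 x hx).1 hδ.le)
    have b2 := Nat.floor_le (div_nonneg (hX0 x' hx').1 hδ.le)
    simp only [hn] at h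
    rw [h] at a1 b1
    have h5 : |x / δ - x' / δ| < 1 := by
      rw [abs_lt]
      constructor <;> linarith
    rw [← sub_div, abs_div, abs_of_pos hδ, div_lt_one hδ] at h5
    linarith
  set G : ℕ → ℂ := fun m => ∑ y ∈ Y, w y * e (m * ((θ * δ) * y)) with hG
  have hdiff : ‖(∑ x ∈ X, ∑ y ∈ Y, u x * w y * e (θ * x * y)) - ∑ x ∈ X, u x * G (n x)‖ ≤
      2 * Real.pi * ρ * (X.card * Y.card) := by
    rw [← sum_sub_distrib]
    calc ‖∑ x ∈ X, ((∑ y ∈ Y, u x * w y * e (θ * x * y)) - u x * G (n x))‖ ≤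
        ∑ x ∈ X, ∑ y ∈ Y, 2 * Real.pi * ρ := by
          refine (norm_sum_le _ _).trans (sum_le_sum fun x hx => ?_)
          rw [hG, mul_sum, ← sum_sub_distrib]
          refine (norm_sum_le _ _).trans (sum_le_sum fun y hy => ?_)
          have e1 : u x * w y * e (θ * x * y) - u x * (w y * e ((n x : ℝ) * (θ * δ * y))) =
              u x * w y * (e (θ * x * y) - e ((n x : ℝ) * (θ * δ * y))) := by ring
          rw [e1, norm_mul, norm_mul]
          have h1 := e_close (θ * x * y) ((n x : ℝ) * (θ * δ * y))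
          have e2 : θ * x * y - (n x : ℝ) * (θ * δ * y) = θ * (x - δ * n x) * y := by ring
          rw [e2, abs_mul, abs_mul] at h1
          have h2 := hnx x hx
          have h3 := hY0 y hy
          rw [abs_of_nonneg h2.1, abs_of_nonneg h3.1] at h1
          have h4 : |θ| * (x - δ * n x) * y ≤ ρ := by
            refine le_trans ?_ hρ
            exact mul_le_mul (mul_le_mul_of_nonneg_left h2.2 hθ0.le) h3.2 h3.1 (by positivity)
          have h5 : 2 * Real.pi * (|θ| * (x - δ * n x) * y) ≤ 2 * Real.pi * ρ := by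
            apply mul_le_mul_of_nonneg_left h4 (by positivity)
          calc ‖u x‖ * ‖w y‖ * ‖e (θ * x * y) - e ((n x : ℝ) * (θ * δ * y))‖ ≤
              1 * 1 * (2 * Real.pi * ρ) := by
                refine mul_le_mul (mul_le_mul (hu x) (hw y) (norm_nonneg _) zero_le_one)
                  (h1.trans h5) (norm_nonneg _) (by norm_num)
            _ = _ := by ring
      _ = _ := by
          rw [sum_const, sum_const, nsmul_eq_mul, nsmul_eq_mul]
          ring
  have hmain : ‖∑ x ∈ X, u x * G (n x)‖ ≤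
      Real.sqrt (X.card * Y.card * (U / δ + 1 + 4 / (|θ| * δ) * (1 + Real.log (V + 1)))) := by
    apply Real.le_sqrt_of_sq_le
    have h1 : ‖∑ x ∈ X, u x * G (n x)‖ ≤ ∑ x ∈ X, 1 * ‖G (n x)‖ := by
      refine (norm_sum_le _ _).trans (sum_le_sum fun x _ => ?_)
      rw [norm_mul]
      exact mul_le_mul_of_nonneg_right (hu x) (norm_nonneg _)
    have h2 := Finset.sum_mul_sq_le_sq_mul_sq X (fun _ => (1 : ℝ)) (fun x => ‖G (n x)‖)
    have hlog : 0 ≤ 1 + Real.log (V + 1) := by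
      have := Real.log_nonneg (show (1 : ℝ) ≤ V + 1 by linarith)
      linarith
    calc ‖∑ x ∈ X, u x * G (n x)‖ ^ 2 ≤ (∑ x ∈ X, 1 * ‖G (n x)‖) ^ 2 :=
          pow_le_pow_left₀ (norm_nonneg _) h1 2
      _ ≤ (∑ x ∈ X, (1 : ℝ) ^ 2) * ∑ x ∈ X, ‖G (n x)‖ ^ 2 := h2
      _ = X.card * ∑ m ∈ X.image n, ‖G m‖ ^ 2 := by
          rw [sum_image (fun s hs s' hs' h => hinj hs hs' h)]
          simp
      _ ≤ X.card * ∑ m ∈ range (⌊U / δ⌋₊ + 1), ‖G m‖ ^ 2 := by
          apply mul_le_mul_of_nonneg_left _ (Nat.cast_nonneg _)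
          apply sum_le_sum_of_subset_of_nonneg
          · intro m hm
            obtain ⟨x, hx, rfl⟩ := mem_image.mp hm
            rw [Finset.mem_range]
            exact Nat.lt_succ_of_le (Nat.floor_le_floor
              (div_le_div_of_nonneg_right (hX0 x hx).2 hδ.le))
          · intro m _ _
            positivity
      _ ≤ X.card * (Y.card * (((⌊U / δ⌋₊ + 1 : ℕ) : ℝ) +
            4 / |θ * δ| * (1 + Real.log (V + 1)))) := by
          apply mul_le_mul_of_nonneg_left _ (Nat.cast_nonneg _)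
          refine mean_sep Y V hV hY0 hY (θ * δ) (mul_ne_zero hθ hδ.ne') ?_ w hw _
          rw [abs_mul, abs_of_pos hδ]
          linarith
      _ ≤ X.card * (Y.card * (U / δ + 1 + 4 / (|θ| * δ) * (1 + Real.log (V + 1)))) := by
          have h3 : (((⌊U / δ⌋₊ + 1 : ℕ) : ℝ)) ≤ U / δ + 1 := by
            push_cast
            have := Nat.floor_le (show 0 ≤ U / δ by positivity)
            linarith
          rw [abs_mul, abs_of_pos hδ]
          gcongr
      _ = _ := by ring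
  calc _ = ‖((∑ x ∈ X, ∑ y ∈ Y, u x * w y * e (θ * x * y)) - ∑ x ∈ X, u x * G (n x)) +
        ∑ x ∈ X, u x * G (n x)‖ := by rw [sub_add_cancel]
    _ ≤ _ := (norm_add_le _ _).trans (add_le_add hdiff hmain)

end Pool.Agent.Y565.RG
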