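import Pool.Agent.Y565.RG.Count
import Pool.Agent.Y565.RG.Gen2
import Pool.Agent.Y565.RG.SepF

set_option autoImplicit false

/-!
Record prime-free neighbourhoods of `T Φ(x / U, y / V) + f x + g y` for separated sets of reals.
-/

namespace Pool.Agent.Y565.RG

open Finset Filter
open Pool.Agent.H469R2.NK (e norm_e e_add)
open Pool.Agent.W147.PS (ff ff_compare ev_pow)

/-- Mixed differences of a function with a mixed derivative. -/
lemma mixed_diff (Φ Φ₁ Φ₁₂ : ℝ → ℝ → ℝ) (c C : ℝ)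
    (h1 : ∀ x ∈ Set.Icc (0 : ℝ) 1, ∀ y ∈ Set.Icc (0 : ℝ) 1,
      HasDerivWithinAt (fun s => Φ s y) (Φ₁ x y) (Set.Icc 0 1) x ∧
      HasDerivWithinAt (fun t => Φ₁ x t) (Φ₁₂ x y) (Set.Icc 0 1) y ∧
      c ≤ |Φ₁₂ x y| ∧ |Φ₁₂ x y| ≤ C) :
    ∀ x ∈ Set.Icc (0 : ℝ) 1, ∀ x' ∈ Set.Icc (0 : ℝ) 1, ∀ y ∈ Set.Icc (0 : ℝ) 1,
      ∀ y' ∈ Set.Icc (0 : ℝ) 1,
      c * (|x - x'| * |y - y'|) ≤ |(Φ x y - Φ x y') - (Φ x' y - Φ x' y')| ∧
      |(Φ x y - Φ x y') - (Φ x' y - Φ x' y')| ≤ C * (|x - x'| * |y - y'|) := by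
  -- the mean value theorem in each variable
  have mvt : ∀ (u u' : ℝ → ℝ), (∀ s ∈ Set.Icc (0 : ℝ) 1,
      HasDerivWithinAt u (u' s) (Set.Icc 0 1) s) → ∀ a ∈ Set.Icc (0 : ℝ) 1,
      ∀ b ∈ Set.Icc (0 : ℝ) 1, ∃ ξ ∈ Set.Icc (0 : ℝ) 1, u a - u b = (a - b) * u' ξ := by
    intro u u' hu
    have key : ∀ a ∈ Set.Icc (0 : ℝ) 1, ∀ b ∈ Set.Icc (0 : ℝ) 1, a < b →
        ∃ ξ ∈ Set.Icc (0 : ℝ) 1, u a - u b = (a - b) * u' ξ := by
      intro a ha b hb hab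
      have hsub : Set.Icc a b ⊆ Set.Icc (0 : ℝ) 1 := Set.Icc_subset_Icc ha.1 hb.2
      have hcont : ContinuousOn u (Set.Icc a b) := fun s hs =>
        ((hu s (hsub hs)).continuousWithinAt).mono hsub
      obtain ⟨ξ, hξ, hξ2⟩ := exists_hasDerivAt_eq_slope u u' hab hcont (fun s hs =>
        (hu s (hsub (Set.Ioo_subset_Icc_self hs))).hasDerivAt
          (Icc_mem_nhds (lt_of_le_of_lt ha.1 hs.1) (lt_of_lt_of_le hs.2 hb.2)))
      refine ⟨ξ, hsub (Set.Ioo_subset_Icc_self hξ), ?_⟩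
      rw [eq_div_iff (by linarith)] at hξ2
      linarith
    intro a ha b hb
    rcases lt_trichotomy a b with h | h | h
    · exact key a ha b hb h
    · refine ⟨a, ha, ?_⟩
      rw [h]
      ring
    · obtain ⟨ξ, hξ, hξ2⟩ := key b hb a ha h
      exact ⟨ξ, hξ, by linarith⟩
  intro x hx x' hx' y hy y' hy'
  obtain ⟨ξ, hξ, hξ2⟩ := mvt (fun s => Φ s y - Φ s y') (fun s => Φ₁ s y - Φ₁ s y')
    (fun s hs => ((h1 s hs y hy).1).sub ((h1 s hs y' hy').1)) x hx x' hx'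
  obtain ⟨ζ, hζ, hζ2⟩ := mvt (fun t => Φ₁ ξ t) (fun t => Φ₁₂ ξ t)
    (fun t ht => (h1 ξ hξ t ht).2.1) y hy y' hy'
  rw [hξ2, hζ2, abs_mul, abs_mul]
  have h2 := (h1 ξ hξ ζ hζ).2.2
  have h3 : 0 ≤ |x - x'| * |y - y'| := by positivity
  constructor
  · calc c * (|x - x'| * |y - y'|) ≤ |Φ₁₂ ξ ζ| * (|x - x'| * |y - y'|) :=
        mul_le_mul_of_nonneg_right h2.1 h3
      _ = _ := by ring
  · calc |x - x'| * (|y - y'| * |Φ₁₂ ξ ζ|) = |Φ₁₂ ξ ζ| * (|x - x'| * |y - y'|) := by ring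
      _ ≤ _ := mul_le_mul_of_nonneg_right h2.2 h3

lemma mvt_Icc {p q : ℝ} (u u' : ℝ → ℝ) (hu : ∀ s ∈ Set.Icc p q,
      HasDerivWithinAt u (u' s) (Set.Icc p q) s) (a : ℝ) (ha : a ∈ Set.Icc p q)
      (b : ℝ) (hb : b ∈ Set.Icc p q) : ∃ ξ ∈ Set.Icc p q, u a - u b = (a - b) * u' ξ := by
  have key : ∀ a ∈ Set.Icc p q, ∀ b ∈ Set.Icc p q, a < b →
      ∃ ξ ∈ Set.Icc p q, u a - u b = (a - b) * u' ξ := by
    intro a ha b hb hab
    have hsub : Set.Icc a b ⊆ Set.Icc p q := Set.Icc_subset_Icc ha.1 hb.2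
    have hcont : ContinuousOn u (Set.Icc a b) := fun s hs =>
      ((hu s (hsub hs)).continuousWithinAt).mono hsub
    obtain ⟨ξ, hξ, hξ2⟩ := exists_hasDerivAt_eq_slope u u' hab hcont (fun s hs =>
      (hu s (hsub (Set.Ioo_subset_Icc_self hs))).hasDerivAt
        (Icc_mem_nhds (lt_of_le_of_lt ha.1 hs.1) (lt_of_lt_of_le hs.2 hb.2)))
    refine ⟨ξ, hsub (Set.Ioo_subset_Icc_self hξ), ?_⟩
    rw [eq_div_iff (by linarith)] at hξ2
    linarith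
  rcases lt_trichotomy a b with h | h | h
  · exact key a ha b hb h
  · refine ⟨a, ha, ?_⟩
    rw [h]
    ring
  · obtain ⟨ξ, hξ, hξ2⟩ := key b hb a ha h
    exact ⟨ξ, hξ, by linarith⟩

/-- second differences -/
lemma mixed_diff2 (Φ Φ₁ Φ₁₂ : ℝ → ℝ → ℝ) (C : ℝ)
    (h1 : ∀ x ∈ Set.Icc (0 : ℝ) 1, ∀ y ∈ Set.Icc (0 : ℝ) 1,
      HasDerivWithinAt (fun s => Φ s y) (Φ₁ x y) (Set.Icc 0 1) x ∧
      HasDerivWithinAt (fun t => Φ₁ x t) (Φ₁₂ x y) (Set.Icc 0 1) y)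
    (h2 : ∀ x ∈ Set.Icc (0 : ℝ) 1, ∀ x' ∈ Set.Icc (0 : ℝ) 1, ∀ y ∈ Set.Icc (0 : ℝ) 1,
      |Φ₁₂ x y - Φ₁₂ x' y| ≤ C * |x - x'|) :
    ∀ x h : ℝ, 0 ≤ x → 0 ≤ h → x + 2 * h ≤ 1 → ∀ y ∈ Set.Icc (0 : ℝ) 1,
      ∀ y' ∈ Set.Icc (0 : ℝ) 1,
      |((Φ (x + 2 * h) y - Φ (x + 2 * h) y') - (Φ (x + h) y - Φ (x + h) y')) -
        ((Φ (x + h) y - Φ (x + h) y') - (Φ x y - Φ x y'))| ≤ C * (h ^ 2 * |y - y'|) := by
  intro x h hx hh hxh y hy y' hy'
  -- the function of `s` whose difference is the second difference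
  set W : ℝ → ℝ := fun s => (Φ (s + h) y - Φ (s + h) y') - (Φ s y - Φ s y') with hW
  have hsub : Set.Icc x (x + h) ⊆ Set.Icc (0 : ℝ) 1 :=
    Set.Icc_subset_Icc hx (by linarith)
  have hmaps : ∀ s ∈ Set.Icc x (x + h), s + h ∈ Set.Icc (0 : ℝ) 1 := fun s hs =>
    ⟨by linarith [hs.1], by linarith [hs.2]⟩
  have hder : ∀ s ∈ Set.Icc x (x + h), HasDerivWithinAt W
      ((Φ₁ (s + h) y - Φ₁ (s + h) y') - (Φ₁ s y - Φ₁ s y')) (Set.Icc x (x + h)) s := by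
    intro s hs
    have a : ∀ z ∈ Set.Icc (0 : ℝ) 1, HasDerivWithinAt (fun s => Φ (s + h) z) (Φ₁ (s + h) z)
        (Set.Icc x (x + h)) s := by
      intro z hz
      have b := (h1 (s + h) (hmaps s hs) z hz).1
      have b2 : HasDerivWithinAt (fun s : ℝ => s + h) 1 (Set.Icc x (x + h)) s :=
        (hasDerivWithinAt_id s _).add_const h
      have b3 := HasDerivWithinAt.comp s b b2 hmaps
      rw [mul_one] at b3
      exact b3
    exact ((a y hy).sub (a y' hy')).sub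
      ((((h1 s (hsub hs) y hy).1).mono hsub).sub (((h1 s (hsub hs) y' hy').1).mono hsub))
  obtain ⟨ξ, hξ, hξ2⟩ := mvt_Icc W _ hder (x + h) ⟨by linarith, le_rfl⟩ x ⟨le_rfl, by linarith⟩
  have e1 : x + h + h = x + 2 * h := by ring
  have e2 : ((Φ (x + 2 * h) y - Φ (x + 2 * h) y') - (Φ (x + h) y - Φ (x + h) y')) -
        ((Φ (x + h) y - Φ (x + h) y') - (Φ x y - Φ x y')) = W (x + h) - W x := by
    simp only [hW]
    rw [e1]
  rw [e2, hξ2]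
  have e3 : x + h - x = h := by ring
  rw [e3, abs_mul, abs_of_nonneg hh]
  -- the mean value theorem in the second variable
  obtain ⟨ζ, hζ, hζ2⟩ := mvt_Icc (p := 0) (q := 1) (fun t => Φ₁ (ξ + h) t - Φ₁ ξ t)
    (fun t => Φ₁₂ (ξ + h) t - Φ₁₂ ξ t)
    (fun t ht => ((h1 (ξ + h) (hmaps ξ hξ) t ht).2).sub ((h1 ξ (hsub hξ) t ht).2)) y hy y' hy'
  have e4 : (Φ₁ (ξ + h) y - Φ₁ (ξ + h) y') - (Φ₁ ξ y - Φ₁ ξ y') =
      (y - y') * (Φ₁₂ (ξ + h) ζ - Φ₁₂ ξ ζ) := by linarith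
  rw [e4, abs_mul]
  have h5 := h2 (ξ + h) (hmaps ξ hξ) ξ (hsub hξ) ζ hζ
  have e5 : |ξ + h - ξ| = h := by
    have : ξ + h - ξ = h := by ring
    rw [this, abs_of_nonneg hh]
  rw [e5] at h5
  calc h * (|y - y'| * |Φ₁₂ (ξ + h) ζ - Φ₁₂ ξ ζ|) ≤ h * (|y - y'| * (C * h)) := by gcongr
    _ = _ := by ring

/-- The exponential sum bound at scale `Z`. -/
lemma gen_bound (ε : ℝ) (hε : 0 < ε) (η : ℝ) (hη : η = ε / 64) (c C : ℝ) (hc : 0 < c)
    (hC : 1 ≤ C) :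
    ∀ᶠ Z : ℝ in atTop, ∀ (Φ Φ₁ Φ₁₂ : ℝ → ℝ → ℝ),
      (∀ x ∈ Set.Icc (0 : ℝ) 1, ∀ y ∈ Set.Icc (0 : ℝ) 1,
        HasDerivWithinAt (fun s => Φ s y) (Φ₁ x y) (Set.Icc 0 1) x ∧
        HasDerivWithinAt (fun t => Φ₁ x t) (Φ₁₂ x y) (Set.Icc 0 1) y ∧
        c ≤ |Φ₁₂ x y| ∧ |Φ₁₂ x y| ≤ C) →
      (∀ x ∈ Set.Icc (0 : ℝ) 1, ∀ x' ∈ Set.Icc (0 : ℝ) 1, ∀ y ∈ Set.Icc (0 : ℝ) 1,
        |Φ₁₂ x y - Φ₁₂ x' y| ≤ C * |x - x'|) →
      ∀ (θ U V : ℝ) (X Y : Finset ℝ) (u w : ℝ → ℂ),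
      Z ^ ε ≤ U → Z ^ ε ≤ V → V ≤ Z →
      Z ^ (ε - η) ≤ |θ| → |θ| ≤ U * V * Z ^ (4 * η - ε) →
      (∀ x ∈ X, 0 ≤ x ∧ x ≤ U) → (∀ x ∈ X, ∀ x' ∈ X, x ≠ x' → 1 ≤ |x - x'|) →
      (∀ y ∈ Y, 0 ≤ y ∧ y ≤ V) → (∀ y ∈ Y, ∀ y' ∈ Y, y ≠ y' → 1 ≤ |y - y'|) →
      U * V * Z ^ (-(ε / 2)) ≤ (X.card : ℝ) * Y.card →
      (∀ x, ‖u x‖ ≤ 1) → (∀ y, ‖w y‖ ≤ 1) →
      ‖∑ x ∈ X, ∑ y ∈ Y, u x * w y * e (θ * Φ (x / U) (y / V))‖ ≤
        (X.card : ℝ) * Y.card * Z ^ (-(4 * η)) / 8 := by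
  have hη0 : 0 < η := by rw [hη]; positivity
  have hC0 : 0 < C := by linarith
  set K : ℝ := (1 + C) + 1 + 2 / c * (1 + C) * (1 + C / (2 * c)) with hK
  have hK0 : 0 < K := by positivity
  filter_upwards [eventually_ge_atTop (2 : ℝ), ev_log η hη0,
    ev_pow (-(5 * η)) (-(4 * η)) (32 * 4) (by linarith),
    ev_pow (-(5 * η)) 0 2 (by linarith),
    ev_pow (18 * η - ε) (-(ε / 2)) (256 * K) (by linarith)] with Z hZ2 hlog hp1 hp2 hp3
  intro Φ Φ₁ Φ₁₂ hΦ1 hΦ2 θ U V X Y u w hU hV hVZ hθ1 hθ2 hX0 hX hY0 hY hN hu hw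
  rw [Real.rpow_zero] at hp2
  have hZ0 : 0 < Z := by linarith
  have hZ1 : 1 ≤ Z := by linarith
  have hE : ∀ a b : ℝ, a ≤ b → Z ^ a ≤ Z ^ b := fun a b h =>
    Real.rpow_le_rpow_of_exponent_le hZ1 h
  have hZε : 1 ≤ Z ^ ε := by
    calc (1 : ℝ) = Z ^ (0 : ℝ) := (Real.rpow_zero Z).symm
      _ ≤ _ := hE _ _ hε.le
  have hU1 : 1 ≤ U := hZε.trans hU
  have hU0 : 0 < U := by linarith
  have hV0 : 0 < V := lt_of_lt_of_le (by positivity) hV
  set P : ℝ := U * V with hP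
  have hP0 : 0 < P := by positivity
  have hθ0 : 0 < |θ| := lt_of_lt_of_le (by positivity) hθ1
  set A : ℝ := |θ| / P with hA
  have hA0 : 0 < A := by positivity
  have hAP : A * P = |θ| := by rw [hA]; field_simp
  have hA2 : A ≤ Z ^ (4 * η - ε) := by
    rw [hA, div_le_iff₀ hP0]
    linarith
  set ρ : ℝ := Z ^ (-(5 * η)) with hρ
  have hρ0 : 0 < ρ := by positivity
  set δ : ℝ := min 1 (ρ / (C * A * V)) with hδ
  have hδ0 : 0 < δ := lt_min one_pos (by positivity)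
  have hδ1 : δ ≤ 1 := min_le_left _ _
  have hδ2 : δ ≤ ρ / (C * A * V) := min_le_right _ _
  have hρδ : C * A * δ * V ≤ ρ := by
    rw [le_div_iff₀ (by positivity)] at hδ2
    linarith
  have hd1 := mixed_diff Φ Φ₁ Φ₁₂ c C hΦ1
  have hd2 := mixed_diff2 Φ Φ₁ Φ₁₂ C (fun x hx y hy => ⟨(hΦ1 x hx y hy).1, (hΦ1 x hx y hy).2.1⟩) hΦ2
  have hmemU : ∀ x : ℝ, 0 ≤ x → x ≤ U → x / U ∈ Set.Icc (0 : ℝ) 1 := fun x h0 h1 =>
    ⟨by positivity, by rw [div_le_one hU0]; exact h1⟩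
  have hmemV : ∀ x : ℝ, 0 ≤ x → x ≤ V → x / V ∈ Set.Icc (0 : ℝ) 1 := fun x h0 h1 =>
    ⟨by positivity, by rw [div_le_one hV0]; exact h1⟩
  have hbil := bil_gen X Y U V hU1 hV0 hX0 hX hY0 hY (fun x y => θ * Φ (x / U) (y / V))
    (c * A) (C * A) (C * A / U) (by positivity) (by positivity) (by positivity)
    (by
      intro x x' y y' a1 a2 a3 a4 a5 a6 a7 a8
      have h := hd1 (x / U) (hmemU x a1 a2) (x' / U) (hmemU x' a3 a4) (y / V) (hmemV y a5 a6)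
        (y' / V) (hmemV y' a7 a8)
      have e1 : (θ * Φ (x / U) (y / V) - θ * Φ (x / U) (y' / V)) -
          (θ * Φ (x' / U) (y / V) - θ * Φ (x' / U) (y' / V)) =
          θ * ((Φ (x / U) (y / V) - Φ (x / U) (y' / V)) -
            (Φ (x' / U) (y / V) - Φ (x' / U) (y' / V))) := by ring
      rw [e1, abs_mul]
      have e2 : |x / U - x' / U| = |x - x'| / U := by
        rw [← sub_div, abs_div, abs_of_pos hU0]
      have e3 : |y / V - y' / V| = |y - y'| / V := by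
        rw [← sub_div, abs_div, abs_of_pos hV0]
      rw [e2, e3] at h
      have e4 : ∀ k : ℝ, k * A * (|x - x'| * |y - y'|) =
          |θ| * (k * (|x - x'| / U * (|y - y'| / V))) := by
        intro k
        rw [hA, hP]
        field_simp
      rw [e4, e4]
      exact ⟨mul_le_mul_of_nonneg_left h.1 hθ0.le, mul_le_mul_of_nonneg_left h.2 hθ0.le⟩)
    (by
      intro x h y y' a1 a2 a3 a5 a6 a7 a8
      have hh := hd2 (x / U) (h / U) (by positivity) (by positivity) (by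
        have : x / U + 2 * (h / U) = (x + 2 * h) / U := by ring
        rw [this, div_le_one hU0]
        exact a3) (y / V) (hmemV y a5 a6) (y' / V) (hmemV y' a7 a8)
      have e0 : x / U + 2 * (h / U) = (x + 2 * h) / U := by ring
      have e0' : x / U + h / U = (x + h) / U := by ring
      rw [e0, e0'] at hh
      have e1 : ((θ * Φ ((x + 2 * h) / U) (y / V) - θ * Φ ((x + 2 * h) / U) (y' / V)) -
            (θ * Φ ((x + h) / U) (y / V) - θ * Φ ((x + h) / U) (y' / V))) -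
          ((θ * Φ ((x + h) / U) (y / V) - θ * Φ ((x + h) / U) (y' / V)) -
            (θ * Φ (x / U) (y / V) - θ * Φ (x / U) (y' / V))) =
          θ * (((Φ ((x + 2 * h) / U) (y / V) - Φ ((x + 2 * h) / U) (y' / V)) -
            (Φ ((x + h) / U) (y / V) - Φ ((x + h) / U) (y' / V))) -
          ((Φ ((x + h) / U) (y / V) - Φ ((x + h) / U) (y' / V)) -
            (Φ (x / U) (y / V) - Φ (x / U) (y' / V)))) := by ring
      rw [e1, abs_mul]
      have e3 : |y / V - y' / V| = |y - y'| / V := by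
        rw [← sub_div, abs_div, abs_of_pos hV0]
      rw [e3] at hh
      have e4 : C * A / U * (h ^ 2 * |y - y'|) =
          |θ| * (C * ((h / U) ^ 2 * (|y - y'| / V))) := by
        rw [hA, hP]
        field_simp
      rw [e4]
      exact mul_le_mul_of_nonneg_left hh hθ0.le)
    δ ρ hδ0 hδ1 hρδ (by linarith) u w hu hw
  set N : ℝ := (X.card : ℝ) * Y.card with hNdef
  have hNpos : 0 < N := lt_of_lt_of_le (by positivity) hN
  -- 1 / δ
  have hinv : 1 / δ ≤ 1 + C * A * V * Z ^ (5 * η) := by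
    rcases le_total 1 (ρ / (C * A * V)) with h | h
    · rw [hδ, min_eq_left h]
      have : 0 ≤ C * A * V * Z ^ (5 * η) := by positivity
      linarith
    · rw [hδ, min_eq_right h]
      have : 1 / (ρ / (C * A * V)) = C * A * V * Z ^ (5 * η) := by
        rw [one_div_div, hρ, Real.rpow_neg hZ0.le, div_inv_eq_mul]
      rw [this]
      linarith
  set W : ℝ := P * Z ^ (10 * η - ε) with hW
  have hW0 : 0 < W := by positivity
  have hUP : U ≤ P * Z ^ (-ε) := by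
    rw [Real.rpow_neg hZ0.le, ← div_eq_mul_inv, le_div_iff₀ (by positivity), hP]
    gcongr
  have hVP : V ≤ P * Z ^ (-ε) := by
    rw [Real.rpow_neg hZ0.le, ← div_eq_mul_inv, le_div_iff₀ (by positivity), hP, mul_comm U V]
    gcongr
  have hb1 : U / δ ≤ (1 + C) * W := by
    have h1 : U / δ = U * (1 / δ) := by ring
    have h2 : U * (A * V * Z ^ (5 * η)) ≤ W := by
      calc U * (A * V * Z ^ (5 * η)) ≤ U * (Z ^ (4 * η - ε) * V * Z ^ (5 * η)) := by gcongr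
        _ = P * (Z ^ (4 * η - ε) * Z ^ (5 * η)) := by rw [hP]; ring
        _ = P * Z ^ (4 * η - ε + 5 * η) := by rw [Real.rpow_add hZ0]
        _ ≤ W := by
          rw [hW]
          exact mul_le_mul_of_nonneg_left (hE _ _ (by linarith)) hP0.le
    have h4 : U ≤ W := by
      refine hUP.trans ?_
      rw [hW]
      exact mul_le_mul_of_nonneg_left (hE _ _ (by linarith)) hP0.le
    calc U / δ = U * (1 / δ) := h1
      _ ≤ U * (1 + C * A * V * Z ^ (5 * η)) := by gcongr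
      _ = U + C * (U * (A * V * Z ^ (5 * η))) := by ring
      _ ≤ W + C * W := by gcongr
      _ = (1 + C) * W := by ring
  have hb2 : (1 : ℝ) ≤ W := by
    calc (1 : ℝ) = Z ^ (0 : ℝ) := (Real.rpow_zero Z).symm
      _ ≤ Z ^ (ε + ε + (10 * η - ε)) := hE _ _ (by linarith)
      _ = Z ^ ε * Z ^ ε * Z ^ (10 * η - ε) := by rw [Real.rpow_add hZ0, Real.rpow_add hZ0]
      _ ≤ U * V * Z ^ (10 * η - ε) := by gcongr
      _ = W := by rw [hW, hP]
  have hb3 : 1 / (c * A * δ) * (1 + U * (C * A / U) / (2 * (c * A))) *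
      (2 * (1 + Real.log (V + 1))) ≤ 2 / c * (1 + C) * (1 + C / (2 * c)) * W := by
    have e0 : U * (C * A / U) / (2 * (c * A)) = C / (2 * c) := by
      field_simp
    rw [e0]
    have h1 : 1 / (A * δ) ≤ P * Z ^ (η - ε) + C * (V * Z ^ (5 * η)) := by
      have h2 : 1 / A ≤ P * Z ^ (η - ε) := by
        rw [div_le_iff₀ hA0]
        calc (1 : ℝ) = Z ^ (η - ε) * Z ^ (ε - η) := by
              rw [← Real.rpow_add hZ0]
              have : η - ε + (ε - η) = 0 := by ring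
              rw [this, Real.rpow_zero]
          _ ≤ Z ^ (η - ε) * |θ| := by gcongr
          _ = P * Z ^ (η - ε) * A := by rw [← hAP]; ring
      calc 1 / (A * δ) = 1 / A * (1 / δ) := by rw [one_div_mul_one_div]
        _ ≤ 1 / A * (1 + C * A * V * Z ^ (5 * η)) := by gcongr
        _ = 1 / A + C * (V * Z ^ (5 * η)) := by field_simp
        _ ≤ _ := by linarith
    have hl0 : 0 ≤ 1 + Real.log (V + 1) := by
      have := Real.log_nonneg (show (1 : ℝ) ≤ V + 1 by linarith)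
      linarith
    have hl1 : 1 + Real.log (V + 1) ≤ Z ^ η := by
      refine le_trans ?_ hlog
      have := Real.log_le_log (show (0 : ℝ) < V + 1 by linarith)
        (show V + 1 ≤ Z + 1 by linarith)
      linarith
    have h5 : P * Z ^ (η - ε) * Z ^ η ≤ W := by
      rw [mul_assoc, ← Real.rpow_add hZ0, hW]
      exact mul_le_mul_of_nonneg_left (hE _ _ (by linarith)) hP0.le
    have h6 : V * Z ^ (5 * η) * Z ^ η ≤ W := by
      calc V * Z ^ (5 * η) * Z ^ η ≤ (P * Z ^ (-ε)) * Z ^ (5 * η) * Z ^ η := by gcongr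
        _ = P * Z ^ (-ε + 5 * η + η) := by rw [Real.rpow_add hZ0, Real.rpow_add hZ0]; ring
        _ ≤ W := by
          rw [hW]
          exact mul_le_mul_of_nonneg_left (hE _ _ (by linarith)) hP0.le
    have h7 : 1 / (A * δ) * (1 + Real.log (V + 1)) ≤ (1 + C) * W := by
      calc 1 / (A * δ) * (1 + Real.log (V + 1)) ≤
          (P * Z ^ (η - ε) + C * (V * Z ^ (5 * η))) * Z ^ η := by gcongr
        _ = P * Z ^ (η - ε) * Z ^ η + C * (V * Z ^ (5 * η) * Z ^ η) := by ring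
        _ ≤ W + C * W := by gcongr
        _ = (1 + C) * W := by ring
    calc 1 / (c * A * δ) * (1 + C / (2 * c)) * (2 * (1 + Real.log (V + 1))) =
        2 / c * (1 + C / (2 * c)) * (1 / (A * δ) * (1 + Real.log (V + 1))) := by
          have e1 : 1 / (c * A * δ) = 1 / c * (1 / (A * δ)) := by
            rw [one_div_mul_one_div, mul_assoc]
          rw [e1]
          ring
      _ ≤ 2 / c * (1 + C / (2 * c)) * ((1 + C) * W) := by gcongr
      _ = _ := by ring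
  have hB : U / δ + 1 + 1 / (c * A * δ) * (1 + U * (C * A / U) / (2 * (c * A))) *
      (2 * (1 + Real.log (V + 1))) ≤ K * W := by
    rw [hK]
    linarith
  set B : ℝ := U / δ + 1 + 1 / (c * A * δ) * (1 + U * (C * A / U) / (2 * (c * A))) *
      (2 * (1 + Real.log (V + 1))) with hBdef
  have hz4 : 0 < Z ^ (-(4 * η)) := by positivity
  have hmain : N * B ≤ (N * Z ^ (-(4 * η)) / 16) ^ 2 := by
    have h1 : 256 * (K * W) ≤ N * Z ^ (-(8 * η)) := by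
      rw [Real.rpow_neg hZ0.le, ← div_eq_mul_inv, le_div_iff₀ (by positivity)]
      calc 256 * (K * W) * Z ^ (8 * η) = P * (256 * K * (Z ^ (10 * η - ε) * Z ^ (8 * η))) := by
            rw [hW]; ring
        _ = P * (256 * K * Z ^ (18 * η - ε)) := by
            rw [← Real.rpow_add hZ0]
            congr 3
            ring
        _ ≤ P * Z ^ (-(ε / 2)) := by gcongr
        _ ≤ N := hN
    have h5 : Z ^ (-(4 * η)) * Z ^ (-(4 * η)) = Z ^ (-(8 * η)) := by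
      rw [← Real.rpow_add hZ0]
      congr 1
      ring
    calc N * B ≤ N * (K * W) := by gcongr
      _ = N * (256 * (K * W)) / 256 := by ring
      _ ≤ N * (N * Z ^ (-(8 * η))) / 256 := by gcongr
      _ = (N * Z ^ (-(4 * η)) / 16) ^ 2 := by rw [← h5]; ring
  have hsqrt : Real.sqrt (N * B) ≤ N * Z ^ (-(4 * η)) / 16 := by
    rw [Real.sqrt_le_left (by positivity)]
    exact hmain
  have hfirst : 2 * Real.pi * ρ * N ≤ N * Z ^ (-(4 * η)) / 16 := by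
    have hpi : Real.pi ≤ 4 := Real.pi_le_four
    have h1 : Real.pi * ρ ≤ 4 * ρ := by gcongr
    have h2 : 32 * (Real.pi * ρ) ≤ Z ^ (-(4 * η)) := by linarith
    calc 2 * Real.pi * ρ * N = N * (32 * (Real.pi * ρ)) / 16 := by ring
      _ ≤ N * Z ^ (-(4 * η)) / 16 := by gcongr
  calc _ ≤ _ := hbil
    _ ≤ N * Z ^ (-(4 * η)) / 16 + N * Z ^ (-(4 * η)) / 16 := add_le_add hfirst hsqrt
    _ = _ := by ring

/-- the theorem for smooth phases and separated sets of reals -/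
theorem gen_scale (ε : ℝ) (hε : 0 < ε) (hε1 : ε ≤ 1) :
    ∃ κ : ℝ, 0 < κ ∧ ∀ c C : ℝ, 0 < c → 1 ≤ C → ∀ᶠ Z : ℝ in atTop,
      ∀ (Φ Φ₁ Φ₁₂ : ℝ → ℝ → ℝ),
      (∀ x ∈ Set.Icc (0 : ℝ) 1, ∀ y ∈ Set.Icc (0 : ℝ) 1,
        HasDerivWithinAt (fun s => Φ s y) (Φ₁ x y) (Set.Icc 0 1) x ∧
        HasDerivWithinAt (fun t => Φ₁ x t) (Φ₁₂ x y) (Set.Icc 0 1) y ∧
        c ≤ |Φ₁₂ x y| ∧ |Φ₁₂ x y| ≤ C) →
      (∀ x ∈ Set.Icc (0 : ℝ) 1, ∀ x' ∈ Set.Icc (0 : ℝ) 1, ∀ y ∈ Set.Icc (0 : ℝ) 1,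
        |Φ₁₂ x y - Φ₁₂ x' y| ≤ C * |x - x'|) →
      ∀ (T U V : ℝ) (X Y : Finset ℝ) (f g : ℝ → ℝ),
      Z ^ ε ≤ U → Z ^ ε ≤ V → V ≤ Z → Z ^ ε ≤ |T| → |T| ≤ U * V * Z ^ (-ε) →
      (∀ x ∈ X, 0 ≤ x ∧ x ≤ U) → (∀ x ∈ X, ∀ x' ∈ X, x ≠ x' → 1 ≤ |x - x'|) →
      (∀ y ∈ Y, 0 ≤ y ∧ y ≤ V) → (∀ y ∈ Y, ∀ y' ∈ Y, y ≠ y' → 1 ≤ |y - y'|) →
      U * V * Z ^ (-(ε / 2)) ≤ (X.card : ℝ) * Y.card →
      (∀ x ∈ X, ∀ y ∈ Y, Z ^ ε ≤ T * Φ (x / U) (y / V) + f x + g y) →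
      ∃ G : Finset (ℝ × ℝ), (X.card : ℝ) * Y.card * Z ^ (-ε) ≤ G.card ∧
        ∀ p ∈ G, p.1 ∈ X ∧ p.2 ∈ Y ∧ ∀ q : ℕ, q.Prime →
          κ * ff Z < |(q : ℝ) - (T * Φ (p.1 / U) (p.2 / V) + f p.1 + g p.2)| := by
  classical
  obtain ⟨η, hη⟩ : ∃ η : ℝ, η = ε / 64 := ⟨_, rfl⟩
  have hη0 : 0 < η := by rw [hη]; positivity
  obtain ⟨κ, hκ, hcrit⟩ := crit_count η hη0 (by linarith)
  refine ⟨κ, hκ, fun c C hc hC => ?_⟩
  filter_upwards [hcrit, gen_bound ε hε η hη c C hc hC, eventually_ge_atTop (2 : ℝ),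
    ev_pow (-ε) (-(4 * η)) 2 (by linarith)] with Z hcr hbd hZ2 hp4
  intro Φ Φ₁ Φ₁₂ hΦ1 hΦ2 T U V X Y f g hU hV hVZ hT1 hT2 hX0 hX hY0 hY hXY hlow
  have hZ0 : 0 < Z := by linarith
  have hZ1 : 1 ≤ Z := by linarith
  have hU0 : 0 < U := lt_of_lt_of_le (by positivity) hU
  have hV0 : 0 < V := lt_of_lt_of_le (by positivity) hV
  have hXYpos : (0 : ℝ) < (X.card : ℝ) * Y.card := lt_of_lt_of_le (by positivity) hXY
  have hcard : ((X ×ˢ Y).card : ℝ) = (X.card : ℝ) * Y.card := by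
    rw [card_product]
    push_cast
    rfl
  obtain ⟨G, hG1, hG2, hG3⟩ := hcr (ℝ × ℝ) (X ×ˢ Y)
    (fun p => T * Φ (p.1 / U) (p.2 / V) + f p.1 + g p.2) (by
      rw [← Finset.card_pos]
      have : (0 : ℝ) < (X ×ˢ Y).card := by rw [hcard]; exact hXYpos
      exact_mod_cast this) (by
      intro p hp
      rw [Finset.mem_product] at hp
      refine le_trans ?_ (hlow p.1 hp.1 p.2 hp.2)
      exact Real.rpow_le_rpow_of_exponent_le hZ1 (by linarith)) (by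
      intro q h hq hqZ hh hhZ
      have hq1 : (1 : ℝ) ≤ q := by exact_mod_cast hq
      have hh1 : (1 : ℝ) ≤ h := by exact_mod_cast hh
      have hq0 : (0 : ℝ) < q := by linarith
      have hlo : Z ^ (-η) ≤ (h : ℝ) / q := by
        rw [Real.rpow_neg hZ0.le, ← one_div]
        gcongr
      have hhi : (h : ℝ) / q ≤ Z ^ (4 * η) := by
        rw [div_le_iff₀ hq0]
        calc (h : ℝ) ≤ Z ^ (4 * η) * 1 := by linarith
          _ ≤ Z ^ (4 * η) * q := by gcongr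
      have hhq0 : 0 < (h : ℝ) / q := by positivity
      set θ : ℝ := (h : ℝ) / q * T with hθ
      have habs : |θ| = (h : ℝ) / q * |T| := by
        rw [hθ, abs_mul, abs_of_pos hhq0]
      have hb := hbd Φ Φ₁ Φ₁₂ hΦ1 hΦ2 θ U V X Y (fun x => e ((h : ℝ) / q * f x))
        (fun y => e ((h : ℝ) / q * g y)) hU hV hVZ (by
          rw [habs]
          calc Z ^ (ε - η) = Z ^ (-η) * Z ^ ε := by
                rw [← Real.rpow_add hZ0]
                congr 1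
                ring
            _ ≤ (h : ℝ) / q * |T| := by gcongr) (by
          rw [habs]
          calc (h : ℝ) / q * |T| ≤ Z ^ (4 * η) * (U * V * Z ^ (-ε)) := by gcongr
            _ = U * V * (Z ^ (4 * η) * Z ^ (-ε)) := by ring
            _ = U * V * Z ^ (4 * η - ε) := by
                rw [← Real.rpow_add hZ0]
                congr 2) hX0 hX hY0 hY hXY
        (fun x => (norm_e _).le) (fun y => (norm_e _).le)
      have hsum : ∑ p ∈ X ×ˢ Y, e ((h : ℝ) / q * (T * Φ (p.1 / U) (p.2 / V) + f p.1 + g p.2)) =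
          ∑ x ∈ X, ∑ y ∈ Y, e ((h : ℝ) / q * f x) * e ((h : ℝ) / q * g y) *
            e (θ * Φ (x / U) (y / V)) := by
        rw [sum_product]
        refine sum_congr rfl fun x _ => sum_congr rfl fun y _ => ?_
        rw [← e_add, ← e_add]
        congr 1
        rw [hθ]
        ring
      rw [hsum, hcard]
      exact hb)
  refine ⟨G, ?_, ?_⟩
  · rw [hcard] at hG2
    refine le_trans ?_ hG2
    have h6 : (X.card : ℝ) * Y.card * (2 * Z ^ (-ε)) ≤ (X.card : ℝ) * Y.card * Z ^ (-(4 * η)) := by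
      gcongr
    linarith
  · intro p hp
    have h7 := Finset.mem_product.mp (hG1 hp)
    exact ⟨h7.1, h7.2, hG3 p hp⟩

end Pool.Agent.Y565.RG
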