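import Pool.Agent.Y565.RG.SmoothL

set_option autoImplicit false

/-!
Record prime-free neighbourhoods of the values of sums of `t ^ c * P (log t)`, `P` a polynomial.
-/

namespace Pool.Agent.Y565.RG

open Filter Polynomial Topology Asymptotics
open Pool.Agent.W147.PS (ff ff_compare ev_pow)

/-- the polynomials in the derivatives of `t ^ c * P (log t)` -/
noncomputable def QQ (c : ℝ) (P : ℝ[X]) : ℕ → ℝ[X]
  | 0 => P
  | j + 1 => C (c - j) * QQ c P j + derivative (QQ c P j)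

/-- the derivatives -/
noncomputable def Phi {ι : Type} (s : Finset ι) (c : ι → ℝ) (P : ι → ℝ[X]) (j : ℕ) (t : ℝ) : ℝ :=
  ∑ i ∈ s, t ^ (c i - j) * (QQ (c i) (P i) j).eval (Real.log t)

lemma der_one (c : ℝ) (Q : ℝ[X]) (t : ℝ) (ht : 0 < t) :
    HasDerivAt (fun t : ℝ => t ^ c * Q.eval (Real.log t))
      (t ^ (c - 1) * (C c * Q + derivative Q).eval (Real.log t)) t := by
  have h1 : HasDerivAt (fun t : ℝ => t ^ c) (c * t ^ (c - 1)) t :=
    Real.hasDerivAt_rpow_const (Or.inl ht.ne')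
  have h2 : HasDerivAt (fun t : ℝ => Q.eval (Real.log t))
      ((derivative Q).eval (Real.log t) * t⁻¹) t :=
    (Q.hasDerivAt (Real.log t)).comp t (Real.hasDerivAt_log ht.ne')
  refine (h1.fun_mul h2).congr_deriv ?_
  rw [eval_add, eval_mul, eval_C]
  have h4 : t ^ c = t ^ (c - 1) * t := by
    rw [← Real.rpow_add_one ht.ne']
    congr 1
    ring
  rw [h4]
  field_simp

lemma Phi_der {ι : Type} (s : Finset ι) (c : ι → ℝ) (P : ι → ℝ[X]) (j : ℕ) (t : ℝ) (ht : 0 < t) :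
    HasDerivAt (Phi s c P j) (Phi s c P (j + 1) t) t := by
  unfold Phi
  have h := HasDerivAt.fun_sum (u := s) (fun i _ => der_one (c i - j) (QQ (c i) (P i) j) t ht)
  refine h.congr_deriv ?_
  refine Finset.sum_congr rfl fun i _ => ?_
  rw [show c i - ((j + 1 : ℕ) : ℝ) = c i - j - 1 by push_cast; ring]
  rfl

/-- powers of the logarithm -/
lemma poly_log (Q : ℝ[X]) (s : ℝ) (hs : 0 < s) :
    (fun t : ℝ => Q.eval (Real.log t)) =o[atTop] (fun t : ℝ => t ^ s) := by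
  have h1 : (fun t : ℝ => Q.eval (Real.log t)) =
      fun t : ℝ => ∑ n ∈ Finset.range (Q.natDegree + 1), Q.coeff n * Real.log t ^ n := by
    funext t
    rw [eval_eq_sum_range]
  rw [h1]
  apply IsLittleO.fun_sum
  intro n _
  refine IsLittleO.const_mul_left ?_ _
  have h2 := isLittleO_log_rpow_rpow_atTop (n : ℝ) hs
  simpa using h2

lemma lc_step (a : ℝ) (ha : a ≠ 0) (Q : ℝ[X]) (hQ : Q ≠ 0) :
    (C a * Q + derivative Q).leadingCoeff = a * Q.leadingCoeff ∧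
      (C a * Q + derivative Q).natDegree = Q.natDegree := by
  have h1 : degree (derivative Q) < degree (C a * Q) := by
    rw [degree_C_mul ha]
    exact degree_derivative_lt hQ
  constructor
  · rw [add_comm, leadingCoeff_add_of_degree_lt h1, leadingCoeff_mul, leadingCoeff_C]
  · rw [natDegree_eq_of_degree_eq (degree_add_eq_left_of_degree_lt h1), natDegree_C_mul ha]

lemma lc_der (Q : ℝ[X]) (hQ : 1 ≤ Q.natDegree) :
    (derivative Q).leadingCoeff = Q.natDegree * Q.leadingCoeff := by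
  have h1 : (derivative Q).natDegree = Q.natDegree - 1 := natDegree_derivative Q
  rw [leadingCoeff, h1, coeff_derivative, leadingCoeff]
  have h2 : Q.natDegree - 1 + 1 = Q.natDegree := by omega
  rw [h2, ← Nat.cast_add_one, h2]
  ring

/-- eventually bounded below -/
lemma pos_ev (Q : ℝ[X]) (hQ : 0 < Q.leadingCoeff) :
    ∃ κ : ℝ, 0 < κ ∧ ∀ᶠ x : ℝ in atTop, κ ≤ Q.eval x := by
  rcases Nat.eq_zero_or_pos Q.natDegree with h | h
  · refine ⟨Q.leadingCoeff, hQ, Filter.Eventually.of_forall fun x => ?_⟩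
    rw [eq_C_of_natDegree_eq_zero h]
    simp
  · refine ⟨1, one_pos, ?_⟩
    exact (tendsto_atTop_of_leadingCoeff_nonneg Q (natDegree_pos_iff_degree_pos.mp h)
      hQ.le).eventually_ge_atTop 1

/-- the leading term dominates -/
lemma lead {ι : Type} [DecidableEq ι] (s : Finset ι) (c : ι → ℝ) (R : ι → ℝ[X]) (j : ℕ) (i₀ : ι)
    (hi₀ : i₀ ∈ s) (hc : ∀ i ∈ s, i ≠ i₀ → c i < c i₀) (hlc : 0 < (R i₀).leadingCoeff) (ν : ℝ)
    (hν : 0 < ν) : ∃ κ : ℝ, 0 < κ ∧ ∀ᶠ t : ℝ in atTop,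
      κ * t ^ (c i₀ - j) ≤ ∑ i ∈ s, t ^ (c i - j) * (R i).eval (Real.log t) ∧
      ∑ i ∈ s, t ^ (c i - j) * (R i).eval (Real.log t) ≤ t ^ (c i₀ - j + ν) := by
  obtain ⟨κ, hκ, hev⟩ := pos_ev (R i₀) hlc
  have hev' := Real.tendsto_log_atTop.eventually hev
  have hsmall : (fun t : ℝ => ∑ i ∈ s.erase i₀, t ^ (c i - j) * (R i).eval (Real.log t)) =o[atTop]
      (fun t : ℝ => t ^ (c i₀ - j)) := by
    apply IsLittleO.fun_sum
    intro i hi
    have hi' := Finset.mem_erase.mp hi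
    have h1 := hc i hi'.2 hi'.1
    have h2 := poly_log (R i) (c i₀ - c i) (by linarith)
    have h3 : (fun t : ℝ => t ^ (c i - j) * (R i).eval (Real.log t)) =o[atTop]
        (fun t : ℝ => t ^ (c i - j) * t ^ (c i₀ - c i)) := (isBigO_refl _ _).mul_isLittleO h2
    refine h3.congr' (Filter.EventuallyEq.rfl) ?_
    filter_upwards [eventually_gt_atTop 0] with t ht
    rw [← Real.rpow_add ht]
    congr 1
    ring
  have hs1 := hsmall.bound (show (0 : ℝ) < κ / 2 by positivity)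
  have hlog := (poly_log (R i₀) (ν / 2) (by linarith)).bound (show (0 : ℝ) < 1 by norm_num)
  refine ⟨κ / 2, by positivity, ?_⟩
  filter_upwards [hev', hs1, hlog, eventually_gt_atTop 0, eventually_ge_atTop 1,
    ev_pow (ν / 2) ν (1 + κ / 2) (by linarith)] with t h1 h2 h3 ht ht1 h5
  have hp : 0 < t ^ (c i₀ - j) := by positivity
  rw [← Finset.add_sum_erase s _ hi₀]
  set S := ∑ i ∈ s.erase i₀, t ^ (c i - j) * (R i).eval (Real.log t) with hS
  rw [Real.norm_eq_abs, Real.norm_eq_abs, abs_of_pos hp] at h2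
  rw [Real.norm_eq_abs, Real.norm_eq_abs, abs_of_pos (by positivity : (0 : ℝ) < t ^ (ν / 2)),
    one_mul] at h3
  have h4 := abs_le.mp h2
  have h6 := (abs_le.mp h3).2
  constructor
  · have : t ^ (c i₀ - j) * κ ≤ t ^ (c i₀ - j) * (R i₀).eval (Real.log t) := by gcongr
    linarith [h4.1]
  · have h7 : t ^ (c i₀ - j) * (R i₀).eval (Real.log t) ≤ t ^ (c i₀ - j) * t ^ (ν / 2) := by gcongr
    have h8 : (1 : ℝ) ≤ t ^ (ν / 2) := Real.one_le_rpow ht1 (by positivity)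
    have h9 : κ / 2 * t ^ (c i₀ - j) ≤ κ / 2 * (t ^ (c i₀ - j) * t ^ (ν / 2)) := by
      apply mul_le_mul_of_nonneg_left _ (by positivity)
      exact le_mul_of_one_le_right hp.le h8
    have h10 : t ^ (c i₀ - j) * ((1 + κ / 2) * t ^ (ν / 2)) ≤ t ^ (c i₀ - j) * t ^ ν := by gcongr
    rw [← Real.rpow_add ht] at h10
    linarith [h4.2]

/-- the leading coefficients, up to the order at which the exponent is nonnegative -/
lemma QQ_pos (c : ℝ) (P : ℝ[X]) (hP : 0 < P.leadingCoeff) : ∀ j : ℕ, (∀ l < j, (l : ℝ) < c) →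
    0 < (QQ c P j).leadingCoeff ∧ (QQ c P j).natDegree = P.natDegree := by
  intro j
  induction j with
  | zero => exact fun _ => ⟨hP, rfl⟩
  | succ j ih =>
    intro h
    obtain ⟨h1, h2⟩ := ih fun l hl => h l (by omega)
    have h3 := h j (by omega)
    have h4 : QQ c P j ≠ 0 := by
      intro h0
      rw [h0] at h1
      simp at h1
    obtain ⟨h5, h6⟩ := lc_step (c - j) (by linarith [sub_pos.mpr h3]) (QQ c P j) h4
    exact ⟨by
      change 0 < (C (c - j) * QQ c P j + derivative (QQ c P j)).leadingCoeff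
      rw [h5]
      exact mul_pos (by linarith) h1, by
      change (C (c - j) * QQ c P j + derivative (QQ c P j)).natDegree = _
      rw [h6, h2]⟩

/-- the order of differentiation -/
lemma order (c : ℝ) (hc : 0 < c) (P : ℝ[X]) (hP : 0 < P.leadingCoeff)
    (h : (∀ m : ℕ, c ≠ m) ∨ 1 ≤ P.natDegree) : ∃ k : ℕ, 0 < (QQ c P (k + 1)).leadingCoeff ∧
      (QQ c P (k + 2)).leadingCoeff < 0 ∧ c < k + 1 ∧ (k : ℝ) ≤ c ∧ ((k : ℝ) < c ∨ 1 ≤ k) := by
  refine ⟨⌊c⌋₊, ?_⟩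
  set k : ℕ := ⌊c⌋₊ with hk
  have hk1 : (k : ℝ) ≤ c := Nat.floor_le hc.le
  have hk2 : c < k + 1 := Nat.lt_floor_add_one _
  have h0 := QQ_pos c P hP k (fun l hl => by
    have : (l : ℝ) < k := by exact_mod_cast hl
    linarith)
  have hpos : 0 < (QQ c P (k + 1)).leadingCoeff := by
    rcases lt_or_eq_of_le hk1 with h1 | h1
    · exact (QQ_pos c P hP (k + 1) (fun l hl => by
        have : (l : ℝ) ≤ k := by exact_mod_cast (by omega : l ≤ k)
        linarith)).1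
    · rcases h with h | h
      · exact absurd h1.symm (h k)
      · change 0 < (C (c - k) * QQ c P k + derivative (QQ c P k)).leadingCoeff
        have h2 : c - k = 0 := by linarith
        rw [h2, C_0, zero_mul, zero_add, lc_der _ (by rw [h0.2]; exact h), h0.2]
        have : (0 : ℝ) < P.natDegree := by exact_mod_cast h
        exact mul_pos this h0.1
  refine ⟨hpos, ?_, hk2, hk1, ?_⟩
  · change (C (c - ((k + 1 : ℕ) : ℝ)) * QQ c P (k + 1) + derivative (QQ c P (k + 1))).leadingCoeff < 0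
    have hne : QQ c P (k + 1) ≠ 0 := by
      intro h0
      rw [h0] at hpos
      simp at hpos
    have hc1 : c - ((k + 1 : ℕ) : ℝ) < 0 := by
      push_cast
      linarith
    rw [(lc_step _ hc1.ne _ hne).1]
    exact mul_neg_of_neg_of_pos hc1 hpos
  · rcases lt_or_eq_of_le hk1 with h1 | h1
    · exact Or.inl h1
    · right
      by_contra h2
      have : k = 0 := by omega
      rw [this] at h1
      simp at h1
      linarith

/-- record gaps at the values of `∑ t ^ c * P (log t)` -/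
theorem logpoly {ι : Type} (s : Finset ι) (c : ι → ℝ) (P : ι → ℝ[X]) (i₀ : ι)
    (hi₀ : i₀ ∈ s) (hc : ∀ i ∈ s, i ≠ i₀ → c i < c i₀) (hc0 : 0 < c i₀)
    (hP : 0 < (P i₀).leadingCoeff) (h : (∀ m : ℕ, c i₀ ≠ m) ∨ 1 ≤ (P i₀).natDegree) :
    ∃ κ : ℝ, 0 < κ ∧ ∃ δ : ℝ, 0 < δ ∧ δ ≤ 1 / 8 ∧ ∃ M₀ : ℝ, ∀ M : ℝ, M₀ ≤ M →
      ∃ G : Finset ℕ, M ^ (1 - 3 * δ) ≤ (G.card : ℝ) ∧ ∀ n ∈ G, M < n ∧ (n : ℝ) ≤ M + M ^ (1 - δ) ∧
        ∀ q : ℕ, q.Prime → κ * ff M <
          |(q : ℝ) - ∑ i ∈ s, (n : ℝ) ^ c i * (P i).eval (Real.log n)| := by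
  classical
  obtain ⟨k, hk1, hk2, hk3, hk4, hk5⟩ := order (c i₀) hc0 (P i₀) hP h
  have hk0 : (0 : ℝ) ≤ k := Nat.cast_nonneg k
  -- the parameters
  obtain ⟨ε, lam, ν, hε, hε1, hν, hlam0, hlam, hε2, hlam2, hεc⟩ : ∃ ε lam ν : ℝ, 0 < ε ∧ ε ≤ 1 / 2 ∧
      0 < ν ∧ 0 ≤ lam ∧ (lam ≤ 1 - ε ∨ (1 ≤ k ∧ lam ≤ 1 + ε / (32 * (k + 1)))) ∧
      c i₀ - (k + 1) + ν ≤ -ε ∧ -lam < c i₀ - (k + 1) ∧ ε < c i₀ := by
    rcases hk5 with h5 | h5
    · refine ⟨min (min ((c i₀ - k) / 2) ((k + 1 - c i₀) / 2)) (1 / 2),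
        1 - min (min ((c i₀ - k) / 2) ((k + 1 - c i₀) / 2)) (1 / 2), (k + 1 - c i₀) / 2, ?_, ?_, ?_,
        ?_, Or.inl le_rfl, ?_, ?_, ?_⟩
      · apply lt_min (lt_min _ _) <;> linarith
      · exact min_le_right _ _
      · linarith
      · have := min_le_right (min ((c i₀ - k) / 2) ((k + 1 - c i₀) / 2)) (1 / 2 : ℝ)
        linarith
      · have := (min_le_left (min ((c i₀ - k) / 2) ((k + 1 - c i₀) / 2)) (1 / 2 : ℝ)).trans
          (min_le_right _ _)
        linarith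
      · have := (min_le_left (min ((c i₀ - k) / 2) ((k + 1 - c i₀) / 2)) (1 / 2 : ℝ)).trans
          (min_le_left _ _)
        linarith
      · have := (min_le_left (min ((c i₀ - k) / 2) ((k + 1 - c i₀) / 2)) (1 / 2 : ℝ)).trans
          (min_le_left _ _)
        linarith
    · have h6 : (1 : ℝ) ≤ k := by exact_mod_cast h5
      set ε : ℝ := min ((k + 1 - c i₀) / 2) (1 / 2) with hε
      have hε0 : 0 < ε := lt_min (by linarith) (by norm_num)
      have hεa : ε ≤ (k + 1 - c i₀) / 2 := min_le_left _ _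
      have hεb : ε ≤ 1 / 2 := min_le_right _ _
      refine ⟨ε, 1 + ε / (32 * (k + 1)), (k + 1 - c i₀) / 2, hε0, hεb, by linarith, by positivity,
        Or.inr ⟨h5, le_rfl⟩, by linarith, ?_, by linarith⟩
      have : 0 < ε / (32 * (k + 1)) := by positivity
      linarith
  obtain ⟨κ₁, hκ₁, hev1⟩ := lead s c (fun i => QQ (c i) (P i) (k + 1)) (k + 1) i₀ hi₀ hc hk1 ν hν
  obtain ⟨κ₀, hκ₀, hev0⟩ := lead s c P 0 i₀ hi₀ hc hP ν hν
  obtain ⟨κ₂, hκ₂, hev2⟩ := lead s c (fun i => -QQ (c i) (P i) (k + 2)) (k + 2) i₀ hi₀ hc (by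
    rw [leadingCoeff_neg]
    linarith) ν hν
  have hall : ∀ᶠ t : ℝ in atTop, 0 < t ∧ t ^ (-lam) ≤ Phi s c P (k + 1) t ∧
      Phi s c P (k + 1) t ≤ t ^ (-ε) ∧ Phi s c P (k + 2) t ≤ 0 ∧ t ^ ε ≤ Phi s c P 0 t := by
    filter_upwards [hev1, hev0, hev2, eventually_ge_atTop 1,
      ev_pow (-lam) (c i₀ - (k + 1)) (1 / κ₁) hlam2, ev_pow ε (c i₀) (1 / κ₀) hεc]
      with t h1 h2 h3 h4 h5 h6
    have ht : 0 < t := by linarith
    refine ⟨ht, ?_, ?_, ?_, ?_⟩
    · have h7 := h1.1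
      push_cast at h7
      unfold Phi
      push_cast
      refine le_trans ?_ h7
      rw [one_div, inv_mul_le_iff₀ hκ₁] at h5
      exact h5
    · have h7 := h1.2
      push_cast at h7
      unfold Phi
      push_cast
      refine h7.trans ?_
      exact Real.rpow_le_rpow_of_exponent_le h4 hε2
    · have h7 := h3.1
      have h8 : 0 < κ₂ * t ^ (c i₀ - ((k + 2 : ℕ) : ℝ)) := by positivity
      have h9 : ∑ i ∈ s, t ^ (c i - ((k + 2 : ℕ) : ℝ)) *
          (-QQ (c i) (P i) (k + 2)).eval (Real.log t) = -Phi s c P (k + 2) t := by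
        unfold Phi
        rw [← Finset.sum_neg_distrib]
        refine Finset.sum_congr rfl fun i _ => ?_
        rw [eval_neg]
        ring
      rw [h9] at h7
      linarith
    · have h7 := h2.1
      have h8 : Phi s c P 0 t = ∑ i ∈ s, t ^ (c i - ((0 : ℕ) : ℝ)) * (P i).eval (Real.log t) := rfl
      rw [h8]
      refine le_trans ?_ h7
      rw [one_div, inv_mul_le_iff₀ hκ₀] at h6
      simpa using h6
  obtain ⟨t₀, ht₀⟩ := eventually_atTop.mp hall
  obtain ⟨κ, hκ, δ, hδ, hδ8, M₀, hM₀⟩ := smooth_count k ε lam hε hε1 hlam0 hlam (Phi s c P) t₀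
    (fun m _ t ht => Phi_der s c P m t (ht₀ t ht).1)
    (fun t ht => (ht₀ t ht).2.1) (fun t ht => (ht₀ t ht).2.2.1) (fun t ht => (ht₀ t ht).2.2.2.1)
    (fun t ht => (ht₀ t ht).2.2.2.2)
  refine ⟨κ, hκ, δ, hδ, hδ8, M₀, fun M hM => ?_⟩
  obtain ⟨G, hG1, hG2⟩ := hM₀ M hM
  refine ⟨G, hG1, fun n hn => ?_⟩
  obtain ⟨h1, h2, h3⟩ := hG2 n hn
  refine ⟨h1, h2, fun q hq => ?_⟩
  have h4 := h3 q hq
  have h5 : Phi s c P 0 n = ∑ i ∈ s, (n : ℝ) ^ c i * (P i).eval (Real.log n) := by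
    unfold Phi
    refine Finset.sum_congr rfl fun i _ => ?_
    simp [QQ]
  rw [h5] at h4
  exact h4

end Pool.Agent.Y565.RG
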