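import Pool.Agent.Y565.RG.Bilin

set_option autoImplicit false

/-!
Multilinear sums with arbitrary coefficients, each of which does not depend on one of the
variables: an inverse theorem.
-/

namespace Pool.Agent.Y565.RG

open Finset Filter
open Pool.Agent.H469R2.NK (e norm_e e_add conj_e)
open Pool.Agent.W147.PS (ff ff_compare ev_pow)
open Pool.Agent.TH915.PW (approx_of_dirichlet ee_eq_e)
open Pool.Agent.Helper112 (ee lsSep lsSep_neg ls_general)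

/-- the multilinear sum -/
noncomputable def MS {N : ℕ} (k : ℕ) (u : Fin k → (Fin k → Fin N) → ℂ) (θ : ℝ) : ℂ :=
  ∑ x : Fin k → Fin N, (∏ i, u i x) * e (θ * ∏ j, (((x j : ℕ) : ℝ) + 1))

/-- bounded coefficients, the `i`-th one does not depend on the `i`-th variable -/
def Adm {N : ℕ} (k : ℕ) (u : Fin k → (Fin k → Fin N) → ℂ) : Prop :=
  (∀ i x, ‖u i x‖ ≤ 1) ∧ ∀ i x a, u i (Function.update x i a) = u i x

/-- the differenced coefficients -/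
noncomputable def dif {N : ℕ} {k : ℕ} (u : Fin (k + 1) → (Fin (k + 1) → Fin N) → ℂ) (y z : Fin N) :
    Fin k → (Fin k → Fin N) → ℂ := fun i x =>
  u i.succ (Fin.cons y x) * (starRingEnd ℂ) (u i.succ (Fin.cons z x))

lemma dif_adm {N : ℕ} {k : ℕ} {u : Fin (k + 1) → (Fin (k + 1) → Fin N) → ℂ} (hu : Adm (k + 1) u)
    (y z : Fin N) : Adm k (dif u y z) := by
  refine ⟨fun i x => ?_, fun i x a => ?_⟩
  · unfold dif
    rw [norm_mul, RCLike.norm_conj]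
    exact mul_le_one₀ (hu.1 _ _) (norm_nonneg _) (hu.1 _ _)
  · unfold dif
    rw [Fin.cons_update, Fin.cons_update, hu.2, hu.2]

lemma MS_norm_le {N : ℕ} {k : ℕ} {u : Fin k → (Fin k → Fin N) → ℂ} (hu : Adm k u) (θ : ℝ) :
    ‖MS k u θ‖ ≤ (N : ℝ) ^ k := by
  unfold MS
  refine (norm_sum_le _ _).trans ?_
  calc ∑ x : Fin k → Fin N, ‖(∏ i, u i x) * e (θ * ∏ j, (((x j : ℕ) : ℝ) + 1))‖ ≤
      ∑ x : Fin k → Fin N, (1 : ℝ) := by
        apply sum_le_sum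
        intro x _
        rw [norm_mul, norm_e, mul_one, norm_prod]
        exact prod_le_one (fun i _ => norm_nonneg _) fun i _ => hu.1 i x
    _ = (N : ℝ) ^ k := by simp

lemma MS_sq {N : ℕ} (hN : 0 < N) {k : ℕ} {u : Fin (k + 1) → (Fin (k + 1) → Fin N) → ℂ}
    (hu : Adm (k + 1) u) (θ : ℝ) :
    ‖MS (k + 1) u θ‖ ^ 2 ≤ (N : ℝ) ^ k *
      ∑ y : Fin N, ∑ z : Fin N, ‖MS k (dif u y z) (θ * (((y : ℕ) : ℝ) - ((z : ℕ) : ℝ)))‖ := by
  classical
  set P : (Fin k → Fin N) → ℝ := fun x => ∏ j, (((x j : ℕ) : ℝ) + 1) with hP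
  set g : (Fin k → Fin N) → Fin N → ℂ := fun x y =>
    (∏ i : Fin k, u i.succ (Fin.cons y x)) * e (θ * ((((y : ℕ) : ℝ) + 1) * P x)) with hg
  have h1 : MS (k + 1) u θ = ∑ x : Fin k → Fin N, u 0 (Fin.cons ⟨0, hN⟩ x) * ∑ y, g x y := by
    unfold MS
    rw [← (Fin.consEquiv (fun _ : Fin (k + 1) => Fin N)).sum_comp, Fintype.sum_prod_type_right]
    refine sum_congr rfl fun x _ => ?_
    rw [mul_sum]
    refine sum_congr rfl fun y _ => ?_
    have hc : (Fin.consEquiv (fun _ : Fin (k + 1) => Fin N)) (y, x) = Fin.cons y x := rfl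
    rw [hg, hc]
    simp only
    rw [Fin.prod_univ_succ, Fin.prod_univ_succ]
    simp only [Fin.cons_zero, Fin.cons_succ]
    have h2 : u 0 (Fin.cons y x) = u 0 (Fin.cons ⟨0, hN⟩ x) := by
      have h3 := hu.2 0 (Fin.cons ⟨0, hN⟩ x) y
      rw [Fin.update_cons_zero] at h3
      exact h3
    rw [h2]
    ring
  have h2 : ‖MS (k + 1) u θ‖ ≤ ∑ x : Fin k → Fin N, 1 * ‖∑ y, g x y‖ := by
    rw [h1]
    refine (norm_sum_le _ _).trans (sum_le_sum fun x _ => ?_)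
    rw [norm_mul]
    exact mul_le_mul_of_nonneg_right (hu.1 _ _) (norm_nonneg _)
  have h3 := Finset.sum_mul_sq_le_sq_mul_sq (univ : Finset (Fin k → Fin N)) (fun _ => (1 : ℝ))
    (fun x => ‖∑ y, g x y‖)
  have h4 : ∑ x : Fin k → Fin N, (1 : ℝ) ^ 2 = (N : ℝ) ^ k := by simp
  rw [h4] at h3
  have h5 : ((∑ x : Fin k → Fin N, ‖∑ y, g x y‖ ^ 2 : ℝ) : ℂ) =
      ∑ y : Fin N, ∑ z : Fin N, MS k (dif u y z) (θ * (((y : ℕ) : ℝ) - ((z : ℕ) : ℝ))) := by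
    push_cast
    have h6 : ∀ x : Fin k → Fin N, ((‖∑ y, g x y‖ : ℂ)) ^ 2 =
        ∑ y, ∑ z, g x y * (starRingEnd ℂ) (g x z) := by
      intro x
      rw [← Complex.mul_conj', map_sum, sum_mul_sum]
    rw [sum_congr rfl fun x _ => h6 x, sum_comm]
    refine sum_congr rfl fun y _ => ?_
    rw [sum_comm]
    refine sum_congr rfl fun z _ => ?_
    unfold MS
    refine sum_congr rfl fun x _ => ?_
    rw [hg]
    simp only
    rw [map_mul, conj_e, map_prod]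
    have h7 : ∏ i, dif u y z i x = (∏ i : Fin k, u i.succ (Fin.cons y x)) *
        ∏ i : Fin k, (starRingEnd ℂ) (u i.succ (Fin.cons z x)) := by
      rw [← prod_mul_distrib]
      rfl
    rw [h7]
    have h8 : e (θ * (((y : ℕ) : ℝ) - ((z : ℕ) : ℝ)) * ∏ j, (((x j : ℕ) : ℝ) + 1)) =
        e (θ * ((((y : ℕ) : ℝ) + 1) * P x)) * e (-(θ * ((((z : ℕ) : ℝ) + 1) * P x))) := by
      rw [← e_add]
      congr 1
      rw [hP]
      ring
    rw [h8]
    ring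
  have h6 : ∑ x : Fin k → Fin N, ‖∑ y, g x y‖ ^ 2 ≤
      ∑ y : Fin N, ∑ z : Fin N, ‖MS k (dif u y z) (θ * (((y : ℕ) : ℝ) - ((z : ℕ) : ℝ)))‖ := by
    have h7 : ‖((∑ x : Fin k → Fin N, ‖∑ y, g x y‖ ^ 2 : ℝ) : ℂ)‖ =
        ∑ x : Fin k → Fin N, ‖∑ y, g x y‖ ^ 2 := by
      rw [Complex.norm_real, Real.norm_of_nonneg (sum_nonneg fun _ _ => by positivity)]
    rw [← h7, h5]
    exact (norm_sum_le _ _).trans (sum_le_sum fun y _ => norm_sum_le _ _)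
  calc ‖MS (k + 1) u θ‖ ^ 2 ≤ (∑ x : Fin k → Fin N, 1 * ‖∑ y, g x y‖) ^ 2 :=
        pow_le_pow_left₀ (norm_nonneg _) h2 2
    _ ≤ (N : ℝ) ^ k * ∑ x : Fin k → Fin N, ‖∑ y, g x y‖ ^ 2 := h3
    _ ≤ _ := by gcongr

end Pool.Agent.Y565.RG
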