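import Pool.Agent.Y565.RG.Multi

set_option autoImplicit false

/-!
The inverse theorem for multilinear sums with arbitrary coefficients, each of which does not depend
on one of the variables.
-/

namespace Pool.Agent.Y565.RG

open Finset Filter
open Pool.Agent.H469R2.NK (e norm_e e_add conj_e)
open Pool.Agent.W147.PS (ff ff_compare ev_pow)
open Pool.Agent.TH915.PW (approx_of_dirichlet ee_eq_e)
open Pool.Agent.Helper112 (ee lsSep lsSep_neg ls_general)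

lemma mean_square_gen {θ : ℝ} {c : ℤ} {D : ℕ} (hcop : IsCoprime c (D : ℤ))
    (hap : |θ - c / D| ≤ 1 / (D : ℝ) ^ 2) (hD : 4 ≤ D) (N : ℕ) (v : ℕ → ℂ) (hv : ∀ b, ‖v b‖ ≤ 1) :
    ∑ a ∈ Icc 1 N, ‖∑ b ∈ Icc 1 N, v b * e (θ * a * b)‖ ^ 2 ≤
      (4 * N / D + 1) * (6 * (N + 2 * D) * N) := by
  classical
  have hD4 : (4 : ℝ) ≤ D := by exact_mod_cast hD
  set L : ℕ := D / 2 with hL
  have hL0 : 0 < L := by omega
  have hLD : (D : ℝ) / 4 ≤ L := by
    have h1 : D ≤ 4 * L := by omega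
    have h2 : (D : ℝ) ≤ 4 * L := by exact_mod_cast h1
    linarith
  have hinner : ∀ a : ℕ, ∑ b ∈ Icc 1 N, v b * e (θ * a * b) =
      ∑ n ∈ Icc 1 N, v n * ee (n * ((a : ℝ) * θ)) := by
    intro a
    refine sum_congr rfl fun b _ => ?_
    rw [ee_eq_e]
    congr 2
    ring
  have hαsq : ∑ n ∈ Icc 1 N, ‖v n‖ ^ 2 ≤ N := by
    calc ∑ n ∈ Icc 1 N, ‖v n‖ ^ 2 ≤ ∑ n ∈ Icc 1 N, (1 : ℝ) := by
          apply sum_le_sum
          intro b _
          exact pow_le_one₀ (norm_nonneg _) (hv b)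
      _ = N := by simp
  have hsplit : ∑ a ∈ Icc 1 N, ‖∑ b ∈ Icc 1 N, v b * e (θ * a * b)‖ ^ 2 =
      ∑ j ∈ range (N / L + 1), ∑ a ∈ (Icc 1 N).filter (fun a => a / L = j),
        ‖∑ b ∈ Icc 1 N, v b * e (θ * a * b)‖ ^ 2 := by
    rw [sum_fiberwise_of_maps_to]
    intro a ha
    rw [Finset.mem_Icc] at ha
    rw [Finset.mem_range]
    exact Nat.lt_succ_of_le (Nat.div_le_div_right ha.2)
  rw [hsplit]
  have hblock : ∀ j ∈ range (N / L + 1), ∑ a ∈ (Icc 1 N).filter (fun a => a / L = j),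
        ‖∑ b ∈ Icc 1 N, v b * e (θ * a * b)‖ ^ 2 ≤ 6 * (N + 2 * D) * N := by
    intro j _
    have h1 := ls_general ((Icc 1 N).filter (fun a => a / L = j)) (fun a : ℕ => (a : ℝ) * θ)
      (2 * D) N (by omega) (by
        intro r hr s hs hrs
        rw [Finset.mem_filter] at hr hs
        exact sep_block hcop hap (by omega) r s hrs (by rw [← hL, hr.2, hs.2])) v
    have h2 : ∑ a ∈ (Icc 1 N).filter (fun a => a / L = j), ‖∑ b ∈ Icc 1 N, v b * e (θ * a * b)‖ ^ 2 =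
        ∑ r ∈ (Icc 1 N).filter (fun a => a / L = j),
          ‖∑ n ∈ Icc 1 N, v n * ee (n * ((r : ℝ) * θ))‖ ^ 2 := by
      refine sum_congr rfl fun a _ => ?_
      rw [hinner]
    rw [h2]
    refine h1.trans ?_
    push_cast
    gcongr
  refine (sum_le_sum hblock).trans ?_
  rw [sum_const, card_range, nsmul_eq_mul]
  have h4 : ((N / L + 1 : ℕ) : ℝ) ≤ 4 * N / D + 1 := by
    push_cast
    have h5 : ((N / L : ℕ) : ℝ) ≤ (N : ℝ) / L := Nat.cast_div_le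
    have h6 : (N : ℝ) / L ≤ N / (D / 4) := by
      apply div_le_div_of_nonneg_left (by positivity) (by positivity) hLD
    have h7 : (N : ℝ) / (D / 4) = 4 * N / D := by field_simp
    linarith
  gcongr

lemma sum_fin_Icc {N : ℕ} (G : ℕ → ℂ) : ∑ a : Fin N, G ((a : ℕ) + 1) = ∑ a ∈ Icc 1 N, G a := by
  rw [Fin.sum_univ_eq_sum_range (fun i => G (i + 1)) N, Finset.range_eq_Ico, Finset.sum_Ico_add' G 0 N 1]
  rfl

lemma base_bound {N : ℕ} {u : Fin 2 → (Fin 2 → Fin N) → ℂ} (hu : Adm 2 u) {θ : ℝ} {c : ℤ} {D : ℕ}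
    (hcop : IsCoprime c (D : ℤ)) (hap : |θ - c / D| ≤ 1 / (D : ℝ) ^ 2) (hD : 4 ≤ D) :
    ‖MS 2 u θ‖ ^ 2 ≤ (4 * N / D + 1) * (6 * (N + 2 * D) * N) * N := by
  classical
  set U : ℕ → ℂ := fun a => if h : a - 1 < N then u 1 (fun _ => ⟨a - 1, h⟩) else 0 with hU
  set V : ℕ → ℂ := fun a => if h : a - 1 < N then u 0 (fun _ => ⟨a - 1, h⟩) else 0 with hV
  have hU1 : ∀ a, ‖U a‖ ≤ 1 := by
    intro a
    rw [hU]
    by_cases h : a - 1 < N
    · simp only [h, dif_pos]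
      exact hu.1 _ _
    · simp [h]
  have hV1 : ∀ a, ‖V a‖ ≤ 1 := by
    intro a
    rw [hV]
    by_cases h : a - 1 < N
    · simp only [h, dif_pos]
      exact hu.1 _ _
    · simp [h]
  have hUf : ∀ a : Fin N, U ((a : ℕ) + 1) = u 1 (fun _ => a) := by
    intro a
    rw [hU]
    simp
  have hVf : ∀ a : Fin N, V ((a : ℕ) + 1) = u 0 (fun _ => a) := by
    intro a
    rw [hV]
    simp
  have h1 : MS 2 u θ = ∑ a ∈ Icc 1 N, U a * ∑ b ∈ Icc 1 N, V b * e (θ * a * b) := by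
    unfold MS
    rw [← (finTwoArrowEquiv (Fin N)).symm.sum_comp, Fintype.sum_prod_type, ← sum_fin_Icc]
    refine sum_congr rfl fun a _ => ?_
    rw [mul_sum, ← sum_fin_Icc]
    refine sum_congr rfl fun b _ => ?_
    have hx : (finTwoArrowEquiv (Fin N)).symm (a, b) = ![a, b] := rfl
    rw [hx, Fin.prod_univ_two, Fin.prod_univ_two, hUf, hVf]
    have e0 : u 0 ![a, b] = u 0 (fun _ => b) := by
      have h2 := hu.2 0 ![a, b] b
      rw [← h2]
      congr 1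
      funext i
      fin_cases i <;> simp
    have e1 : u 1 ![a, b] = u 1 (fun _ => a) := by
      have h2 := hu.2 1 ![a, b] a
      rw [← h2]
      congr 1
      funext i
      fin_cases i <;> simp
    rw [e0, e1]
    simp only [Matrix.cons_val_zero, Matrix.cons_val_one]
    push_cast
    have e2 : θ * ((((a : ℕ) : ℝ) + 1) * (((b : ℕ) : ℝ) + 1)) =
      θ * (((a : ℕ) : ℝ) + 1) * (((b : ℕ) : ℝ) + 1) := by ring
    rw [e2]
    ring
  have h2 : ‖MS 2 u θ‖ ≤ ∑ a ∈ Icc 1 N, 1 * ‖∑ b ∈ Icc 1 N, V b * e (θ * a * b)‖ := by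
    rw [h1]
    refine (norm_sum_le _ _).trans (sum_le_sum fun a _ => ?_)
    rw [norm_mul]
    exact mul_le_mul_of_nonneg_right (hU1 a) (norm_nonneg _)
  have h3 := Finset.sum_mul_sq_le_sq_mul_sq (Icc 1 N) (fun _ => (1 : ℝ))
    (fun a => ‖∑ b ∈ Icc 1 N, V b * e (θ * a * b)‖)
  have h4 : ∑ a ∈ Icc 1 N, (1 : ℝ) ^ 2 = N := by simp
  rw [h4] at h3
  calc ‖MS 2 u θ‖ ^ 2 ≤ (∑ a ∈ Icc 1 N, 1 * ‖∑ b ∈ Icc 1 N, V b * e (θ * a * b)‖) ^ 2 :=
        pow_le_pow_left₀ (norm_nonneg _) h2 2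
    _ ≤ N * ∑ a ∈ Icc 1 N, ‖∑ b ∈ Icc 1 N, V b * e (θ * a * b)‖ ^ 2 := h3
    _ ≤ N * ((4 * N / D + 1) * (6 * (N + 2 * D) * N)) :=
        mul_le_mul_of_nonneg_left (mean_square_gen hcop hap hD N V hV1) (Nat.cast_nonneg _)
    _ = _ := by ring

lemma ev_pow_nat (a b c : ℝ) (h : a < b) : ∀ᶠ N : ℕ in atTop, c * (N : ℝ) ^ a ≤ (N : ℝ) ^ b :=
  tendsto_natCast_atTop_atTop.eventually (ev_pow a b c h)

theorem inverse_base (δ : ℝ) (hδ : 0 < δ) : ∃ δ' : ℝ, 0 < δ' ∧ ∀ᶠ N : ℕ in atTop, ∀ (θ : ℝ)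
    (u : Fin 2 → (Fin 2 → Fin N) → ℂ), Adm 2 u → (N : ℝ) ^ (2 - δ') ≤ ‖MS 2 u θ‖ →
    ∃ (q : ℕ) (m : ℤ), 1 ≤ q ∧ (q : ℝ) ≤ (N : ℝ) ^ δ ∧ |q * θ - m| ≤ (N : ℝ) ^ (-(3 / 2) : ℝ) := by
  set κ : ℝ := min δ (1 / 2) with hκ
  have hκ0 : 0 < κ := lt_min hδ (by norm_num)
  have hκδ : κ ≤ δ := min_le_left _ _
  have hκ2 : κ ≤ 1 / 2 := min_le_right _ _
  refine ⟨κ / 4, by positivity, ?_⟩
  filter_upwards [ev_pow_nat (4 - κ) (4 - κ / 2) 91 (by linarith), ev_pow_nat 0 κ 4 hκ0,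
    eventually_ge_atTop 1] with N hp1 hp2 hN1
  intro θ u hu hbig
  have hN0 : (0 : ℝ) < N := by exact_mod_cast hN1
  have hN1' : (1 : ℝ) ≤ N := by exact_mod_cast hN1
  set n : ℕ := ⌊(N : ℝ) ^ (3 / 2 : ℝ)⌋₊ with hn
  have hn1 : 0 < n := Nat.floor_pos.mpr (Real.one_le_rpow hN1' (by norm_num))
  have hn2 : (n : ℝ) ≤ (N : ℝ) ^ (3 / 2 : ℝ) := Nat.floor_le (by positivity)
  have hn3 : (N : ℝ) ^ (3 / 2 : ℝ) < n + 1 := Nat.lt_floor_add_one _
  obtain ⟨c, D, hD, hDn, hcop, hap, hap2⟩ := approx_of_dirichlet θ n hn1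
  have hD0 : (0 : ℝ) < D := by exact_mod_cast hD
  have hDn' : (D : ℝ) ≤ n := by exact_mod_cast hDn
  by_cases hsmall : (D : ℝ) < (N : ℝ) ^ κ
  · refine ⟨D, c, hD, hsmall.le.trans (Real.rpow_le_rpow_of_exponent_le hN1' hκδ), ?_⟩
    have h1 : (D : ℝ) * θ - c = D * (θ - c / D) := by field_simp
    rw [h1, abs_mul, abs_of_pos hD0]
    calc (D : ℝ) * |θ - c / D| ≤ D * (1 / ((n + 1) * D)) := by gcongr
      _ = 1 / (n + 1) := by field_simp
      _ ≤ 1 / (N : ℝ) ^ (3 / 2 : ℝ) := one_div_le_one_div_of_le (by positivity) hn3.le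
      _ = _ := by rw [Real.rpow_neg hN0.le, one_div]
  · exfalso
    rw [not_lt] at hsmall
    have hD4 : 4 ≤ D := by
      have h1 : (4 : ℝ) ≤ D := by
        rw [Real.rpow_zero] at hp2
        linarith
      exact_mod_cast h1
    have h1 := base_bound hu hcop hap hD4
    have hDu : (D : ℝ) ≤ (N : ℝ) ^ (2 - κ) := by
      refine (hDn'.trans hn2).trans (Real.rpow_le_rpow_of_exponent_le hN1' (by linarith))
    have hNu : (N : ℝ) ≤ (N : ℝ) ^ (2 - κ) := by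
      conv_lhs => rw [← Real.rpow_one (N : ℝ)]
      exact Real.rpow_le_rpow_of_exponent_le hN1' (by linarith)
    have hND : (N : ℝ) * (N / D) ≤ (N : ℝ) ^ (2 - κ) := by
      rw [← mul_div_assoc, div_le_iff₀ hD0]
      calc (N : ℝ) * N = (N : ℝ) ^ (2 - κ) * (N : ℝ) ^ κ := by
            rw [← Real.rpow_add hN0]
            norm_num
            ring
        _ ≤ _ := by gcongr
    have h2 : (4 * (N : ℝ) / D + 1) * (6 * (N + 2 * D) * N) * N ≤
        90 * (N : ℝ) ^ (2 - κ) * (N * N) := by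
      have h3 : (4 * (N : ℝ) / D + 1) * (6 * (N + 2 * D)) =
          24 * (N * (N / D)) + 54 * N + 12 * D := by
        field_simp
        ring
      calc (4 * (N : ℝ) / D + 1) * (6 * (N + 2 * D) * N) * N =
          ((4 * (N : ℝ) / D + 1) * (6 * (N + 2 * D))) * (N * N) := by ring
        _ ≤ 90 * (N : ℝ) ^ (2 - κ) * (N * N) := by
            rw [h3]
            gcongr
            linarith
    have h4 : (N : ℝ) ^ (2 - κ) * (N * N) = (N : ℝ) ^ (4 - κ) := by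
      have h5 : (N : ℝ) * N = (N : ℝ) ^ (2 : ℝ) := by
        rw [Real.rpow_two]
        ring
      rw [h5, ← Real.rpow_add hN0]
      congr 1
      ring
    have h6 : (N : ℝ) ^ (4 - κ / 2) ≤ ‖MS 2 u θ‖ ^ 2 := by
      calc (N : ℝ) ^ (4 - κ / 2) = ((N : ℝ) ^ (2 - κ / 4)) ^ 2 := by
            rw [← Real.rpow_natCast, ← Real.rpow_mul hN0.le]
            congr 1
            push_cast
            ring
        _ ≤ _ := pow_le_pow_left₀ (by positivity) hbig 2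
    have h7 : 0 < (N : ℝ) ^ (4 - κ) := by positivity
    have h8 : 90 * (N : ℝ) ^ (2 - κ) * (N * N) = 90 * (N : ℝ) ^ (4 - κ) := by
      rw [mul_assoc, h4]
    linarith

end Pool.Agent.Y565.RG
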