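import Pool.Agent.Y565.RG.Multi2

set_option autoImplicit false

/-!
The inverse theorem for multilinear sums: the induction.
-/

namespace Pool.Agent.Y565.RG

open Finset Filter

set_option maxHeartbeats 1000000 in
lemma inverse_step (k : ℕ) (δ₁ δ₁' δ σ : ℝ) (hδ₁ : 0 < δ₁) (hδ₁' : 0 < δ₁') (hδ : 2 * δ₁ + 4 * σ < δ)
    (hσ : 0 < σ) (hσ1 : 4 * σ ≤ δ₁') (hδ1 : δ ≤ 1) (N : ℕ) (hN : 1 ≤ N)
    (hp1 : 2 * (N : ℝ) ^ ((2 : ℝ) - 3 * σ) ≤ (N : ℝ) ^ ((2 : ℝ) - 2 * σ))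
    (hp2 : 4 * (N : ℝ) ^ ((2 : ℝ) - 4 * σ) ≤ (N : ℝ) ^ ((2 : ℝ) - 3 * σ))
    (hp3 : 2 * (N : ℝ) ^ (2 * δ₁ + 4 * σ) ≤ (N : ℝ) ^ δ)
    (IH : ∀ (θ : ℝ) (u : Fin (k + 2) → (Fin (k + 2) → Fin N) → ℂ), Adm (k + 2) u →
      (N : ℝ) ^ ((k : ℝ) + 2 - δ₁') ≤ ‖MS (k + 2) u θ‖ →
      ∃ (q : ℕ) (m : ℤ), 1 ≤ q ∧ (q : ℝ) ≤ (N : ℝ) ^ δ₁ ∧
        |q * θ - m| ≤ 2 ^ k * (N : ℝ) ^ (-(3 / 2) : ℝ))
    (θ : ℝ) (u : Fin (k + 3) → (Fin (k + 3) → Fin N) → ℂ) (hu : Adm (k + 3) u)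
    (hbig : (N : ℝ) ^ ((k : ℝ) + 3 - σ) ≤ ‖MS (k + 3) u θ‖) :
    ∃ (q : ℕ) (m : ℤ), 1 ≤ q ∧ (q : ℝ) ≤ (N : ℝ) ^ δ ∧
      |q * θ - m| ≤ 2 ^ (k + 1) * (N : ℝ) ^ (-(3 / 2) : ℝ) := by
  classical
  have hN0 : (0 : ℝ) < N := by exact_mod_cast hN
  have hN1 : (1 : ℝ) ≤ N := by exact_mod_cast hN
  -- the sum over the pairs
  have h1 := MS_sq hN hu θ
  set W : Fin N × Fin N → ℝ := fun p =>
    ‖MS (k + 2) (dif u p.1 p.2) (θ * (((p.1 : ℕ) : ℝ) - ((p.2 : ℕ) : ℝ)))‖ with hW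
  have h2 : ∑ y : Fin N, ∑ z : Fin N,
      ‖MS (k + 2) (dif u y z) (θ * (((y : ℕ) : ℝ) - ((z : ℕ) : ℝ)))‖ = ∑ p, W p := by
    rw [Fintype.sum_prod_type]
  rw [h2] at h1
  have h3 : (N : ℝ) ^ ((k : ℝ) + 4 - 2 * σ) ≤ ∑ p, W p := by
    have e1 : (N : ℝ) ^ (k + 2) * (N : ℝ) ^ ((k : ℝ) + 4 - 2 * σ) =
        ((N : ℝ) ^ ((k : ℝ) + 3 - σ)) ^ 2 := by
      rw [← Real.rpow_natCast, ← Real.rpow_natCast, ← Real.rpow_mul hN0.le, ← Real.rpow_add hN0]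
      congr 1
      push_cast
      ring
    have e2 : ((N : ℝ) ^ ((k : ℝ) + 3 - σ)) ^ 2 ≤ ‖MS (k + 3) u θ‖ ^ 2 :=
      pow_le_pow_left₀ (by positivity) hbig 2
    have e3 : (N : ℝ) ^ (k + 2) * (N : ℝ) ^ ((k : ℝ) + 4 - 2 * σ) ≤ (N : ℝ) ^ (k + 2) * ∑ p, W p := by
      rw [e1]
      exact e2.trans h1
    exact le_of_mul_le_mul_left e3 (by positivity)
  -- the good pairs
  set G : Finset (Fin N × Fin N) := univ.filter fun p => (N : ℝ) ^ ((k : ℝ) + 2 - δ₁') ≤ W p with hG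
  have h4 : ∑ p, W p ≤ G.card * (N : ℝ) ^ (k + 2) + (N : ℝ) ^ 2 * (N : ℝ) ^ ((k : ℝ) + 2 - δ₁') := by
    rw [← sum_filter_add_sum_filter_not univ (fun p => (N : ℝ) ^ ((k : ℝ) + 2 - δ₁') ≤ W p) W]
    apply add_le_add
    · rw [← nsmul_eq_mul]
      apply sum_le_card_nsmul
      intro p _
      exact MS_norm_le (dif_adm hu _ _) _
    · calc ∑ p ∈ univ.filter (fun p => ¬ (N : ℝ) ^ ((k : ℝ) + 2 - δ₁') ≤ W p), W p ≤
          ∑ p ∈ univ.filter (fun p => ¬ (N : ℝ) ^ ((k : ℝ) + 2 - δ₁') ≤ W p),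
            (N : ℝ) ^ ((k : ℝ) + 2 - δ₁') := by
            apply sum_le_sum
            intro p hp
            rw [mem_filter, not_le] at hp
            exact hp.2.le
        _ ≤ ∑ p : Fin N × Fin N, (N : ℝ) ^ ((k : ℝ) + 2 - δ₁') :=
            sum_le_sum_of_subset_of_nonneg (filter_subset _ _) fun _ _ _ => by positivity
        _ = _ := by
            rw [sum_const, card_univ, Fintype.card_prod, Fintype.card_fin, nsmul_eq_mul]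
            push_cast
            ring
  have h5 : (N : ℝ) ^ ((2 : ℝ) - 3 * σ) ≤ G.card := by
    have e1 : (N : ℝ) ^ ((k : ℝ) + 4 - 2 * σ) =
        (N : ℝ) ^ (k + 2) * (N : ℝ) ^ ((2 : ℝ) - 2 * σ) := by
      rw [← Real.rpow_natCast, ← Real.rpow_add hN0]
      congr 1
      push_cast
      ring
    have e2 : (N : ℝ) ^ 2 * (N : ℝ) ^ ((k : ℝ) + 2 - δ₁') ≤
        (N : ℝ) ^ (k + 2) * (N : ℝ) ^ ((2 : ℝ) - 3 * σ) := by
      rw [← Real.rpow_natCast, ← Real.rpow_natCast, ← Real.rpow_add hN0, ← Real.rpow_add hN0]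
      apply Real.rpow_le_rpow_of_exponent_le hN1
      push_cast
      linarith
    have e3 : (N : ℝ) ^ (k + 2) * (N : ℝ) ^ ((2 : ℝ) - 2 * σ) ≤
        (N : ℝ) ^ (k + 2) * (G.card + (N : ℝ) ^ ((2 : ℝ) - 3 * σ)) := by
      rw [← e1]
      calc _ ≤ _ := h3.trans h4
        _ ≤ G.card * (N : ℝ) ^ (k + 2) + (N : ℝ) ^ (k + 2) * (N : ℝ) ^ ((2 : ℝ) - 3 * σ) := by gcongr
        _ = _ := by ring
    have e4 := le_of_mul_le_mul_left e3 (by positivity)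
    linarith
  -- the denominators
  have hq : ∀ p : Fin N × Fin N, ∃ (q : ℕ) (m : ℤ), p ∈ G → 1 ≤ q ∧ (q : ℝ) ≤ (N : ℝ) ^ δ₁ ∧
      |q * (θ * (((p.1 : ℕ) : ℝ) - ((p.2 : ℕ) : ℝ))) - m| ≤ 2 ^ k * (N : ℝ) ^ (-(3 / 2) : ℝ) := by
    intro p
    by_cases hp : p ∈ G
    · have hp2 : (N : ℝ) ^ ((k : ℝ) + 2 - δ₁') ≤ W p := by
        rw [hG, mem_filter] at hp
        exact hp.2
      obtain ⟨q, m, h6, h7, h8⟩ := IH _ _ (dif_adm hu p.1 p.2) hp2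
      exact ⟨q, m, fun _ => ⟨h6, h7, h8⟩⟩
    · exact ⟨0, 0, fun h => absurd h hp⟩
  choose q m hqm using hq
  set Q : ℕ := ⌊(N : ℝ) ^ δ₁⌋₊ with hQ
  have hQ1 : (Q : ℝ) ≤ (N : ℝ) ^ δ₁ := Nat.floor_le (by positivity)
  set L : ℕ := ⌈(N : ℝ) ^ (δ₁ + 4 * σ)⌉₊ with hL
  have hLlow : (N : ℝ) ^ (δ₁ + 4 * σ) ≤ L := Nat.le_ceil _
  have hone : (1 : ℝ) ≤ (N : ℝ) ^ (δ₁ + 4 * σ) := Real.one_le_rpow hN1 (by positivity)
  have hLup : (L : ℝ) ≤ 2 * (N : ℝ) ^ (δ₁ + 4 * σ) := by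
    have := Nat.ceil_lt_add_one (show 0 ≤ (N : ℝ) ^ (δ₁ + 4 * σ) by positivity)
    rw [← hL] at this
    linarith
  have hL0 : 0 < L := by
    have : (0 : ℝ) < L := by linarith
    exact_mod_cast this
  have hL0' : (0 : ℝ) < L := by exact_mod_cast hL0
  -- pigeonhole
  have hcard : ((Icc 1 Q) ×ˢ ((univ : Finset (Fin N)) ×ˢ range (N / L + 1))).card < G.card := by
    have e1 : (((Icc 1 Q) ×ˢ ((univ : Finset (Fin N)) ×ˢ range (N / L + 1))).card : ℝ) =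
        Q * (N * (((N / L : ℕ) : ℝ) + 1)) := by
      rw [card_product, card_product, Nat.card_Icc, card_range, card_univ, Fintype.card_fin]
      push_cast
      ring
    have e2 : ((N / L : ℕ) : ℝ) ≤ (N : ℝ) ^ (1 - (δ₁ + 4 * σ)) := by
      refine Nat.cast_div_le.trans ?_
      rw [div_le_iff₀ hL0']
      calc (N : ℝ) = (N : ℝ) ^ (1 - (δ₁ + 4 * σ)) * (N : ℝ) ^ (δ₁ + 4 * σ) := by
            rw [← Real.rpow_add hN0]
            simp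
        _ ≤ _ := by gcongr
    have e3 : (1 : ℝ) ≤ (N : ℝ) ^ (1 - (δ₁ + 4 * σ)) := Real.one_le_rpow hN1 (by linarith)
    have e4 : (Q : ℝ) * (N * (((N / L : ℕ) : ℝ) + 1)) < G.card := by
      calc (Q : ℝ) * (N * (((N / L : ℕ) : ℝ) + 1)) ≤
          (N : ℝ) ^ δ₁ * (N * ((N : ℝ) ^ (1 - (δ₁ + 4 * σ)) + (N : ℝ) ^ (1 - (δ₁ + 4 * σ)))) := by
            gcongr
        _ = 2 * ((N : ℝ) ^ δ₁ * ((N : ℝ) ^ (1 : ℝ) * (N : ℝ) ^ (1 - (δ₁ + 4 * σ)))) := by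
            rw [Real.rpow_one]
            ring
        _ = 2 * (N : ℝ) ^ ((2 : ℝ) - 4 * σ) := by
            rw [← Real.rpow_add hN0, ← Real.rpow_add hN0]
            congr 2
            ring
        _ < 4 * (N : ℝ) ^ ((2 : ℝ) - 4 * σ) := by
            have : 0 < (N : ℝ) ^ ((2 : ℝ) - 4 * σ) := by positivity
            linarith
        _ ≤ _ := hp2.trans h5
    rw [← e1] at e4
    exact_mod_cast e4
  obtain ⟨p, hp, p', hp', hne, heq⟩ := exists_ne_map_eq_of_card_lt_of_maps_to hcard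
    (f := fun p => (q p, p.2, (p.1 : ℕ) / L)) (by
      intro p hp
      obtain ⟨h6, h7, -⟩ := hqm p hp
      rw [mem_coe, mem_product, mem_product, Finset.mem_Icc, mem_range]
      refine ⟨⟨h6, Nat.le_floor h7⟩, mem_univ _, ?_⟩
      exact Nat.lt_succ_of_le (Nat.div_le_div_right p.1.2.le))
  simp only [Prod.mk.injEq] at heq
  obtain ⟨hq1, hz, hblock⟩ := heq
  obtain ⟨h6, h7, h8⟩ := hqm p hp
  obtain ⟨-, -, h8'⟩ := hqm p' hp'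
  rw [← hq1, ← hz] at h8'
  -- the difference
  have key : ∀ a b : ℕ, ∀ m₁ m₂ : ℤ, a < b → a / L = b / L →
      |(q p : ℝ) * (θ * ((a : ℝ) - ((p.2 : ℕ) : ℝ))) - m₁| ≤ 2 ^ k * (N : ℝ) ^ (-(3 / 2) : ℝ) →
      |(q p : ℝ) * (θ * ((b : ℝ) - ((p.2 : ℕ) : ℝ))) - m₂| ≤ 2 ^ k * (N : ℝ) ^ (-(3 / 2) : ℝ) →
      ∃ (q : ℕ) (m : ℤ), 1 ≤ q ∧ (q : ℝ) ≤ (N : ℝ) ^ δ ∧
        |q * θ - m| ≤ 2 ^ (k + 1) * (N : ℝ) ^ (-(3 / 2) : ℝ) := by
    intro a b m₁ m₂ hab hdiv ha hb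
    have hlt : b - a < L := by
      have e1 := Nat.div_add_mod a L
      have e2 := Nat.div_add_mod b L
      have e3 := Nat.mod_lt a hL0
      have e4 := Nat.mod_lt b hL0
      rw [hdiv] at e1
      omega
    refine ⟨q p * (b - a), m₂ - m₁, ?_, ?_, ?_⟩
    · exact Nat.mul_pos h6 (by omega)
    · push_cast
      have e1 : ((b - a : ℕ) : ℝ) ≤ L := by exact_mod_cast hlt.le
      calc (q p : ℝ) * ((b - a : ℕ) : ℝ) ≤ (N : ℝ) ^ δ₁ * (2 * (N : ℝ) ^ (δ₁ + 4 * σ)) := by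
            gcongr
            exact e1.trans hLup
        _ = 2 * ((N : ℝ) ^ δ₁ * (N : ℝ) ^ (δ₁ + 4 * σ)) := by ring
        _ = 2 * (N : ℝ) ^ (2 * δ₁ + 4 * σ) := by
            rw [← Real.rpow_add hN0]
            congr 2
            ring
        _ ≤ _ := hp3
    · have e1 : ((q p * (b - a) : ℕ) : ℝ) * θ - ((m₂ - m₁ : ℤ) : ℝ) =
          ((q p : ℝ) * (θ * ((b : ℝ) - ((p.2 : ℕ) : ℝ))) - m₂) -
          ((q p : ℝ) * (θ * ((a : ℝ) - ((p.2 : ℕ) : ℝ))) - m₁) := by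
        push_cast [Nat.cast_sub hab.le]
        ring
      rw [e1]
      calc _ ≤ _ := abs_sub _ _
        _ ≤ 2 ^ k * (N : ℝ) ^ (-(3 / 2) : ℝ) + 2 ^ k * (N : ℝ) ^ (-(3 / 2) : ℝ) := add_le_add hb ha
        _ = _ := by ring
  have hne1 : (p.1 : ℕ) ≠ (p'.1 : ℕ) := by
    intro h
    apply hne
    exact Prod.ext (Fin.ext h) hz
  rcases lt_or_gt_of_ne hne1 with h | h
  · exact key _ _ _ _ h hblock h8 h8'
  · exact key _ _ _ _ h hblock.symm h8' h8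

/-- The inverse theorem: if a multilinear sum is almost as large as possible then the frequency is
near a rational number with a small denominator. -/
theorem inverse (k : ℕ) : ∀ δ : ℝ, 0 < δ → ∃ δ' : ℝ, 0 < δ' ∧ ∀ᶠ N : ℕ in atTop, ∀ (θ : ℝ)
    (u : Fin (k + 2) → (Fin (k + 2) → Fin N) → ℂ), Adm (k + 2) u →
    (N : ℝ) ^ ((k : ℝ) + 2 - δ') ≤ ‖MS (k + 2) u θ‖ →
    ∃ (q : ℕ) (m : ℤ), 1 ≤ q ∧ (q : ℝ) ≤ (N : ℝ) ^ δ ∧
      |q * θ - m| ≤ 2 ^ k * (N : ℝ) ^ (-(3 / 2) : ℝ) := by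
  induction k with
  | zero =>
    intro δ hδ
    obtain ⟨δ', hδ', h⟩ := inverse_base δ hδ
    refine ⟨δ', hδ', ?_⟩
    filter_upwards [h] with N hN
    intro θ u hu hbig
    rw [Nat.cast_zero, zero_add] at hbig
    obtain ⟨q, m, h1, h2, h3⟩ := hN θ u hu hbig
    exact ⟨q, m, h1, h2, by rw [pow_zero, one_mul]; exact h3⟩
  | succ k ih =>
    intro δ' hδ'
    set δ : ℝ := min δ' 1 with hδdef
    have hδ : 0 < δ := lt_min hδ' one_pos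
    have hδδ' : δ ≤ δ' := min_le_left _ _
    have hδ1 : δ ≤ 1 := min_le_right _ _
    obtain ⟨δ₁', hδ₁', h⟩ := ih (δ / 4) (by positivity)
    set σ : ℝ := min (δ₁' / 4) (δ / 16) with hσ
    have hσ0 : 0 < σ := lt_min (by positivity) (by positivity)
    have hσ1 : 4 * σ ≤ δ₁' := by
      have := min_le_left (δ₁' / 4) (δ / 16)
      rw [← hσ] at this
      linarith
    have hσ2 : σ ≤ δ / 16 := min_le_right _ _
    refine ⟨σ, hσ0, ?_⟩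
    filter_upwards [h, eventually_ge_atTop 1, ev_pow_nat ((2 : ℝ) - 3 * σ) ((2 : ℝ) - 2 * σ) 2 (by linarith),
      ev_pow_nat ((2 : ℝ) - 4 * σ) ((2 : ℝ) - 3 * σ) 4 (by linarith),
      ev_pow_nat (2 * (δ / 4) + 4 * σ) δ 2 (by linarith)] with N hN hN1 hp1 hp2 hp3
    intro θ u hu hbig
    obtain ⟨q, m, h1, h2, h3⟩ := inverse_step k (δ / 4) δ₁' δ σ (by positivity) hδ₁' (by linarith) hσ0
      hσ1 hδ1 N hN1 hp1 hp2 hp3 hN θ u hu (by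
        refine le_trans (le_of_eq ?_) hbig
        congr 1
        push_cast
        ring)
    exact ⟨q, m, h1, h2.trans (Real.rpow_le_rpow_of_exponent_le (by exact_mod_cast hN1) hδδ'), h3⟩

end Pool.Agent.Y565.RG
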