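import Pool.Agent.Y565.RG.Multi3

set_option autoImplicit false

/-!
Record prime-free neighbourhoods of `α x₁ ⋯ x_k + ∑ F_i x`, `F_i` an arbitrary function of the
variables other than `x_i`, for `x` in an arbitrary dense intersection of cylinders.
-/

namespace Pool.Agent.Y565.RG

open Finset Filter
open Pool.Agent.H469R2.NK (e norm_e e_add conj_e)
open Pool.Agent.W147.PS (ff ff_compare ev_pow)
open Pool.Agent.TH915.PW (GS GS_frequent GS_eventually freq_approx dist_of_approx)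

/-- `f` does not depend on the variable number `i` -/
def IndepOf {k : ℕ} {β : Type} (i : Fin k) (f : (Fin k → ℕ) → β) : Prop :=
  ∀ x y : Fin k → ℕ, (∀ j, j ≠ i → x j = y j) → f x = f y

/-- `E` is an intersection of cylinders in the box `[1, Z] ^ k` -/
def CylInt {k : ℕ} (Z : ℝ) (E : Finset (Fin k → ℕ)) : Prop :=
  ∃ W : Fin k → (Fin k → ℕ) → Prop, (∀ i, IndepOf i (W i)) ∧
    ∀ x, x ∈ E ↔ (∀ i, 1 ≤ x i ∧ (x i : ℝ) ≤ Z) ∧ ∀ i, W i x

lemma e_sum {ι : Type} (s : Finset ι) (f : ι → ℝ) : e (∑ i ∈ s, f i) = ∏ i ∈ s, e (f i) := by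
  classical
  induction s using Finset.induction_on with
  | empty =>
    have h1 := e_add 0 0
    rw [add_zero] at h1
    have h2 : e 0 ≠ 0 := by
      intro h
      have := norm_e 0
      rw [h, norm_zero] at this
      exact zero_ne_one this
    simp only [sum_empty, prod_empty]
    have h3 : e 0 * 1 = e 0 * e 0 := by rw [mul_one]; exact h1
    exact (mul_left_cancel₀ h2 h3).symm
  | insert a s ha ih => rw [sum_insert ha, prod_insert ha, e_add, ih]

open Classical in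
/-- a sum over an intersection of cylinders as a multilinear sum -/
lemma sum_eq_MS {k : ℕ} {Z : ℝ} (hZ : 0 ≤ Z) {E : Finset (Fin k → ℕ)}
    {W : Fin k → (Fin k → ℕ) → Prop}
    (hE : ∀ x, x ∈ E ↔ (∀ i, 1 ≤ x i ∧ (x i : ℝ) ≤ Z) ∧ ∀ i, W i x)
    (F : Fin k → (Fin k → ℕ) → ℝ) (α t : ℝ) :
    ∑ x ∈ E, e (t * (α * ∏ j, (x j : ℝ) + ∑ i, F i x)) =
      MS (N := ⌊Z⌋₊) k (fun i x => if W i (fun j => (x j : ℕ) + 1) then
        e (t * F i (fun j => (x j : ℕ) + 1)) else 0) (t * α) := by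
  set N : ℕ := ⌊Z⌋₊ with hN
  set sh : (Fin k → Fin N) → (Fin k → ℕ) := fun x j => (x j : ℕ) + 1 with hsh
  have hinj : Function.Injective sh := by
    intro x y h
    funext j
    have h1 := congrFun h j
    rw [hsh] at h1
    apply Fin.ext
    simpa using h1
  have himg : E = (univ.filter fun x : Fin k → Fin N => sh x ∈ E).image sh := by
    ext y
    rw [mem_image]
    constructor
    · intro hy
      have h1 := ((hE y).1 hy).1
      have h2 : ∀ j, y j - 1 < N := by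
        intro j
        have h3 : y j ≤ N := Nat.le_floor (h1 j).2
        have h4 := (h1 j).1
        omega
      have h5 : sh (fun j => ⟨y j - 1, h2 j⟩) = y := by
        funext j
        rw [hsh]
        have := (h1 j).1
        simp only
        omega
      exact ⟨_, by rw [mem_filter, h5]; exact ⟨mem_univ _, hy⟩, h5⟩
    · rintro ⟨x, hx, rfl⟩
      exact (mem_filter.1 hx).2
  have hmem : ∀ x : Fin k → Fin N, sh x ∈ E ↔ ∀ i, W i (sh x) := by
    intro x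
    rw [hE]
    refine ⟨fun h => h.2, fun h => ⟨fun i => ⟨by rw [hsh]; simp, ?_⟩, h⟩⟩
    have h1 : (x i : ℕ) + 1 ≤ N := (x i).2
    have h2 : (((x i : ℕ) + 1 : ℕ) : ℝ) ≤ N := by exact_mod_cast h1
    exact h2.trans (Nat.floor_le hZ)
  conv_lhs => rw [himg]
  rw [sum_image fun _ _ _ _ h => hinj h, sum_filter]
  unfold MS
  refine sum_congr rfl fun x _ => ?_
  by_cases hx : sh x ∈ E
  · have h1 := (hmem x).1 hx
    rw [if_pos hx]
    have h2 : ∀ i : Fin k, (if W i (sh x) then e (t * F i (sh x)) else 0) = e (t * F i (sh x)) :=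
      fun i => if_pos (h1 i)
    have h3 : ∏ i, (if W i (sh x) then e (t * F i (sh x)) else 0) = ∏ i, e (t * F i (sh x)) :=
      prod_congr rfl fun i _ => h2 i
    change _ = (∏ i, (if W i (sh x) then e (t * F i (sh x)) else 0)) * _
    rw [h3, ← e_sum, ← e_add]
    congr 1
    have h4 : ∏ j, ((sh x j : ℕ) : ℝ) = ∏ j, (((x j : ℕ) : ℝ) + 1) := by
      refine prod_congr rfl fun j _ => ?_
      rw [hsh]
      push_cast
      rfl
    rw [h4, ← mul_sum]
    ring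
  · rw [if_neg hx]
    rw [hmem] at hx
    push Not at hx
    obtain ⟨i, hi⟩ := hx
    change _ = (∏ i, (if W i (sh x) then e (t * F i (sh x)) else 0)) * _
    rw [prod_eq_zero (mem_univ i) (if_neg hi), zero_mul]

open Classical in
lemma adm_of {k N : ℕ} {W : Fin k → (Fin k → ℕ) → Prop} (hW : ∀ i, IndepOf i (W i))
    {F : Fin k → (Fin k → ℕ) → ℝ} (hF : ∀ i, IndepOf i (F i)) (t : ℝ) :
    Adm (N := N) k (fun i x => if W i (fun j => (x j : ℕ) + 1) then
        e (t * F i (fun j => (x j : ℕ) + 1)) else 0) := by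
  constructor
  · intro i x
    by_cases h : W i (fun j => (x j : ℕ) + 1)
    · simp only [h, if_true]
      exact (norm_e _).le
    · simp [h]
  · intro i x a
    have h1 : ∀ j, j ≠ i → ((Function.update x i a j : Fin N) : ℕ) + 1 = (x j : ℕ) + 1 := by
      intro j hj
      rw [Function.update_of_ne hj]
    have h2 := hW i (fun j => ((Function.update x i a j : Fin N) : ℕ) + 1)
      (fun j => (x j : ℕ) + 1) h1
    have h3 := hF i (fun j => ((Function.update x i a j : Fin N) : ℕ) + 1)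
      (fun j => (x j : ℕ) + 1) h1
    simp only [h2, h3]

/-- the conclusion at the scale `Z` -/
def Good (k : ℕ) (α δ ε κ Z : ℝ) : Prop :=
  ∀ (E : Finset (Fin k → ℕ)) (F : Fin k → (Fin k → ℕ) → ℝ), CylInt Z E →
    (∀ i, IndepOf i (F i)) → Z ^ ((k : ℝ) - δ) ≤ E.card →
    (∀ x ∈ E, Z ^ ε ≤ α * ∏ j, (x j : ℝ) + ∑ i, F i x) →
    ∃ G : Finset (Fin k → ℕ), G ⊆ E ∧ (E.card : ℝ) * Z ^ (-ε) ≤ G.card ∧
      ∀ x ∈ G, ∀ q : ℕ, q.Prime →
        κ * (Real.log Z * (Real.log (Real.log Z)) ^ 2 *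
          Real.log (Real.log (Real.log (Real.log Z))) / (Real.log (Real.log (Real.log Z))) ^ 2) <
            |(q : ℝ) - (α * ∏ j, (x j : ℝ) + ∑ i, F i x)|

set_option maxHeartbeats 1000000 in
theorem multi_scale (k : ℕ) (τ : ℝ) (hτ0 : 0 < τ) (hτ1 : τ ≤ 1 / 2) : ∃ δ : ℝ, 0 < δ ∧
    ∀ ε : ℝ, 0 < ε → ε ≤ 1 → ∃ κ : ℝ, 0 < κ ∧ ∀ᶠ Z : ℝ in atTop, ∀ α : ℝ, GS α τ Z →
      Good (k + 2) α δ ε κ Z := by
  classical
  obtain ⟨δ₀, hδ₀, hinv⟩ := inverse k (τ / 8) (by positivity)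
  set δ' : ℝ := min δ₀ 1 with hδdef
  have hδ' : 0 < δ' := lt_min hδ₀ one_pos
  have hδ'1 : δ' ≤ 1 := min_le_right _ _
  have hδ'0 : δ' ≤ δ₀ := min_le_left _ _
  refine ⟨δ' / 2, by positivity, fun ε hε hε1 => ?_⟩
  set η : ℝ := min (min (τ / 100) (ε / 8)) (δ' / 16) with hη
  have hη0 : 0 < η := lt_min (lt_min (by positivity) (by positivity)) (by positivity)
  have hητ : η ≤ τ / 100 := (min_le_left _ _).trans (min_le_left _ _)
  have hηε : η ≤ ε / 8 := (min_le_left _ _).trans (min_le_right _ _)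
  have hηδ : η ≤ δ' / 16 := min_le_right _ _
  obtain ⟨κ, hκ, hcrit⟩ := crit_count η hη0 (by linarith)
  refine ⟨κ, hκ, ?_⟩
  have hfl : Tendsto (fun Z : ℝ => ⌊Z⌋₊) atTop atTop := tendsto_nat_floor_atTop
  filter_upwards [hcrit, freq_approx τ η (τ / 4) hη0 (by positivity) (by linarith) (by linarith)
      1 le_rfl, eventually_ge_atTop (2 : ℝ), hfl.eventually hinv,
    ev_pow (τ / 8) (τ / 4) 2 (by linarith), ev_pow (-(3 / 2)) (-1) (2 ^ k * 2 ^ (3 / 2 : ℝ) * 4) (by norm_num),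
    ev_pow (-(δ' / 2)) (-(4 * η)) 8 (by linarith), ev_pow (-ε) (-(4 * η)) 2 (by linarith)]
    with Z hcr hfr hZ2 hinvZ hp1 hp2 hp3 hp4
  intro α hGS E F hcyl hF hcard hlow
  obtain ⟨W, hW, hE⟩ := hcyl
  have hZ0 : 0 < Z := by linarith
  have hZ1 : 1 ≤ Z := by linarith
  set N : ℕ := ⌊Z⌋₊ with hN
  have hNZ : (N : ℝ) ≤ Z := Nat.floor_le hZ0.le
  have hNZ2 : Z / 2 ≤ (N : ℝ) := by
    have := Nat.lt_floor_add_one Z
    rw [← hN] at this
    linarith
  have hN0 : (0 : ℝ) < N := by linarith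
  have hN1 : (1 : ℝ) ≤ N := by linarith
  have hEpos : (0 : ℝ) < E.card := lt_of_lt_of_le (by positivity) hcard
  obtain ⟨G, hG1, hG2, hG3⟩ := hcr (Fin (k + 2) → ℕ) E
    (fun x => α * ∏ j, (x j : ℝ) + ∑ i, F i x) (by
      rw [← Finset.card_pos]
      exact_mod_cast hEpos) (by
      intro x hx
      refine le_trans ?_ (hlow x hx)
      exact Real.rpow_le_rpow_of_exponent_le hZ1 (by linarith)) (by
      intro q h hq hqZ hh hhZ
      obtain ⟨c, D, hcop, hD1, hD2, hap⟩ := hfr α hGS h q hh hhZ hq hqZ 0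
      simp only [Int.cast_zero, zero_div, add_zero] at hap
      rw [sum_eq_MS hZ0.le hE F α ((h : ℝ) / q)]
      set u : Fin (k + 2) → (Fin (k + 2) → Fin N) → ℂ := fun i x =>
        if W i (fun j => (x j : ℕ) + 1) then
          e ((h : ℝ) / q * F i (fun j => (x j : ℕ) + 1)) else 0 with hu
      have hadm : Adm (k + 2) u := adm_of hW hF _
      have hlt : ‖MS (k + 2) u ((h : ℝ) / q * α)‖ < (N : ℝ) ^ ((k : ℝ) + 2 - δ') := by
        by_contra hcon
        rw [not_lt] at hcon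
        obtain ⟨q', m, hq1, hq2, hq3⟩ := hinvZ _ u hadm (le_trans
          (Real.rpow_le_rpow_of_exponent_le hN1 (by linarith)) hcon)
        have hq4 : (q' : ℝ) ≤ Z ^ (τ / 8) :=
          hq2.trans (Real.rpow_le_rpow hN0.le hNZ (by positivity))
        have hq5 : 2 * q' ≤ D := by
          have : (2 : ℝ) * q' ≤ D := by linarith
          exact_mod_cast this
        have hdist := dist_of_approx hcop hap hq1 hq5 m
        have hD0 : (0 : ℝ) < D := by
          have : 0 < D := by omega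
          exact_mod_cast this
        have hDZ : (D : ℝ) ≤ Z := by
          refine hD2.trans ?_
          conv_rhs => rw [← Real.rpow_one Z]
          exact Real.rpow_le_rpow_of_exponent_le hZ1 (by linarith)
        have h1 : 1 / (2 * Z) ≤ 1 / (2 * (D : ℝ)) :=
          one_div_le_one_div_of_le (by positivity) (by linarith)
        have h2 : (N : ℝ) ^ (-(3 / 2) : ℝ) ≤ 2 ^ (3 / 2 : ℝ) * Z ^ (-(3 / 2) : ℝ) := by
          have h3 : (N : ℝ) ^ (-(3 / 2) : ℝ) ≤ (Z / 2) ^ (-(3 / 2) : ℝ) :=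
            Real.rpow_le_rpow_of_nonpos (by positivity) hNZ2 (by norm_num)
          refine h3.trans (le_of_eq ?_)
          rw [Real.div_rpow hZ0.le (by norm_num), Real.rpow_neg (by norm_num : (0 : ℝ) ≤ 2)]
          field_simp
        have h4 : 2 ^ k * (N : ℝ) ^ (-(3 / 2) : ℝ) ≤ 1 / (4 * Z) := by
          have h5 : (2 : ℝ) ^ k * (N : ℝ) ^ (-(3 / 2) : ℝ) * 4 ≤ Z ^ (-1 : ℝ) := by
            calc (2 : ℝ) ^ k * (N : ℝ) ^ (-(3 / 2) : ℝ) * 4 ≤
                2 ^ k * (2 ^ (3 / 2 : ℝ) * Z ^ (-(3 / 2) : ℝ)) * 4 := by gcongr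
              _ = 2 ^ k * 2 ^ (3 / 2 : ℝ) * 4 * Z ^ (-(3 / 2) : ℝ) := by ring
              _ ≤ _ := hp2
          rw [Real.rpow_neg_one] at h5
          have h6 : 1 / (4 * Z) = Z⁻¹ / 4 := by
            field_simp
          rw [h6]
          linarith
        have h7 : 1 / (4 * Z) < 1 / (2 * Z) :=
          one_div_lt_one_div_of_lt (by positivity) (by linarith)
        linarith
      refine hlt.le.trans ?_
      have h1 : (N : ℝ) ^ ((k : ℝ) + 2 - δ') ≤ Z ^ (((k + 2 : ℕ) : ℝ) - δ' / 2) * Z ^ (-(δ' / 2)) := by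
        rw [← Real.rpow_add hZ0]
        have h2 : ((k + 2 : ℕ) : ℝ) - δ' / 2 + -(δ' / 2) = (k : ℝ) + 2 - δ' := by
          push_cast
          ring
        rw [h2]
        have hk0 : (0 : ℝ) ≤ k := Nat.cast_nonneg k
        exact Real.rpow_le_rpow hN0.le hNZ (by linarith)
      calc (N : ℝ) ^ ((k : ℝ) + 2 - δ') ≤
          Z ^ (((k + 2 : ℕ) : ℝ) - δ' / 2) * Z ^ (-(δ' / 2)) := h1
        _ ≤ E.card * Z ^ (-(δ' / 2)) := by gcongr
        _ ≤ E.card * (Z ^ (-(4 * η)) / 8) := by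
            gcongr
            linarith
        _ = _ := by ring)
  refine ⟨G, hG1, ?_, ?_⟩
  · refine le_trans ?_ hG2
    have h6 : (E.card : ℝ) * (2 * Z ^ (-ε)) ≤ (E.card : ℝ) * Z ^ (-(4 * η)) := by
      gcongr
    linarith
  · intro x hx q hq
    exact hG3 x hx q hq

/-- both forms -/
theorem multi_both (k : ℕ) (hk : 2 ≤ k) :
    (∃ δ : ℝ, 0 < δ ∧ ∀ ε : ℝ, 0 < ε → ε ≤ 1 → ∃ κ : ℝ, 0 < κ ∧ ∀ α : ℝ, Irrational α →
      ∀ Z₁ : ℝ, ∃ Z : ℝ, Z₁ ≤ Z ∧ Good k α δ ε κ Z) ∧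
    (∀ α : ℝ, Irrational α → ¬ Liouville α → ∃ δ : ℝ, 0 < δ ∧ ∀ ε : ℝ, 0 < ε → ε ≤ 1 →
      ∃ κ : ℝ, 0 < κ ∧ ∃ Z₀ : ℝ, ∀ Z : ℝ, Z₀ ≤ Z → Good k α δ ε κ Z) := by
  obtain ⟨k, rfl⟩ : ∃ k', k = k' + 2 := ⟨k - 2, by omega⟩
  constructor
  · obtain ⟨δ, hδ, h⟩ := multi_scale k (1 / 2) (by norm_num) le_rfl
    refine ⟨δ, hδ, fun ε hε hε1 => ?_⟩
    obtain ⟨κ, hκ, h1⟩ := h ε hε hε1
    refine ⟨κ, hκ, fun α hα Z₁ => ?_⟩
    obtain ⟨Z₀, hZ₀⟩ := eventually_atTop.mp h1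
    obtain ⟨Z, hZ, hGS⟩ := GS_frequent hα (1 / 2) le_rfl (max Z₀ Z₁)
    exact ⟨Z, (le_max_right _ _).trans hZ, hZ₀ Z ((le_max_left _ _).trans hZ) α hGS⟩
  · intro α hα hL
    obtain ⟨τ, hτ0, hτ1, hGS⟩ := GS_eventually hα hL
    obtain ⟨δ, hδ, h⟩ := multi_scale k τ hτ0 hτ1
    refine ⟨δ, hδ, fun ε hε hε1 => ?_⟩
    obtain ⟨κ, hκ, h1⟩ := h ε hε hε1
    obtain ⟨Z₀, hZ₀⟩ := eventually_atTop.mp (h1.and hGS)
    exact ⟨κ, hκ, Z₀, fun Z hZ => (hZ₀ Z hZ).1 α (hZ₀ Z hZ).2⟩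

end Pool.Agent.Y565.RG
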