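import Pool.Agent.TH915.PW.Scaled
import Pool.Agent.TH915.PW.PrimeSum
import Pool.Agent.TH915.PW.APCount
import Pool.Agent.H895R3.NK.E4

set_option autoImplicit false

/-!
Record prime-free neighbourhoods of the quotients `x / p + β`, `p` prime, uniformly in `x`, `β` and
the size of `p`.
-/

namespace Pool.Agent.Y565.RG

open Finset Filter
open Pool.Agent.H469R2.NK (e norm_e e_add)
open Pool.Agent.W147.PS (ff ff_compare ev_pow)
open Pool.Agent.TH915.PW (crit_scaled card_primes prime_bound abel_bound)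
open Pool.Agent.H895R3.NK (prime_exp_bound ev_log')

/-- power saving for the phase `ξ / n` over the primes -/
lemma quot_sum (d : ℕ) (δ : ℝ) (hδ : 0 < δ) : ∃ ρ : ℝ, 0 < ρ ∧ ρ ≤ 1 / 8 ∧ ∃ N₀ : ℕ, ∀ N N' : ℕ,
    N₀ ≤ N → N ≤ N' → N' ≤ 2 * N → ∀ ξ : ℝ, (N : ℝ) ^ (1 + δ) ≤ ξ → ξ ≤ (N : ℝ) ^ d →
    ‖∑ n ∈ Ioc N N', ((ArithmeticFunction.vonMangoldt n : ℝ) : ℂ) * e (ξ / (n : ℝ))‖ ≤
      (N : ℝ) ^ (1 - ρ) := by
  obtain ⟨η, hη0, hη1, C, hC, h⟩ := prime_exp_bound d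
  set δ' : ℝ := min δ (η / 4) with hδ'
  have hδ'0 : 0 < δ' := lt_min hδ (by positivity)
  have hδ'δ : δ' ≤ δ := min_le_left _ _
  have hδ'η : δ' ≤ η / 4 := min_le_right _ _
  set B : ℝ := (8 * √(2 * C) + 6 * C) * 729 with hB
  obtain ⟨N₁, hN₁⟩ := ev_log' (δ' / 8) (by positivity) 7 B
  refine ⟨δ' / 4, by positivity, by linarith, N₁ + 10 ^ 4, fun N N' hN hNN' hN' ξ hξ1 hξ2 => ?_⟩
  obtain ⟨h12, hBl, hl1, hLg, hpow⟩ := hN₁ N (by omega)
  have hNr : (12 : ℝ) ≤ N := by exact_mod_cast h12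
  have hN0 : (0 : ℝ) < N := by linarith
  have hN1 : (1 : ℝ) ≤ N := by linarith
  have hξ0 : 0 < ξ := lt_of_lt_of_le (by positivity) hξ1
  refine (h N N' (by omega) hNN' hN' ξ hξ0 hξ2).trans ?_
  set Lg : ℝ := 1 + Real.log (4 * N) with hLgdef
  have hLg1 : 1 ≤ Lg := by
    have : 0 ≤ Real.log (4 * N) := Real.log_nonneg (by linarith)
    linarith
  set P : ℝ := (N : ℝ) ^ (-δ') with hP
  have hP0 : 0 < P := by positivity
  have hP1 : (N : ℝ) ^ (-(η / 4)) ≤ P := Real.rpow_le_rpow_of_exponent_le hN1 (by linarith)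
  have hinv : 1 / ξ ≤ P / N := by
    have h1 : (N : ℝ) ^ (1 + δ') ≤ ξ :=
      (Real.rpow_le_rpow_of_exponent_le hN1 (by linarith)).trans hξ1
    have h2 : P / N = 1 / (N : ℝ) ^ (1 + δ') := by
      rw [hP, Real.rpow_add hN0, Real.rpow_one, Real.rpow_neg hN0.le]
      field_simp
    rw [h2]
    exact one_div_le_one_div_of_le (by positivity) h1
  have hA : (N : ℝ) ^ 3 * Lg / ξ ≤ (N : ℝ) ^ 2 * P * Lg := by
    calc (N : ℝ) ^ 3 * Lg / ξ = (N : ℝ) ^ 3 * Lg * (1 / ξ) := by ring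
      _ ≤ (N : ℝ) ^ 3 * Lg * (P / N) := by gcongr
      _ = _ := by field_simp
  have hA2 : (N : ℝ) ^ 2 / ξ ≤ N * P := by
    calc (N : ℝ) ^ 2 / ξ = (N : ℝ) ^ 2 * (1 / ξ) := by ring
      _ ≤ (N : ℝ) ^ 2 * (P / N) := by gcongr
      _ = _ := by field_simp
  set R : ℝ := (N : ℝ) ^ (1 - δ' / 2) with hR
  have hR0 : 0 < R := by positivity
  have hR2 : R ^ 2 = (N : ℝ) ^ 2 * P := by
    rw [hR, hP, ← Real.rpow_natCast, ← Real.rpow_natCast, ← Real.rpow_mul hN0.le,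
      ← Real.rpow_add hN0]
    congr 1
    push_cast
    ring
  have hNP : N * P ≤ R := by
    rw [hR, hP]
    nth_rewrite 1 [← Real.rpow_one (N : ℝ)]
    rw [← Real.rpow_add hN0]
    exact Real.rpow_le_rpow_of_exponent_le hN1 (by linarith)
  have hsq : Real.sqrt (C * ((N : ℝ) ^ 2 * ((N : ℝ) ^ (-(η / 4))) + (N : ℝ) ^ 3 * Lg / ξ)) ≤
      √(2 * C) * Lg * R := by
    rw [Real.sqrt_le_left (by positivity)]
    have h1 : (√(2 * C) * Lg * R) ^ 2 = 2 * C * (Lg ^ 2 * ((N : ℝ) ^ 2 * P)) := by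
      rw [mul_pow, mul_pow, Real.sq_sqrt (by positivity), hR2]
      ring
    rw [h1]
    have h2 : (N : ℝ) ^ 2 * ((N : ℝ) ^ (-(η / 4))) ≤ (N : ℝ) ^ 2 * P := by gcongr
    have h3 : (N : ℝ) ^ 2 * P ≤ Lg ^ 2 * ((N : ℝ) ^ 2 * P) :=
      le_mul_of_one_le_left (by positivity) (by nlinarith)
    have h4 : (N : ℝ) ^ 2 * P * Lg ≤ Lg ^ 2 * ((N : ℝ) ^ 2 * P) := by
      have : 0 < (N : ℝ) ^ 2 * P := by positivity
      nlinarith
    have h5 : (N : ℝ) ^ 2 * ((N : ℝ) ^ (-(η / 4))) + (N : ℝ) ^ 3 * Lg / ξ ≤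
        2 * (Lg ^ 2 * ((N : ℝ) ^ 2 * P)) := by linarith
    calc _ ≤ C * (2 * (Lg ^ 2 * ((N : ℝ) ^ 2 * P))) := by gcongr
      _ = _ := by ring
  have hLg6 : Lg ^ 2 ≤ Lg ^ 6 := pow_le_pow_right₀ hLg1 (by norm_num)
  have hfin : 8 * Lg ^ 5 * (√(2 * C) * Lg * R) + 3 * Lg * (C * (R + R) * Lg) ≤
      (8 * √(2 * C) + 6 * C) * Lg ^ 6 * R := by
    have h1 : C * Lg ^ 2 * R ≤ C * Lg ^ 6 * R := by gcongr
    nlinarith
  have hl0 : 0 ≤ Real.log (N : ℝ) := by linarith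
  calc 8 * Lg ^ 5 * Real.sqrt (C * ((N : ℝ) ^ 2 * ((N : ℝ) ^ (-(η / 4))) +
          (N : ℝ) ^ 3 * Lg / ξ)) +
        3 * Lg * (C * ((N : ℝ) ^ 2 / ξ + (N : ℝ) * (N : ℝ) ^ (-(η / 4))) * Lg)
      ≤ 8 * Lg ^ 5 * (√(2 * C) * Lg * R) + 3 * Lg * (C * (R + R) * Lg) := by
        have h1 : (N : ℝ) ^ 2 / ξ ≤ R := hA2.trans hNP
        have h2 : (N : ℝ) * (N : ℝ) ^ (-(η / 4)) ≤ R :=
          le_trans (by gcongr) hNP
        gcongr
    _ ≤ (8 * √(2 * C) + 6 * C) * Lg ^ 6 * R := hfin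
    _ ≤ (8 * √(2 * C) + 6 * C) * (3 * Real.log N) ^ 6 * R := by gcongr
    _ = B * Real.log N ^ 6 * R := by rw [hB]; ring
    _ ≤ Real.log N * Real.log N ^ 6 * R := by gcongr
    _ = Real.log N ^ 7 * R := by ring
    _ ≤ (N : ℝ) ^ (δ' / 8) * R := by gcongr
    _ = (N : ℝ) ^ (δ' / 8 + (1 - δ' / 2)) := by rw [hR, ← Real.rpow_add hN0]
    _ ≤ _ := Real.rpow_le_rpow_of_exponent_le hN1 (by linarith)

set_option maxHeartbeats 4000000 in
/-- the uniform theorem -/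
theorem quot_uniform (ε : ℝ) (hε : 0 < ε) (hε1 : ε ≤ 1 / 2) :
    ∃ κ : ℝ, 0 < κ ∧ ∀ᶠ x : ℝ in atTop, ∀ Z β : ℝ, x ^ ε ≤ Z → Z ≤ x ^ (1 - ε) →
      |β| ≤ x ^ ε / 4 →
      ∃ G : Finset ℕ, Z ^ (1 - ε) ≤ (G.card : ℝ) ∧ ∀ p ∈ G, p.Prime ∧
        Z < p ∧ (p : ℝ) ≤ (1 + ε) * Z ∧
        ∀ q : ℕ, q.Prime → κ * ff x < |(q : ℝ) - (x / p + β)| := by
  classical
  obtain ⟨d, hd⟩ := exists_nat_ge (4 / ε)
  obtain ⟨ρ, hρ0, hρ1, N₀, hqs⟩ := quot_sum d (ε / 2) (by positivity)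
  set η : ℝ := ε ^ 2 * ρ / 16 with hη
  have hη0 : 0 < η := by positivity
  have hηa : η ≤ ε * ρ / 16 := by
    rw [hη]
    have : ε ^ 2 ≤ ε := by nlinarith
    nlinarith
  have hηb : η ≤ ε ^ 2 / 16 := by
    rw [hη]
    have : ε ^ 2 * ρ ≤ ε ^ 2 * 1 := by gcongr; linarith
    linarith
  have hηc : η ≤ ε / 32 := by nlinarith
  have hηd : 4 * η / ε ≤ ε / 4 := by
    rw [div_le_iff₀ hε]
    nlinarith
  set ι : ℝ := min (ρ / 4) (ε / 8) with hι
  have hι0 : 0 < ι := lt_min (by positivity) (by positivity)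
  have hι1 : ι ≤ ρ / 4 := min_le_left _ _
  have hι2 : ι ≤ ε / 8 := min_le_right _ _
  obtain ⟨κ, hκ, hcrit⟩ := crit_scaled η hη0 (by linarith)
  obtain ⟨Z₁, hZ₁⟩ := eventually_atTop.mp (card_primes 1 one_pos 1 (by simp) ε ι hε (by linarith) hι0)
  have hlogev : ∀ᶠ Z : ℝ in atTop, Real.log (2 * Z) ≤ Z ^ (1 / 4 : ℝ) := by
    have e1 := (isLittleO_log_rpow_atTop (show (0 : ℝ) < 1 / 8 by norm_num)).def
      (show (0 : ℝ) < 1 by norm_num)
    have e2 : Tendsto (fun Z : ℝ => 2 * Z) atTop atTop := tendsto_id.const_mul_atTop (by norm_num)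
    filter_upwards [e2.eventually e1, eventually_ge_atTop (1 : ℝ),
      ev_pow (1 / 8) (1 / 4) (2 ^ (1 / 8 : ℝ)) (by norm_num)] with Z e3 e4 e5
    rw [Real.norm_eq_abs, Real.norm_eq_abs, abs_of_nonneg (Real.log_nonneg (by linarith)),
      abs_of_nonneg (by positivity), one_mul, Real.mul_rpow (by norm_num) (by linarith)] at e3
    linarith
  obtain ⟨Z₂, hZ₂⟩ := eventually_atTop.mp (hlogev.and ((ev_pow (3 / 4) (1 - ρ) 4
    (by linarith)).and (ev_pow (1 - ρ) (1 - ρ / 2) 2 (by linarith))))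
  refine ⟨κ, hκ, ?_⟩
  filter_upwards [hcrit, eventually_ge_atTop (4 : ℝ),
    (tendsto_rpow_atTop hε).eventually_ge_atTop (max (max Z₁ Z₂) (max 4 (N₀ + 1))),
    ev_pow (4 * η) (ε * ρ / 4) 8 (by nlinarith),
    ev_pow (-(4 * η)) 0 2 (by linarith),
    ev_pow 0 (ε * (ε / 2)) 2 (by positivity),
    ev_pow η ε 4 (by linarith)]
    with x hcr hx4 hxbig hq1 hq2 hq3 hq4
  intro Z β hZlo hZhi hβ
  rw [Real.rpow_zero] at hq2 hq3
  have hx0 : 0 < x := by linarith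
  have hx1 : 1 ≤ x := by linarith
  have hZZ1 : Z₁ ≤ Z := ((le_max_left _ _).trans (le_max_left _ _)).trans (hxbig.trans hZlo)
  have hZZ2 : Z₂ ≤ Z := ((le_max_right _ _).trans (le_max_left _ _)).trans (hxbig.trans hZlo)
  have hZ4 : 4 ≤ Z := ((le_max_left _ _).trans (le_max_right _ _)).trans (hxbig.trans hZlo)
  have hZN : (N₀ : ℝ) + 1 ≤ Z := ((le_max_right _ _).trans (le_max_right _ _)).trans
    (hxbig.trans hZlo)
  have hcard := hZ₁ Z hZZ1
  obtain ⟨hlog, hp1, hp2⟩ := hZ₂ Z hZZ2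
  have hZ0 : 0 < Z := by linarith
  have hZ1 : 1 ≤ Z := by linarith
  set m₀ : ℕ := ⌊Z⌋₊ with hm₀
  set m₁ : ℕ := ⌊(1 + ε) * Z⌋₊ with hm₁
  have hm04 : 4 ≤ m₀ := Nat.le_floor (by exact_mod_cast hZ4)
  have hm0N : N₀ ≤ m₀ := Nat.le_floor (by linarith)
  have hm0Z : (m₀ : ℝ) ≤ Z := Nat.floor_le hZ0.le
  have hm0Z2 : Z / 2 ≤ (m₀ : ℝ) := by
    have := Nat.lt_floor_add_one Z
    rw [← hm₀] at this
    linarith
  have hm1' : (m₁ : ℝ) ≤ (1 + ε) * Z := Nat.floor_le (by positivity)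
  have hm1 : (m₁ : ℝ) ≤ 2 * Z := by nlinarith
  have hm12 : m₁ ≤ 2 * m₀ := by
    have h2 := Nat.lt_floor_add_one Z
    rw [← hm₀] at h2
    have : (m₁ : ℝ) ≤ 2 * m₀ := by nlinarith
    exact_mod_cast this
  set Q : Finset ℕ := (Ioc m₀ m₁).filter (fun p => p.Prime ∧ p ≡ 1 [MOD 1]) with hQ
  have hQpos : (0 : ℝ) < Q.card := lt_of_lt_of_le (by positivity) hcard
  have hQmem : ∀ p ∈ Q, p.Prime ∧ Z < p ∧ (p : ℝ) ≤ (1 + ε) * Z := by
    intro p hp
    rw [hQ, Finset.mem_filter, Finset.mem_Ioc] at hp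
    refine ⟨hp.2.1, ?_, ?_⟩
    · exact (Nat.floor_lt hZ0.le).mp hp.1.1
    · have : (p : ℝ) ≤ m₁ := by exact_mod_cast hp.1.2
      linarith
  have hm01 : m₀ < m₁ := by
    have hQne : Q.Nonempty := by
      rw [← Finset.card_pos]
      exact_mod_cast hQpos
    obtain ⟨p, hp⟩ := hQne
    rw [hQ, Finset.mem_filter, Finset.mem_Ioc] at hp
    omega
  -- the exponential sums over `Q`
  have hexp : ∀ q h : ℕ, 1 ≤ q → (q : ℝ) ≤ x ^ η → 1 ≤ h → (h : ℝ) ≤ x ^ (4 * η) →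
      ‖∑ p ∈ Q, e ((h : ℝ) / q * (x / p + β))‖ ≤ 2 * Z ^ (1 - ρ) := by
    intro q h hq hqZ hh hhZ
    have hq0 : (0 : ℝ) < q := by exact_mod_cast hq
    have hh0 : (0 : ℝ) < h := by exact_mod_cast hh
    have hh1 : (1 : ℝ) ≤ h := by exact_mod_cast hh
    have hq1 : (1 : ℝ) ≤ q := by exact_mod_cast hq
    set ξ : ℝ := (h : ℝ) / q * x with hξ
    have e0 : ∀ p ∈ Q, e ((h : ℝ) / q * (x / p + β)) =
        e (ξ / (p : ℝ)) * e ((h : ℝ) / q * β) := by
      intro p _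
      rw [← e_add]
      congr 1
      rw [hξ]
      ring
    rw [sum_congr rfl e0, ← sum_mul, norm_mul, norm_e, mul_one]
    have hξlo : (m₀ : ℝ) ^ (1 + ε / 2) ≤ ξ := by
      calc (m₀ : ℝ) ^ (1 + ε / 2) ≤ (x ^ (1 - ε)) ^ (1 + ε / 2) :=
            Real.rpow_le_rpow (by positivity) (hm0Z.trans hZhi) (by positivity)
        _ = x ^ ((1 - ε) * (1 + ε / 2)) := by rw [← Real.rpow_mul hx0.le]
        _ ≤ x ^ (1 - η) := Real.rpow_le_rpow_of_exponent_le hx1 (by nlinarith)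
        _ = 1 / x ^ η * x := by
            rw [Real.rpow_sub hx0, Real.rpow_one]
            field_simp
        _ ≤ (h : ℝ) / q * x := by gcongr
    have hξhi : ξ ≤ (m₀ : ℝ) ^ d := by
      have h1 : ξ ≤ x ^ (2 : ℝ) := by
        calc ξ ≤ x ^ (4 * η) / 1 * x := by rw [hξ]; gcongr
          _ = x ^ (4 * η + 1) := by rw [div_one, Real.rpow_add hx0, Real.rpow_one]
          _ ≤ _ := Real.rpow_le_rpow_of_exponent_le hx1 (by linarith)
      have h2 : x ^ (ε / 2) ≤ (m₀ : ℝ) := by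
        calc x ^ (ε / 2) ≤ Z ^ (1 / 2 : ℝ) := by
              calc x ^ (ε / 2) = (x ^ ε) ^ (1 / 2 : ℝ) := by rw [← Real.rpow_mul hx0.le]; ring_nf
                _ ≤ _ := Real.rpow_le_rpow (by positivity) hZlo (by norm_num)
          _ ≤ Z / 2 := by
              rw [← Real.sqrt_eq_rpow, Real.sqrt_le_left (by positivity)]
              nlinarith
          _ ≤ _ := hm0Z2
      calc ξ ≤ x ^ (2 : ℝ) := h1
        _ ≤ x ^ (ε / 2 * d) := by
            apply Real.rpow_le_rpow_of_exponent_le hx1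
            rw [div_le_iff₀ hε] at hd
            nlinarith
        _ = (x ^ (ε / 2)) ^ d := by rw [Real.rpow_mul hx0.le, Real.rpow_natCast]
        _ ≤ _ := pow_le_pow_left₀ (by positivity) h2 d
    set E : ℝ := 2 * Z ^ (1 - ρ) with hE
    have hE0 : 0 ≤ E := by positivity
    set G : ℕ → ℂ := fun n => (((if n.Prime then Real.log n else 0 : ℝ)) : ℂ) *
      e (ξ / (n : ℝ)) with hG
    have hcls : ∀ t : ℕ, m₀ ≤ t → t ≤ m₁ → ‖∑ n ∈ Ioc m₀ t, G n‖ ≤ E := by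
      intro t ht1 ht2
      have htr : (t : ℝ) ≤ 2 * Z := by
        have : (t : ℝ) ≤ m₁ := by exact_mod_cast ht2
        linarith
      have ht0 : 1 ≤ t := by omega
      have htlog : 2 * √(t : ℝ) * Real.log t ≤ Z ^ (1 - ρ) := by
        have h7 : √(t : ℝ) ≤ 2 * Z ^ (1 / 2 : ℝ) := by
          rw [← Real.sqrt_eq_rpow]
          calc √(t : ℝ) ≤ √(2 ^ 2 * Z) := Real.sqrt_le_sqrt (by linarith)
            _ = 2 * √Z := by rw [Real.sqrt_mul (by norm_num), Real.sqrt_sq (by norm_num)]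
        have h8 : Real.log (t : ℝ) ≤ Z ^ (1 / 4 : ℝ) := by
          refine le_trans ?_ hlog
          apply Real.log_le_log _ htr
          exact_mod_cast ht0
        have h9 : 0 ≤ Real.log (t : ℝ) := Real.log_nonneg (by exact_mod_cast ht0)
        calc 2 * √(t : ℝ) * Real.log t ≤ 2 * (2 * Z ^ (1 / 2 : ℝ)) * Z ^ (1 / 4 : ℝ) := by gcongr
          _ = 4 * (Z ^ (1 / 2 : ℝ) * Z ^ (1 / 4 : ℝ)) := by ring
          _ = 4 * Z ^ (3 / 4 : ℝ) := by rw [← Real.rpow_add hZ0]; norm_num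
          _ ≤ _ := hp1
      have h1 := hqs m₀ t hm0N ht1 (ht2.trans hm12) ξ hξlo hξhi
      have h2 := prime_bound m₀ t ht0 (fun n => e (ξ / (n : ℝ))) (fun n => (norm_e _).le) _ h1
      refine h2.trans ?_
      have h4 : (m₀ : ℝ) ^ (1 - ρ) ≤ Z ^ (1 - ρ) :=
        Real.rpow_le_rpow (by positivity) hm0Z (by linarith)
      rw [hE]
      linarith
    set w : ℕ → ℝ := fun n => (Real.log n)⁻¹ with hw
    have hlogpos : ∀ n : ℕ, m₀ < n → 1 ≤ Real.log n := by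
      intro n hn
      rw [Real.le_log_iff_exp_le (by
        have : 0 < n := by omega
        exact_mod_cast this)]
      have h1 := Real.exp_one_lt_d9
      have h2 : (5 : ℝ) ≤ n := by exact_mod_cast (by omega : 5 ≤ n)
      linarith
    have hab := abel_bound w G m₀ E (fun n hn => by
        have := hlogpos n hn
        rw [hw]
        positivity) (fun n hn => by
        have h1 := hlogpos n hn
        rw [hw]
        simp only
        apply inv_anti₀ (by linarith)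
        apply Real.log_le_log
        · have : 0 < n := by omega
          exact_mod_cast this
        · push_cast
          linarith) m₁ hm01 (fun t ht1 ht2 => hcls t ht1.le ht2)
    have hsum : ∑ p ∈ Q, e (ξ / (p : ℝ)) = ∑ i ∈ Ioc m₀ m₁, (w i : ℂ) * G i := by
      rw [hQ, sum_filter]
      refine sum_congr rfl fun n hn => ?_
      have hn0 := hlogpos n (Finset.mem_Ioc.mp hn).1
      rw [hw, hG]
      simp only
      by_cases h2 : n.Prime
      · rw [if_pos ⟨h2, Nat.modEq_one⟩, if_pos h2, ← mul_assoc]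
        rw [← Complex.ofReal_mul, inv_mul_cancel₀ (by linarith), Complex.ofReal_one, one_mul]
      · rw [if_neg (fun h3 => h2 h3.1), if_neg h2]
        simp
    rw [hsum]
    refine hab.trans ?_
    have hw1 : w (m₀ + 1) ≤ 1 := by
      rw [hw]
      exact inv_le_one_of_one_le₀ (hlogpos (m₀ + 1) (by omega))
    calc w (m₀ + 1) * E ≤ 1 * E := mul_le_mul_of_nonneg_right hw1 hE0
      _ = E := one_mul _
  -- comparison of powers of `Z` and of `x`
  have hz0 : 0 < x ^ (-(4 * η)) := by positivity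
  have hxZ : x ^ (ε * ρ / 4) ≤ Z ^ (ρ / 4) := by
    calc x ^ (ε * ρ / 4) = (x ^ ε) ^ (ρ / 4) := by rw [← Real.rpow_mul hx0.le]; ring_nf
      _ ≤ _ := Real.rpow_le_rpow (by positivity) hZlo (by positivity)
  have hZx : 8 * Z ^ (-(ρ / 4)) ≤ x ^ (-(4 * η)) := by
    rw [Real.rpow_neg hZ0.le, Real.rpow_neg hx0.le, ← div_eq_mul_inv, div_le_iff₀ (by positivity),
      inv_mul_eq_div, le_div_iff₀ (by positivity)]
    linarith
  have hZx2 : Z ^ (-(ε / 4)) ≤ x ^ (-(4 * η)) := by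
    calc Z ^ (-(ε / 4)) ≤ (x ^ ε) ^ (-(ε / 4)) :=
          Real.rpow_le_rpow_of_nonpos (by positivity) hZlo (by linarith)
      _ = x ^ (-(ε * (ε / 4))) := by rw [← Real.rpow_mul hx0.le]; ring_nf
      _ ≤ _ := Real.rpow_le_rpow_of_exponent_le hx1 (by nlinarith)
  -- the good primes
  set A : ℕ → ℝ := fun p => x / p + β with hA
  set G : Finset ℕ := Q.filter (fun p => ∀ q : ℕ, q.Prime → κ * ff x < |(q : ℝ) - A p|) with hG
  have hGQ : G ⊆ Q := filter_subset _ _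
  have hkey : (Q.card : ℝ) * x ^ (-(4 * η)) / 2 ≤ G.card := by
    by_contra hlt
    rw [not_le] at hlt
    set s : Finset ℕ := Q \ G with hs
    have hscard : (s.card : ℝ) = Q.card - G.card := by
      rw [hs, card_sdiff_of_subset hGQ, Nat.cast_sub (card_le_card hGQ)]
    have hsbig : 3 / 4 * (Q.card : ℝ) ≤ s.card := by
      rw [hscard]
      nlinarith
    have hE8 : 2 * Z ^ (1 - ρ) ≤ (Q.card : ℝ) * x ^ (-(4 * η)) / 8 := by
      have h2 : Z ^ (1 - ι) * (8 * Z ^ (-(ρ / 4))) ≤ (Q.card : ℝ) * x ^ (-(4 * η)) := by gcongr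
      have h3 : Z ^ (1 - ρ / 2) ≤ Z ^ (1 - ι) * Z ^ (-(ρ / 4)) := by
        rw [← Real.rpow_add hZ0]
        exact Real.rpow_le_rpow_of_exponent_le hZ1 (by linarith)
      linarith
    obtain ⟨p, hp, hp2'⟩ := hcr ℕ s A (by
        rw [← Finset.card_pos]
        have : (0 : ℝ) < s.card := by linarith
        exact_mod_cast this) (by
        intro p hp
        have hpQ := hQmem p (Finset.mem_sdiff.mp hp).1
        have hp0 : (0 : ℝ) < p := by linarith [hpQ.2.1]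
        have h1 : x ^ ε / 2 ≤ x / p := by
          rw [le_div_iff₀ hp0]
          have h2 : (p : ℝ) ≤ 2 * Z := by nlinarith [hpQ.2.2]
          have h3 : x ^ ε * x ^ (1 - ε) = x := by
            rw [← Real.rpow_add hx0]
            norm_num
          have h4 : 0 < x ^ ε := by positivity
          calc x ^ ε / 2 * p ≤ x ^ ε / 2 * (2 * x ^ (1 - ε)) := by
                gcongr
                linarith
            _ = x ^ ε * x ^ (1 - ε) := by ring
            _ = x := h3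
        have h5 := neg_abs_le β
        rw [hA]
        simp only
        linarith) (by
        intro q h hq hqZ hh hhZ
        have h1 := hexp q h hq hqZ hh hhZ
        have h2 : ∑ p ∈ s, e ((h : ℝ) / q * A p) = ∑ p ∈ Q, e ((h : ℝ) / q * A p) -
            ∑ p ∈ G, e ((h : ℝ) / q * A p) := by
          rw [hs, ← sum_sdiff hGQ]
          ring
        rw [h2]
        have h3 : ‖∑ p ∈ G, e ((h : ℝ) / q * A p)‖ ≤ G.card := by
          refine (norm_sum_le _ _).trans ?_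
          simp only [norm_e, sum_const, nsmul_eq_mul, mul_one]
          exact le_rfl
        have h4 : 3 / 4 * (Q.card : ℝ) * x ^ (-(4 * η)) ≤ s.card * x ^ (-(4 * η)) := by gcongr
        calc _ ≤ _ := norm_sub_le _ _
          _ ≤ 2 * Z ^ (1 - ρ) + G.card := add_le_add h1 h3
          _ ≤ _ := by nlinarith)
    rw [hs] at hp
    have hp3' := Finset.mem_sdiff.mp hp
    apply hp3'.2
    rw [hG]
    exact Finset.mem_filter.mpr ⟨hp3'.1, hp2'⟩
  refine ⟨G, ?_, ?_⟩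
  · have h2 : Z ^ (1 - ι) * Z ^ (-(ε / 4)) ≤ (Q.card : ℝ) * x ^ (-(4 * η)) := by gcongr
    have h3 : Z ^ (1 - ε / 2) ≤ Z ^ (1 - ι) * Z ^ (-(ε / 4)) := by
      rw [← Real.rpow_add hZ0]
      exact Real.rpow_le_rpow_of_exponent_le hZ1 (by linarith)
    have h4 : 2 * Z ^ (1 - ε) ≤ Z ^ (1 - ε / 2) := by
      have h5 : (2 : ℝ) ≤ Z ^ (ε / 2) := by
        calc (2 : ℝ) ≤ x ^ (ε * (ε / 2)) := by linarith
          _ = (x ^ ε) ^ (ε / 2) := by rw [← Real.rpow_mul hx0.le]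
          _ ≤ _ := Real.rpow_le_rpow (by positivity) hZlo (by positivity)
      calc 2 * Z ^ (1 - ε) ≤ Z ^ (ε / 2) * Z ^ (1 - ε) := by gcongr
        _ = _ := by rw [← Real.rpow_add hZ0]; congr 1; ring
    linarith
  · intro p hp
    rw [hG, mem_filter] at hp
    obtain ⟨h1, h3, h4⟩ := hQmem p hp.1
    exact ⟨h1, h3, h4, hp.2⟩

end Pool.Agent.Y565.RG
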