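import Pool.Agent.Y565.RG.Count

set_option autoImplicit false

/-!
Record prime-free neighbourhoods of the values of smooth functions whose derivative of some order is
close to `1 / t`, with the number of the places.
-/

namespace Pool.Agent.Y565.RG

open Finset Filter
open Pool.Agent.H469R2.NK (e norm_e e_add conj_e Av Av_le Cq Cq_pos iterate harm_le)
open Pool.Agent.W147.PS (ff ff_compare ev_pow)
open Pool.Agent.TH915.PW (crit_scaled Hy SD SD_sq SD_le root_le)

set_option maxHeartbeats 4000000 in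
/-- record gaps at the values of smooth functions -/
theorem smooth_count (k : ℕ) (ε lam : ℝ) (hε : 0 < ε) (hε1 : ε ≤ 1 / 2) (hlam0 : 0 ≤ lam)
    (hlam : lam ≤ 1 - ε ∨ (1 ≤ k ∧ lam ≤ 1 + ε / (32 * (k + 1)))) (φ : ℕ → ℝ → ℝ) (t₀ : ℝ)
    (hder : ∀ m ≤ k + 1, ∀ t, t₀ ≤ t → HasDerivAt (φ m) (φ (m + 1) t) t)
    (hlow : ∀ t, t₀ ≤ t → t ^ (-lam) ≤ φ (k + 1) t)
    (hup : ∀ t, t₀ ≤ t → φ (k + 1) t ≤ t ^ (-ε))
    (hdec : ∀ t, t₀ ≤ t → φ (k + 2) t ≤ 0)
    (hgr : ∀ t, t₀ ≤ t → t ^ ε ≤ φ 0 t) :
    ∃ κ : ℝ, 0 < κ ∧ ∃ δ : ℝ, 0 < δ ∧ δ ≤ 1 / 8 ∧ ∃ M₀ : ℝ, ∀ M : ℝ, M₀ ≤ M →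
      ∃ G : Finset ℕ, M ^ (1 - 3 * δ) ≤ (G.card : ℝ) ∧ ∀ n ∈ G, M < n ∧ (n : ℝ) ≤ M + M ^ (1 - δ) ∧
        ∀ q : ℕ, q.Prime → κ * ff M < |(q : ℝ) - φ 0 n| := by
  classical
  have hk0 : (0 : ℝ) ≤ k := Nat.cast_nonneg k
  set σ : ℝ := ε / (4 * (k + 1)) with hσ
  have hσ0 : 0 < σ := by positivity
  have hσ8 : ε / (32 * (k + 1)) = σ / 8 := by
    rw [hσ]
    field_simp
    norm_num
  rw [hσ8] at hlam
  have hσε : σ ≤ ε / 4 := by
    rw [hσ]
    apply div_le_div_of_nonneg_left hε.le (by norm_num)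
    linarith
  have hσk : σ * k ≤ ε / 4 := by
    have : σ * (4 * (k + 1)) = ε := by rw [hσ]; field_simp
    nlinarith
  have h2k : (1 : ℝ) ≤ 2 ^ k := one_le_pow₀ (by norm_num)
  set δ' : ℝ := σ / 4 / 2 ^ k with hδ'
  have hδ'0 : 0 < δ' := by positivity
  have hδ'σ : δ' ≤ σ / 4 := div_le_self (by positivity) h2k
  set δ : ℝ := δ' / 3 with hδ
  have hδ0 : 0 < δ := by positivity
  set η : ℝ := δ' / 12 with hη
  have hη0 : 0 < η := by positivity
  have hη4 : 4 * η = δ' / 3 := by rw [hη]; ring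
  have hlam2 : lam ≤ 1 + σ / 8 := by
    rcases hlam with h | h
    · linarith
    · exact h.2
  obtain ⟨κ, hκ, hcrit⟩ := crit_count η hη0 (by linarith)
  have hCq := Cq_pos k
  set C₁ : ℝ := (Cq k * 218) ^ ((1 : ℝ) / 2 ^ k) with hC₁
  have hC₁0 : 0 < C₁ := by positivity
  refine ⟨κ, hκ, δ, hδ0, by linarith, ?_⟩
  apply eventually_atTop.mp
  filter_upwards [hcrit, eventually_ge_atTop (4 : ℝ), eventually_ge_atTop t₀,
    eventually_ge_atTop (2 * t₀),
    ev_pow (1 - δ' ) (1 - 2 * δ' / 3) (16 * C₁) (by linarith),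
    ev_pow (-(ε / 2)) 0 8 (by linarith),
    (tendsto_rpow_atTop (show (0 : ℝ) < 1 - δ by linarith)).eventually_ge_atTop 2,
    (tendsto_rpow_atTop hσ0).eventually_ge_atTop 8,
    ev_pow (1 - δ) 1 2 (by linarith), ev_pow σ 1 2 (by linarith),
    ev_pow (1 - 3 * δ) (1 - 2 * δ) 4 (by linarith)]
    with M hcr hM4 hMt hM2t hp1 hp2 hp3 hp4 hp5 hp6 hp7
  rw [Real.rpow_one] at hp5 hp6
  rw [Real.rpow_zero] at hp2
  have hM0 : 0 < M := by linarith
  have hM1 : 1 ≤ M := by linarith
  set N : ℕ := ⌊M⌋₊ with hN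
  have hNM : (N : ℝ) ≤ M := Nat.floor_le hM0.le
  have hMN : M < N + 1 := Nat.lt_floor_add_one _
  have hN2 : M / 2 ≤ N := by linarith
  have hN1 : 1 ≤ N := Nat.le_floor (by simpa using hM1)
  have hN1r : (1 : ℝ) ≤ N := by exact_mod_cast hN1
  have hNt : t₀ ≤ N := by linarith
  set L : ℕ := ⌊M ^ (1 - δ)⌋₊ with hL
  have hLM : (L : ℝ) ≤ M ^ (1 - δ) := Nat.floor_le (by positivity)
  have hML : M ^ (1 - δ) / 2 ≤ L := by
    have := Nat.lt_floor_add_one (M ^ (1 - δ))
    linarith
  have hLN : L ≤ N := by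
    have : (L : ℝ) ≤ N := by linarith
    exact_mod_cast this
  have hLpos : 0 < L := by
    have : (0 : ℝ) < L := by linarith
    exact_mod_cast this
  set H : ℕ := ⌊M ^ σ⌋₊ with hH
  have hHM : (H : ℝ) ≤ M ^ σ := Nat.floor_le (by positivity)
  have hMH : M ^ σ / 2 ≤ H := by
    have := Nat.lt_floor_add_one (M ^ σ)
    linarith
  have hH4 : 4 ≤ H := by
    have : (4 : ℝ) ≤ H := by linarith
    exact_mod_cast this
  have hH1 : 1 ≤ H := by omega
  have hH0 : (0 : ℝ) < H := by linarith
  have hHN : H ≤ N := by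
    have : (H : ℝ) ≤ N := by linarith
    exact_mod_cast this
  -- the phase
  have hHy : Hy k (N : ℝ) (3 * N) ((3 * N : ℝ) ^ (-lam)) ((N : ℝ) ^ (-ε)) φ := by
    refine ⟨?_, ?_, ?_, ?_⟩
    · intro m hm t ht
      exact hder m hm t (hNt.trans ht.1)
    · intro t ht
      refine le_trans ?_ (hlow t (hNt.trans ht.1))
      apply Real.rpow_le_rpow_of_nonpos (by linarith [ht.1]) ht.2 (by linarith)
    · intro t ht
      refine (hup t (hNt.trans ht.1)).trans ?_
      apply Real.rpow_le_rpow_of_nonpos (by linarith) ht.1 (by linarith)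
    · intro t ht
      exact hdec t (hNt.trans ht.1)
  have hlo0 : 0 < (3 * N : ℝ) ^ (-lam) := by positivity
  obtain ⟨G, hGs, hGc, hGgood⟩ := hcr ℕ (range L) (fun n => φ 0 ((N : ℝ) + 1 + n))
    (by rw [Finset.nonempty_range_iff]; omega) (by
      intro n _
      have hn0 : (0 : ℝ) ≤ n := Nat.cast_nonneg n
      have h1 := hgr ((N : ℝ) + 1 + n) (by linarith)
      refine le_trans ?_ h1
      calc M ^ η ≤ M ^ ε := Real.rpow_le_rpow_of_exponent_le hM1 (by linarith)
        _ ≤ _ := Real.rpow_le_rpow hM0.le (by linarith) (by linarith)) (by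
      intro q h hq hqX hh hhX
      have hq0 : (0 : ℝ) < q := by exact_mod_cast hq
      have hh1 : (1 : ℝ) ≤ h := by exact_mod_cast hh
      have hq1 : (1 : ℝ) ≤ q := by exact_mod_cast hq
      set θ : ℝ := (h : ℝ) / q with hθ
      have hθ0 : 0 < θ := by positivity
      have hθup : θ ≤ M ^ (4 * η) := (div_le_self (by linarith) hq1).trans hhX
      have hθlow : 1 / θ ≤ M ^ η := by
        rw [hθ, one_div_div]
        exact (div_le_self hq0.le hh1).trans hqX
      have h3N : (N : ℝ) ^ (-ε) ≤ 2 * M ^ (-ε) := by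
        have h1 : (N : ℝ) ^ (-ε) ≤ (M / 2) ^ (-ε) :=
          Real.rpow_le_rpow_of_nonpos (by linarith) hN2 (by linarith)
        refine h1.trans ?_
        rw [Real.div_rpow hM0.le (by norm_num), div_eq_mul_inv, mul_comm]
        apply mul_le_mul_of_nonneg_right _ (by positivity)
        rw [← Real.rpow_neg (by norm_num), neg_neg]
        calc (2 : ℝ) ^ ε ≤ (2 : ℝ) ^ (1 : ℝ) :=
              Real.rpow_le_rpow_of_exponent_le (by norm_num) (by linarith)
          _ = 2 := Real.rpow_one 2
      have hHk : (H : ℝ) ^ k ≤ M ^ (σ * k) := by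
        calc (H : ℝ) ^ k ≤ (M ^ σ) ^ k := pow_le_pow_left₀ (Nat.cast_nonneg _) hHM k
          _ = M ^ (σ * k) := by rw [← Real.rpow_natCast, ← Real.rpow_mul hM0.le]
      have hcond : 2 * (θ * ((N : ℝ) ^ (-ε) * (H : ℝ) ^ k)) ≤ 1 := by
        calc 2 * (θ * ((N : ℝ) ^ (-ε) * (H : ℝ) ^ k)) ≤
            2 * (M ^ (4 * η) * ((2 * M ^ (-ε)) * M ^ (σ * k))) := by gcongr
          _ = 4 * (M ^ (4 * η) * M ^ (-ε) * M ^ (σ * k)) := by ring
          _ = 4 * M ^ (4 * η + -ε + σ * k) := by
              rw [Real.rpow_add hM0, Real.rpow_add hM0]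
          _ ≤ 4 * M ^ (-(ε / 2)) := by
              apply mul_le_mul_of_nonneg_left _ (by norm_num)
              apply Real.rpow_le_rpow_of_exponent_le hM1
              linarith
          _ ≤ 1 := by linarith
      have hexp := exp_bound2 hlo0 (by positivity) θ hθ0 hHy ((N : ℝ) + 1) N L H hN1 hLN
        (by linarith) (by
          have : (L : ℝ) ≤ N := by exact_mod_cast hLN
          linarith) hH1 hHN hcond
      set g : ℝ := ((∑ l ∈ Ico 1 H, (1 : ℝ) / l) / H) ^ k with hg
      have hg0 : 0 ≤ g := by positivity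
      have hb : Cq k * (1 / H + 2 / (θ * (3 * N : ℝ) ^ (-lam)) / N * g) ≤
          (Cq k * 218) * M ^ (-(σ / 4)) := by
        have e1 : 1 / (H : ℝ) ≤ 2 * M ^ (-(σ / 4)) := by
          have e0 : 1 / (H : ℝ) ≤ 2 * M ^ (-σ) := by
            rw [Real.rpow_neg hM0.le, div_le_iff₀ hH0]
            have h5 : (0 : ℝ) < M ^ σ := by positivity
            calc (1 : ℝ) = 2 * (M ^ σ)⁻¹ * (M ^ σ / 2) := by field_simp
              _ ≤ _ := by gcongr
          refine e0.trans ?_
          apply mul_le_mul_of_nonneg_left _ (by norm_num)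
          exact Real.rpow_le_rpow_of_exponent_le hM1 (by linarith)
        have e2 : 2 / (θ * (3 * N : ℝ) ^ (-lam)) / N ≤ 36 * M ^ (η + lam - 1) := by
          have e3 : 2 / (θ * (3 * N : ℝ) ^ (-lam)) / N =
              2 * (1 / θ) * (3 * N : ℝ) ^ lam * (1 / N) := by
            rw [Real.rpow_neg (by positivity)]
            field_simp
          rw [e3]
          have e4 : (3 * N : ℝ) ^ lam ≤ 9 * M ^ lam := by
            calc (3 * N : ℝ) ^ lam ≤ (3 * M) ^ lam :=
                  Real.rpow_le_rpow (by positivity) (by linarith) hlam0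
              _ = 3 ^ lam * M ^ lam := Real.mul_rpow (by norm_num) hM0.le
              _ ≤ 9 * M ^ lam := by
                  apply mul_le_mul_of_nonneg_right _ (by positivity)
                  calc (3 : ℝ) ^ lam ≤ 3 ^ (2 : ℝ) :=
                        Real.rpow_le_rpow_of_exponent_le (by norm_num) (by linarith)
                    _ = 9 := by norm_num
          have e5 : 1 / (N : ℝ) ≤ 2 * M ^ (-1 : ℝ) := by
            rw [Real.rpow_neg_one, div_le_iff₀ (by linarith : (0 : ℝ) < N)]
            calc (1 : ℝ) = 2 * M⁻¹ * (M / 2) := by field_simp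
              _ ≤ _ := by gcongr
          calc 2 * (1 / θ) * (3 * N : ℝ) ^ lam * (1 / N) ≤
              2 * M ^ η * (9 * M ^ lam) * (2 * M ^ (-1 : ℝ)) := by gcongr
            _ = 36 * (M ^ η * M ^ lam * M ^ (-1 : ℝ)) := by ring
            _ = 36 * M ^ (η + lam + -1) := by
                rw [Real.rpow_add hM0, Real.rpow_add hM0]
            _ = _ := by rw [← sub_eq_add_neg]
        have e6 : 2 / (θ * (3 * N : ℝ) ^ (-lam)) / N * g ≤ 216 * M ^ (-(σ / 4)) := by
          rcases hlam with hl | ⟨hk1, hl⟩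
          · have hg1 : g ≤ 1 := by
              rw [hg]
              apply pow_le_one₀ (by positivity)
              rw [div_le_one hH0]
              have : ∑ l ∈ Ico 1 H, (1 : ℝ) / l ≤ ∑ l ∈ Ico 1 H, (1 : ℝ) := by
                apply Finset.sum_le_sum
                intro l hl
                rw [mem_Ico] at hl
                rw [div_le_one (by exact_mod_cast hl.1)]
                exact_mod_cast hl.1
              refine this.trans ?_
              rw [sum_const, nsmul_eq_mul, mul_one, Nat.card_Ico]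
              exact_mod_cast Nat.sub_le _ _
            calc 2 / (θ * (3 * N : ℝ) ^ (-lam)) / N * g ≤ 36 * M ^ (η + lam - 1) * 1 := by gcongr
              _ ≤ 216 * M ^ (-(σ / 4)) := by
                  have : M ^ (η + lam - 1) ≤ M ^ (-(σ / 4)) :=
                    Real.rpow_le_rpow_of_exponent_le hM1 (by linarith)
                  have h9 : 0 < M ^ (-(σ / 4)) := by positivity
                  linarith
          · have hg1 : g ≤ 6 * M ^ (-(σ / 2)) := by
              refine (gain_le H k hH4 hk1).trans ?_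
              have h6 : M ^ (σ / 2) / 3 ≤ √(H : ℝ) := by
                apply Real.le_sqrt_of_sq_le
                calc (M ^ (σ / 2) / 3) ^ 2 = (M ^ (σ / 2)) ^ 2 / 9 := by ring
                  _ = M ^ σ / 9 := by
                      rw [← Real.rpow_natCast, ← Real.rpow_mul hM0.le]
                      congr 2
                      push_cast
                      ring
                  _ ≤ M ^ σ / 2 := by
                      have : 0 < M ^ σ := by positivity
                      linarith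
                  _ ≤ _ := hMH
              calc 2 / √(H : ℝ) ≤ 2 / (M ^ (σ / 2) / 3) := by gcongr
                _ = 6 * M ^ (-(σ / 2)) := by
                    rw [Real.rpow_neg hM0.le]
                    field_simp
                    norm_num
            calc 2 / (θ * (3 * N : ℝ) ^ (-lam)) / N * g ≤
                36 * M ^ (η + lam - 1) * (6 * M ^ (-(σ / 2))) := by gcongr
              _ = 216 * (M ^ (η + lam - 1) * M ^ (-(σ / 2))) := by ring
              _ = 216 * M ^ (η + lam - 1 + -(σ / 2)) := by rw [Real.rpow_add hM0]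
              _ ≤ 216 * M ^ (-(σ / 4)) := by
                  apply mul_le_mul_of_nonneg_left _ (by norm_num)
                  apply Real.rpow_le_rpow_of_exponent_le hM1
                  linarith
        calc Cq k * (1 / H + 2 / (θ * (3 * N : ℝ) ^ (-lam)) / N * g) ≤
            Cq k * (2 * M ^ (-(σ / 4)) + 216 * M ^ (-(σ / 4))) := by gcongr
          _ = _ := by ring
      have hroot := root_le _ _ k (by positivity) (hexp.trans hb)
      have hr2 : ((Cq k * 218) * M ^ (-(σ / 4))) ^ ((1 : ℝ) / 2 ^ k) = C₁ * M ^ (-δ') := by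
        rw [Real.mul_rpow (by positivity) (by positivity), ← Real.rpow_mul hM0.le, hC₁, hδ']
        congr 2
        ring
      rw [hr2, div_le_iff₀ (by linarith : (0 : ℝ) < N)] at hroot
      have hcard : ((range L).card : ℝ) = L := by rw [card_range]
      rw [hcard]
      have hfin : C₁ * M ^ (-δ') * N ≤ L * M ^ (-(4 * η)) / 8 := by
        calc C₁ * M ^ (-δ') * N ≤ C₁ * M ^ (-δ') * M := by gcongr
          _ = C₁ * M ^ (1 - δ') := by
              rw [mul_assoc]
              congr 1
              rw [sub_eq_neg_add, Real.rpow_add hM0, Real.rpow_one]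
          _ ≤ M ^ (1 - 2 * δ' / 3) / 16 := by linarith
          _ = (M ^ (1 - δ) / 2) * M ^ (-(4 * η)) / 8 := by
              rw [hη4, div_mul_eq_mul_div, ← Real.rpow_add hM0, hδ]
              rw [show 1 - δ' / 3 + -(δ' / 3) = 1 - 2 * δ' / 3 by ring]
              ring
          _ ≤ _ := by gcongr
      exact hroot.trans hfin)
  refine ⟨G.image (fun i => N + 1 + i), ?_, ?_⟩
  · rw [card_image_of_injective _ (add_right_injective (N + 1))]
    have hcard : ((range L).card : ℝ) = L := by rw [card_range]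
    rw [hcard] at hGc
    have h1 : M ^ (1 - 2 * δ) = M ^ (1 - δ) * M ^ (-(4 * η)) := by
      rw [← Real.rpow_add hM0, hη4]
      congr 1
      rw [hδ]
      ring
    have h2 : M ^ (1 - δ) / 2 * M ^ (-(4 * η)) ≤ L * M ^ (-(4 * η)) := by gcongr
    linarith
  · intro n hn
    rw [mem_image] at hn
    obtain ⟨i, hi, rfl⟩ := hn
    have hi2 := hGgood i hi
    have hi1 := hGs hi
    refine ⟨?_, ?_, ?_⟩
    · push_cast
      have hn0 : (0 : ℝ) ≤ i := Nat.cast_nonneg i
      linarith
    · rw [Finset.mem_range] at hi1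
      have : ((N + 1 + i : ℕ) : ℝ) ≤ ((N + L : ℕ) : ℝ) := by exact_mod_cast (by omega)
      push_cast at this ⊢
      linarith
    · intro q hq
      have := hi2 q hq
      push_cast
      exact this

end Pool.Agent.Y565.RG
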