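import Pool.Agent.Y565.RG.SqrtP

set_option autoImplicit false

/-! Fixed coefficients in the uniform theorem on `α p + γ √p + β`. -/

namespace Pool.Agent.Y565.RG

open Finset Filter
open Pool.Agent.W147.PS (ff ff_compare ev_pow)

theorem sqrt_both (d r : ℕ) (hd : 0 < d) (hr : r.Coprime d) (ε : ℝ) (hε : 0 < ε)
    (hε1 : ε ≤ 1 / 4) :
    ∃ κ : ℝ, 0 < κ ∧
      (∃ Z₀ : ℝ, ∀ Z : ℝ, Z₀ ≤ Z → ∀ α γ β : ℝ, Z ^ (-(1 / 16 : ℝ)) ≤ |γ| →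
        |γ| ≤ Z ^ (1 / 16 : ℝ) →
        (∀ n : ℕ, Z < n → (n : ℝ) ≤ (1 + ε) * Z → Z ^ ε ≤ α * n + γ * √(n : ℝ) + β) →
        ∃ G : Finset ℕ, Z ^ (1 - ε) ≤ (G.card : ℝ) ∧ ∀ p ∈ G, p.Prime ∧ p ≡ r [MOD d] ∧
          Z < p ∧ (p : ℝ) ≤ (1 + ε) * Z ∧
          ∀ q : ℕ, q.Prime → κ * ff Z < |(q : ℝ) - (α * p + γ * √(p : ℝ) + β)|) ∧
      (∀ α γ β : ℝ, 0 ≤ α → γ ≠ 0 → (0 < α ∨ 0 < γ) → ∃ Z₀ : ℝ, ∀ Z : ℝ, Z₀ ≤ Z →
        ∃ G : Finset ℕ, Z ^ (1 - ε) ≤ (G.card : ℝ) ∧ ∀ p ∈ G, p.Prime ∧ p ≡ r [MOD d] ∧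
          Z < p ∧ (p : ℝ) ≤ (1 + ε) * Z ∧
          ∀ q : ℕ, q.Prime → κ * ff Z < |(q : ℝ) - (α * p + γ * √(p : ℝ) + β)|) := by
  obtain ⟨κ, hκ, h⟩ := sqrt_uniform d hd r hr ε hε (by linarith)
  refine ⟨κ, hκ, eventually_atTop.mp h, ?_⟩
  intro α γ β hα hγ hαγ
  apply eventually_atTop.mp
  -- a lower bound for `α √t + γ`
  have hlow : ∃ c : ℝ, 0 < c ∧ ∀ᶠ Z : ℝ in atTop, ∀ t : ℝ, Z < t → c ≤ α * √t + γ := by
    rcases hα.lt_or_eq with h0 | h0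
    · refine ⟨1, one_pos, ?_⟩
      have e1 : ∀ᶠ Z : ℝ in atTop, (1 - γ) / α ≤ √Z :=
        Real.tendsto_sqrt_atTop.eventually_ge_atTop _
      filter_upwards [e1] with Z e2 t ht
      have e3 : √Z ≤ √t := Real.sqrt_le_sqrt ht.le
      have e4 : (1 - γ) / α ≤ √t := e2.trans e3
      rw [div_le_iff₀ h0] at e4
      linarith
    · have h1 : 0 < γ := by
        rcases hαγ with h | h
        · exact absurd h0 h.ne
        · exact h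
      refine ⟨γ, h1, Filter.Eventually.of_forall fun Z t _ => ?_⟩
      rw [← h0]
      linarith
  obtain ⟨c, hc, hcev⟩ := hlow
  have hγ0 : 0 < |γ| := abs_pos.mpr hγ
  have e5 : ∀ᶠ Z : ℝ in atTop, 1 / |γ| ≤ Z ^ (1 / 16 : ℝ) :=
    (tendsto_rpow_atTop (by norm_num)).eventually_ge_atTop _
  have e6 : ∀ᶠ Z : ℝ in atTop, |γ| ≤ Z ^ (1 / 16 : ℝ) :=
    (tendsto_rpow_atTop (by norm_num)).eventually_ge_atTop _
  have e7 : ∀ᶠ Z : ℝ in atTop, 2 * |β| / c ≤ Z ^ (1 / 2 : ℝ) :=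
    (tendsto_rpow_atTop (by norm_num)).eventually_ge_atTop _
  filter_upwards [h, hcev, e5, e6, e7, ev_pow (1 / 4) (1 / 2) (2 / c) (by norm_num),
    eventually_ge_atTop (1 : ℝ)] with Z h1 h2 h3 h4 h5 h6 h7
  have hZ0 : 0 < Z := by linarith
  refine h1 α γ β ?_ h4 ?_
  · rw [Real.rpow_neg hZ0.le]
    rw [div_le_iff₀ hγ0] at h3
    have h8 : 0 < Z ^ (1 / 16 : ℝ) := by positivity
    rw [inv_le_iff_one_le_mul₀ h8]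
    linarith
  · intro n hn _
    have h8 := h2 n hn
    have hn0 : (0 : ℝ) ≤ n := Nat.cast_nonneg n
    have h9 : √(n : ℝ) * √(n : ℝ) = n := Real.mul_self_sqrt hn0
    have h10 : Z ^ (1 / 2 : ℝ) ≤ √(n : ℝ) := by
      rw [← Real.sqrt_eq_rpow]
      exact Real.sqrt_le_sqrt hn.le
    have h11 : α * n + γ * √(n : ℝ) = √(n : ℝ) * (α * √(n : ℝ) + γ) := by
      calc α * n + γ * √(n : ℝ) = α * (√(n : ℝ) * √(n : ℝ)) + γ * √(n : ℝ) := by rw [h9]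
        _ = _ := by ring
    have h12 : Z ^ (1 / 2 : ℝ) * c ≤ √(n : ℝ) * (α * √(n : ℝ) + γ) := by gcongr
    have h13 : Z ^ ε ≤ Z ^ (1 / 4 : ℝ) := Real.rpow_le_rpow_of_exponent_le h7 hε1
    rw [div_le_iff₀ hc] at h5
    have h14 : 2 * Z ^ (1 / 4 : ℝ) ≤ Z ^ (1 / 2 : ℝ) * c := by
      rw [div_mul_eq_mul_div, div_le_iff₀ hc] at h6
      exact h6
    have h15 := neg_abs_le β
    rw [h11]
    linarith

end Pool.Agent.Y565.RG
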