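import Pool.Agent.TH915.PW.Scaled
import Pool.Agent.TH915.PW.PrimeSum
import Pool.Agent.TH915.PW.APCount
import Pool.Agent.W24.CP.ES2

set_option autoImplicit false

/-!
Record prime-free neighbourhoods of `α p + γ √p + β`, `p` prime in a residue class, uniformly in
`α, γ, β`.
-/

namespace Pool.Agent.Y565.RG

open Finset Filter
open Pool.Agent.H469R2.NK (e norm_e e_add conj_e)
open Pool.Agent.W147.PS (ff ff_compare ev_pow)
open Pool.Agent.TH915.PW (crit_scaled card_primes class_bound prime_bound abel_bound)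
open Pool.Agent.W24.CP (es_block Eph)

/-- both signs of the frequency -/
lemma es_signed : ∃ C : ℝ, 0 < C ∧ ∀ (N N' : ℕ), 1 ≤ N → N ≤ N' → N' ≤ 2 * N → ∀ θ : ℝ, θ ≠ 0 →
    |θ| + 1 / |θ| ≤ 2 * (N : ℝ) ^ (1 / 8 : ℝ) → ∀ α : ℝ,
    ‖∑ n ∈ Ioc N N', ((ArithmeticFunction.vonMangoldt n : ℝ) : ℂ) * e (θ * √(n : ℝ) + α * n)‖ ≤
      C * (N : ℝ) ^ (127 / 128 : ℝ) := by
  obtain ⟨C, hC, h⟩ := es_block
  refine ⟨C, hC, ?_⟩
  intro N N' hN hNN' hN' θ hθ hθN α
  rcases lt_or_gt_of_ne hθ with h0 | h0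
  · have h1 := (h N N' hN hNN' hN' (-θ) (by linarith) (by
      rw [abs_of_neg h0] at hθN
      exact hθN) (-α)).1
    have h2 : ∑ n ∈ Ioc N N', ((ArithmeticFunction.vonMangoldt n : ℝ) : ℂ) *
        e (θ * √(n : ℝ) + α * n) = (starRingEnd ℂ) (∑ n ∈ Ioc N N',
          ((ArithmeticFunction.vonMangoldt n : ℝ) : ℂ) * Eph (-θ) (-α) n) := by
      rw [map_sum]
      refine sum_congr rfl fun n _ => ?_
      rw [map_mul, Complex.conj_ofReal]
      unfold Eph
      rw [conj_e]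
      congr 2
      ring
    rw [h2, RCLike.norm_conj]
    exact h1
  · have h1 := (h N N' hN hNN' hN' θ h0 (by
      rw [abs_of_pos h0] at hθN
      exact hθN) α).1
    exact h1

set_option maxHeartbeats 4000000 in
/-- the uniform theorem -/
theorem sqrt_uniform (d : ℕ) (hd : 0 < d) (r : ℕ) (hr : r.Coprime d) (ε : ℝ) (hε : 0 < ε)
    (hε1 : ε ≤ 1 / 2) :
    ∃ κ : ℝ, 0 < κ ∧ ∀ᶠ Z : ℝ in atTop, ∀ α γ β : ℝ, Z ^ (-(1 / 16 : ℝ)) ≤ |γ| →
      |γ| ≤ Z ^ (1 / 16 : ℝ) →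
      (∀ n : ℕ, Z < n → (n : ℝ) ≤ (1 + ε) * Z → Z ^ ε ≤ α * n + γ * √(n : ℝ) + β) →
      ∃ G : Finset ℕ, Z ^ (1 - ε) ≤ (G.card : ℝ) ∧ ∀ p ∈ G, p.Prime ∧ p ≡ r [MOD d] ∧
        Z < p ∧ (p : ℝ) ≤ (1 + ε) * Z ∧
        ∀ q : ℕ, q.Prime → κ * ff Z < |(q : ℝ) - (α * p + γ * √(p : ℝ) + β)| := by
  classical
  set η : ℝ := ε / 1000 with hη
  have hη0 : 0 < η := by positivity
  have hη1 : η ≤ 1 / 1000 := by rw [hη]; linarith
  obtain ⟨κ, hκ, hcrit⟩ := crit_scaled η hη0 (by linarith)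
  obtain ⟨C, hC, hes⟩ := es_signed
  have hlogev : ∀ᶠ Z : ℝ in atTop, Real.log (2 * Z) ≤ Z ^ (1 / 4 : ℝ) := by
    have e1 := (isLittleO_log_rpow_atTop (show (0 : ℝ) < 1 / 8 by norm_num)).def
      (show (0 : ℝ) < 1 by norm_num)
    have e2 : Tendsto (fun Z : ℝ => 2 * Z) atTop atTop := tendsto_id.const_mul_atTop (by norm_num)
    filter_upwards [e2.eventually e1, eventually_ge_atTop (1 : ℝ),
      ev_pow (1 / 8) (1 / 4) (2 ^ (1 / 8 : ℝ)) (by norm_num)] with Z e3 e4 e5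
    rw [Real.norm_eq_abs, Real.norm_eq_abs, abs_of_nonneg (Real.log_nonneg (by linarith)),
      abs_of_nonneg (by positivity), one_mul, Real.mul_rpow (by norm_num) (by linarith)] at e3
    linarith
  refine ⟨κ, hκ, ?_⟩
  filter_upwards [hcrit, card_primes d hd r hr ε η hε (by linarith) hη0, hlogev,
    eventually_ge_atTop (4 : ℝ), ev_pow (3 / 4) (127 / 128) 4 (by norm_num),
    ev_pow (127 / 128) (1 - η - 4 * η) (8 * (C + 1)) (by linarith),
    ev_pow (1 - ε) (1 - η - 4 * η) 2 (by linarith),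
    ev_pow (-(4 * η)) 0 2 (by linarith),
    ev_pow (1 / 15) (1 / 8) 2 (by norm_num)]
    with Z hcr hcard hlog hZ4 hp1 hp2 hp3 hp4 hp5
  intro α γ β hγ1 hγ2 hlow
  rw [Real.rpow_zero] at hp4
  have hZ0 : 0 < Z := by linarith
  have hZ1 : 1 ≤ Z := by linarith
  have hγ0 : 0 < |γ| := lt_of_lt_of_le (by positivity) hγ1
  have hγne : γ ≠ 0 := abs_pos.mp hγ0
  set m₀ : ℕ := ⌊Z⌋₊ with hm₀
  set m₁ : ℕ := ⌊(1 + ε) * Z⌋₊ with hm₁
  have hm04 : 4 ≤ m₀ := Nat.le_floor (by exact_mod_cast hZ4)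
  have hm0Z : (m₀ : ℝ) ≤ Z := Nat.floor_le hZ0.le
  have hm0Z2 : Z / 2 ≤ (m₀ : ℝ) := by
    have := Nat.lt_floor_add_one Z
    rw [← hm₀] at this
    linarith
  have hm1' : (m₁ : ℝ) ≤ (1 + ε) * Z := Nat.floor_le (by positivity)
  have hm1 : (m₁ : ℝ) ≤ 2 * Z := by nlinarith
  have hm12 : m₁ ≤ 2 * m₀ := by
    have h2 := Nat.lt_floor_add_one Z
    rw [← hm₀] at h2
    have : (m₁ : ℝ) ≤ 2 * m₀ := by nlinarith
    exact_mod_cast this
  set Q : Finset ℕ := (Ioc m₀ m₁).filter (fun p => p.Prime ∧ p ≡ r [MOD d]) with hQ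
  have hQpos : (0 : ℝ) < Q.card := lt_of_lt_of_le (by positivity) hcard
  have hQmem : ∀ p ∈ Q, p.Prime ∧ p ≡ r [MOD d] ∧ Z < p ∧ (p : ℝ) ≤ (1 + ε) * Z := by
    intro p hp
    rw [hQ, Finset.mem_filter, Finset.mem_Ioc] at hp
    refine ⟨hp.2.1, hp.2.2, ?_, ?_⟩
    · exact (Nat.floor_lt hZ0.le).mp hp.1.1
    · have : (p : ℝ) ≤ m₁ := by exact_mod_cast hp.1.2
      linarith
  have hm01 : m₀ < m₁ := by
    have hQne : Q.Nonempty := by
      rw [← Finset.card_pos]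
      exact_mod_cast hQpos
    obtain ⟨p, hp⟩ := hQne
    rw [hQ, Finset.mem_filter, Finset.mem_Ioc] at hp
    omega
  -- the exponential sums over `Q`
  have hexp : ∀ q h : ℕ, 1 ≤ q → (q : ℝ) ≤ Z ^ η → 1 ≤ h → (h : ℝ) ≤ Z ^ (4 * η) →
      ‖∑ p ∈ Q, e ((h : ℝ) / q * (α * p + γ * √(p : ℝ) + β))‖ ≤
        (C + 1) * Z ^ (127 / 128 : ℝ) := by
    intro q h hq hqZ hh hhZ
    have hq0 : (0 : ℝ) < q := by exact_mod_cast hq
    have hh0 : (0 : ℝ) < h := by exact_mod_cast hh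
    have hh1 : (1 : ℝ) ≤ h := by exact_mod_cast hh
    have hq1 : (1 : ℝ) ≤ q := by exact_mod_cast hq
    have e0 : ∀ p ∈ Q, e ((h : ℝ) / q * (α * p + γ * √(p : ℝ) + β)) =
        e ((h : ℝ) / q * γ * √(p : ℝ) + (h : ℝ) / q * α * p) * e ((h : ℝ) / q * β) := by
      intro p _
      rw [← e_add]
      congr 1
      ring
    rw [sum_congr rfl e0, ← sum_mul, norm_mul, norm_e, mul_one]
    set θ : ℝ := (h : ℝ) / q * γ with hθ
    have hθne : θ ≠ 0 := by
      rw [hθ]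
      exact mul_ne_zero (by positivity) hγne
    have hθabs : |θ| = (h : ℝ) / q * |γ| := by
      rw [hθ, abs_mul, abs_of_pos (by positivity : (0 : ℝ) < (h : ℝ) / q)]
    have hθup : |θ| ≤ Z ^ (1 / 15 : ℝ) := by
      rw [hθabs]
      calc (h : ℝ) / q * |γ| ≤ Z ^ (4 * η) / 1 * Z ^ (1 / 16 : ℝ) := by gcongr
        _ = Z ^ (4 * η + 1 / 16) := by rw [div_one, ← Real.rpow_add hZ0]
        _ ≤ _ := Real.rpow_le_rpow_of_exponent_le hZ1 (by linarith)
    have hθlo : 1 / |θ| ≤ Z ^ (1 / 15 : ℝ) := by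
      rw [hθabs]
      calc 1 / ((h : ℝ) / q * |γ|) = q * (1 / |γ|) / h := by field_simp
        _ ≤ Z ^ η * (1 / Z ^ (-(1 / 16 : ℝ))) / 1 := by gcongr
        _ = Z ^ (η + 1 / 16) := by
            rw [div_one, Real.rpow_neg hZ0.le, one_div, inv_inv, ← Real.rpow_add hZ0]
        _ ≤ _ := Real.rpow_le_rpow_of_exponent_le hZ1 (by linarith)
    have hm8 : Z ^ (1 / 8 : ℝ) / 2 ≤ (m₀ : ℝ) ^ (1 / 8 : ℝ) := by
      calc Z ^ (1 / 8 : ℝ) / 2 ≤ (Z / 2) ^ (1 / 8 : ℝ) := by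
            rw [Real.div_rpow hZ0.le (by norm_num)]
            apply div_le_div_of_nonneg_left (by positivity) (by positivity)
            calc (2 : ℝ) ^ (1 / 8 : ℝ) ≤ 2 ^ (1 : ℝ) :=
                  Real.rpow_le_rpow_of_exponent_le (by norm_num) (by norm_num)
              _ = 2 := Real.rpow_one 2
        _ ≤ _ := Real.rpow_le_rpow (by positivity) hm0Z2 (by norm_num)
    have hcond : |θ| + 1 / |θ| ≤ 2 * (m₀ : ℝ) ^ (1 / 8 : ℝ) := by linarith
    set E : ℝ := (C + 1) * Z ^ (127 / 128 : ℝ) with hE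
    have hE0 : 0 ≤ E := by positivity
    set G : ℕ → ℂ := fun n => (((if n.Prime then Real.log n else 0 : ℝ)) : ℂ) *
      e (θ * √(n : ℝ) + (h : ℝ) / q * α * n) with hG
    have hcls : ∀ t : ℕ, m₀ ≤ t → t ≤ m₁ →
        ‖∑ n ∈ (Ioc m₀ t).filter (fun n => n ≡ r [MOD d]), G n‖ ≤ E := by
      intro t ht1 ht2
      have htr : (t : ℝ) ≤ 2 * Z := by
        have : (t : ℝ) ≤ m₁ := by exact_mod_cast ht2
        linarith
      have ht0 : 1 ≤ t := by omega
      have htlog : 2 * √(t : ℝ) * Real.log t ≤ Z ^ (127 / 128 : ℝ) := by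
        have h7 : √(t : ℝ) ≤ 2 * Z ^ (1 / 2 : ℝ) := by
          rw [← Real.sqrt_eq_rpow]
          calc √(t : ℝ) ≤ √(2 ^ 2 * Z) := Real.sqrt_le_sqrt (by linarith)
            _ = 2 * √Z := by rw [Real.sqrt_mul (by norm_num), Real.sqrt_sq (by norm_num)]
        have h8 : Real.log (t : ℝ) ≤ Z ^ (1 / 4 : ℝ) := by
          refine le_trans ?_ hlog
          apply Real.log_le_log _ htr
          exact_mod_cast ht0
        have h9 : 0 ≤ Real.log (t : ℝ) := Real.log_nonneg (by exact_mod_cast ht0)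
        calc 2 * √(t : ℝ) * Real.log t ≤ 2 * (2 * Z ^ (1 / 2 : ℝ)) * Z ^ (1 / 4 : ℝ) := by gcongr
          _ = 4 * (Z ^ (1 / 2 : ℝ) * Z ^ (1 / 4 : ℝ)) := by ring
          _ = 4 * Z ^ (3 / 4 : ℝ) := by rw [← Real.rpow_add hZ0]; norm_num
          _ ≤ _ := hp1
      apply class_bound (Ioc m₀ t) G d hd r E
      intro j _
      have h1 := hes m₀ t (by omega) ht1 (ht2.trans hm12) θ hθne hcond
        ((h : ℝ) / q * α + (j : ℝ) / d)
      have h2 := prime_bound m₀ t ht0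
        (fun n => e (θ * √(n : ℝ) + ((h : ℝ) / q * α + (j : ℝ) / d) * n))
        (fun n => (norm_e _).le) _ h1
      have h3 : ∑ n ∈ Ioc m₀ t, G n * e ((j : ℝ) / d * n) =
          ∑ n ∈ Ioc m₀ t, (((if n.Prime then Real.log n else 0 : ℝ)) : ℂ) *
            e (θ * √(n : ℝ) + ((h : ℝ) / q * α + (j : ℝ) / d) * n) := by
        refine sum_congr rfl fun n _ => ?_
        rw [hG]
        simp only
        rw [mul_assoc, ← e_add]
        congr 2
        ring
      rw [h3]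
      refine h2.trans ?_
      have h4 : C * (m₀ : ℝ) ^ (127 / 128 : ℝ) ≤ C * Z ^ (127 / 128 : ℝ) := by gcongr
      rw [hE]
      linarith
    set a : ℕ → ℂ := fun n => if n ≡ r [MOD d] then G n else 0 with ha
    set w : ℕ → ℝ := fun n => (Real.log n)⁻¹ with hw
    have hlogpos : ∀ n : ℕ, m₀ < n → 1 ≤ Real.log n := by
      intro n hn
      rw [Real.le_log_iff_exp_le (by
        have : 0 < n := by omega
        exact_mod_cast this)]
      have h1 := Real.exp_one_lt_d9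
      have h2 : (5 : ℝ) ≤ n := by exact_mod_cast (by omega : 5 ≤ n)
      linarith
    have hab := abel_bound w a m₀ E (fun n hn => by
        have := hlogpos n hn
        rw [hw]
        positivity) (fun n hn => by
        have h1 := hlogpos n hn
        rw [hw]
        simp only
        apply inv_anti₀ (by linarith)
        apply Real.log_le_log
        · have : 0 < n := by omega
          exact_mod_cast this
        · push_cast
          linarith) m₁ hm01 (fun t ht1 ht2 => by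
        have h1 := hcls t ht1.le ht2
        rw [sum_filter] at h1
        exact h1)
    have hsum : ∑ p ∈ Q, e (θ * √(p : ℝ) + (h : ℝ) / q * α * p) =
        ∑ i ∈ Ioc m₀ m₁, (w i : ℂ) * a i := by
      rw [hQ, sum_filter]
      refine sum_congr rfl fun n hn => ?_
      have hn0 := hlogpos n (Finset.mem_Ioc.mp hn).1
      rw [ha, hw, hG]
      simp only
      by_cases h1 : n ≡ r [MOD d]
      · by_cases h2 : n.Prime
        · rw [if_pos ⟨h2, h1⟩, if_pos h1, if_pos h2, ← mul_assoc]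
          rw [← Complex.ofReal_mul, inv_mul_cancel₀ (by linarith), Complex.ofReal_one, one_mul]
        · rw [if_neg (fun h3 => h2 h3.1), if_pos h1, if_neg h2]
          simp
      · rw [if_neg (fun h3 => h1 h3.2), if_neg h1, mul_zero]
    rw [hsum]
    refine hab.trans ?_
    have hw1 : w (m₀ + 1) ≤ 1 := by
      rw [hw]
      exact inv_le_one_of_one_le₀ (hlogpos (m₀ + 1) (by omega))
    calc w (m₀ + 1) * E ≤ 1 * E := mul_le_mul_of_nonneg_right hw1 hE0
      _ = E := one_mul _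
  -- the good primes
  set A : ℕ → ℝ := fun p => α * p + γ * √(p : ℝ) + β with hA
  set G : Finset ℕ := Q.filter (fun p => ∀ q : ℕ, q.Prime → κ * ff Z < |(q : ℝ) - A p|) with hG
  have hGQ : G ⊆ Q := filter_subset _ _
  have hkey : (Q.card : ℝ) * Z ^ (-(4 * η)) / 2 ≤ G.card := by
    by_contra hlt
    rw [not_le] at hlt
    set s : Finset ℕ := Q \ G with hs
    have hscard : (s.card : ℝ) = Q.card - G.card := by
      rw [hs, card_sdiff_of_subset hGQ, Nat.cast_sub (card_le_card hGQ)]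
    have hz0 : 0 < Z ^ (-(4 * η)) := by positivity
    have hsbig : 3 / 4 * (Q.card : ℝ) ≤ s.card := by
      rw [hscard]
      nlinarith
    have hE8 : (C + 1) * Z ^ (127 / 128 : ℝ) ≤ (Q.card : ℝ) * Z ^ (-(4 * η)) / 8 := by
      have h1 : Z ^ (1 - η - 4 * η) = Z ^ (1 - η) * Z ^ (-(4 * η)) := by
        rw [← Real.rpow_add hZ0]; congr 1
      have h2 : Z ^ (1 - η) * Z ^ (-(4 * η)) ≤ (Q.card : ℝ) * Z ^ (-(4 * η)) := by gcongr
      rw [h1] at hp2
      linarith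
    obtain ⟨p, hp, hp2'⟩ := hcr ℕ s A (by
        rw [← Finset.card_pos]
        have : (0 : ℝ) < s.card := by linarith
        exact_mod_cast this) (by
        intro p hp
        have hpQ := hQmem p (mem_sdiff.mp hp).1
        refine le_trans ?_ (hlow p hpQ.2.2.1 hpQ.2.2.2)
        apply Real.rpow_le_rpow_of_exponent_le hZ1
        rw [hη]
        linarith) (by
        intro q h hq hqZ hh hhZ
        have h1 := hexp q h hq hqZ hh hhZ
        have h2 : ∑ p ∈ s, e ((h : ℝ) / q * A p) = ∑ p ∈ Q, e ((h : ℝ) / q * A p) -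
            ∑ p ∈ G, e ((h : ℝ) / q * A p) := by
          rw [hs, ← sum_sdiff hGQ]
          ring
        rw [h2]
        have h3 : ‖∑ p ∈ G, e ((h : ℝ) / q * A p)‖ ≤ G.card := by
          refine (norm_sum_le _ _).trans ?_
          simp only [norm_e, sum_const, nsmul_eq_mul, mul_one]
          exact le_rfl
        have h4 : 3 / 4 * (Q.card : ℝ) * Z ^ (-(4 * η)) ≤ s.card * Z ^ (-(4 * η)) := by gcongr
        calc _ ≤ _ := norm_sub_le _ _
          _ ≤ (C + 1) * Z ^ (127 / 128 : ℝ) + G.card := add_le_add h1 h3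
          _ ≤ _ := by nlinarith)
    rw [hs] at hp
    have hp3' := Finset.mem_sdiff.mp hp
    apply hp3'.2
    rw [hG]
    exact Finset.mem_filter.mpr ⟨hp3'.1, hp2'⟩
  refine ⟨G, ?_, ?_⟩
  · have h1 : Z ^ (1 - η - 4 * η) = Z ^ (1 - η) * Z ^ (-(4 * η)) := by
      rw [← Real.rpow_add hZ0]; congr 1
    have h2 : Z ^ (1 - η) * Z ^ (-(4 * η)) ≤ (Q.card : ℝ) * Z ^ (-(4 * η)) := by gcongr
    linarith
  · intro p hp
    rw [hG, mem_filter] at hp
    obtain ⟨h1, h2, h3, h4⟩ := hQmem p hp.1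
    exact ⟨h1, h2, h3, h4, hp.2⟩

end Pool.Agent.Y565.RG
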