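import Pool.Agent.Y565.RG.SepF

set_option autoImplicit false

/-!
Trilinear sums over separated sets of reals with arbitrary coefficients depending on two variables.
-/

namespace Pool.Agent.Y565.RG

open Finset Filter
open Pool.Agent.H469R2.NK (e norm_e e_add)
open Pool.Agent.TH915.PW (e_sub)
open Pool.Agent.W147.PS (ff ff_compare ev_pow)

lemma card_sep (S : Finset ℝ) (a L : ℝ) (hL : 0 ≤ L) (h0 : ∀ s ∈ S, a ≤ s ∧ s ≤ a + L)
    (h1 : ∀ s ∈ S, ∀ s' ∈ S, s ≠ s' → 1 ≤ |s - s'|) : (S.card : ℝ) ≤ L + 1 := by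
  classical
  have hinj : Set.InjOn (fun s => ⌊s - a⌋₊) (S : Set ℝ) := by
    intro s hs s' hs' h
    by_contra hne
    have h4 := h1 s hs s' hs' hne
    have a1 := Nat.floor_le (show 0 ≤ s - a by linarith [(h0 s hs).1])
    have a2 := Nat.lt_floor_add_one (s - a)
    have b1 := Nat.floor_le (show 0 ≤ s' - a by linarith [(h0 s' hs').1])
    have b2 := Nat.lt_floor_add_one (s' - a)
    simp only at h
    rw [h] at a1 a2
    have : |s - s'| < 1 := by
      rw [abs_lt]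
      constructor <;> linarith
    linarith
  have h2 : S.card ≤ ⌊L⌋₊ + 1 := by
    rw [← card_image_of_injOn hinj, ← card_range (⌊L⌋₊ + 1)]
    apply card_le_card
    intro m hm
    obtain ⟨s, hs, rfl⟩ := mem_image.mp hm
    rw [Finset.mem_range]
    exact Nat.lt_succ_of_le (Nat.floor_le_floor (by linarith [(h0 s hs).2]))
  have h3 : (S.card : ℝ) ≤ ((⌊L⌋₊ + 1 : ℕ) : ℝ) := by exact_mod_cast h2
  push_cast at h3
  have := Nat.floor_le hL
  linarith

/-- removal of the coefficients of two variables -/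
lemma tri_cs (X Y W : Finset ℝ) (F G H : ℝ → ℝ → ℂ) (hF : ∀ y w, ‖F y w‖ ≤ 1) (θ : ℝ) :
    ‖∑ x ∈ X, ∑ y ∈ Y, ∑ w ∈ W, F y w * G x w * H x y * e (θ * x * y * w)‖ ^ 2 ≤
      Y.card * W.card * ∑ x ∈ X, ∑ x' ∈ X,
        ‖∑ y ∈ Y, ∑ w ∈ W, (H x y * (starRingEnd ℂ) (H x' y)) *
          (G x w * (starRingEnd ℂ) (G x' w)) * e ((θ * (x - x')) * y * w)‖ := by
  classical
  set T : ℝ × ℝ → ℂ := fun p => ∑ x ∈ X, G x p.2 * H x p.1 * e (θ * x * p.1 * p.2) with hT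
  have h1 : ∑ x ∈ X, ∑ y ∈ Y, ∑ w ∈ W, F y w * G x w * H x y * e (θ * x * y * w) =
      ∑ p ∈ Y ×ˢ W, F p.1 p.2 * T p := by
    rw [sum_product, sum_comm]
    refine sum_congr rfl fun y _ => ?_
    rw [sum_comm]
    refine sum_congr rfl fun w _ => ?_
    rw [hT, mul_sum]
    refine sum_congr rfl fun x _ => ?_
    ring
  have h2 : ‖∑ p ∈ Y ×ˢ W, F p.1 p.2 * T p‖ ≤ ∑ p ∈ Y ×ˢ W, 1 * ‖T p‖ := by
    refine (norm_sum_le _ _).trans (sum_le_sum fun p _ => ?_)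
    rw [norm_mul]
    exact mul_le_mul_of_nonneg_right (hF _ _) (norm_nonneg _)
  have h3 := Finset.sum_mul_sq_le_sq_mul_sq (Y ×ˢ W) (fun _ => (1 : ℝ)) (fun p => ‖T p‖)
  have key : (((∑ p ∈ Y ×ˢ W, ‖T p‖ ^ 2 : ℝ)) : ℂ) =
      ∑ x ∈ X, ∑ x' ∈ X, ∑ y ∈ Y, ∑ w ∈ W, (H x y * (starRingEnd ℂ) (H x' y)) *
          (G x w * (starRingEnd ℂ) (G x' w)) * e ((θ * (x - x')) * y * w) := by
    push_cast
    have h1 : ∀ p : ℝ × ℝ, ((‖T p‖ : ℂ)) ^ 2 =
        ∑ x ∈ X, ∑ x' ∈ X, (H x p.1 * (starRingEnd ℂ) (H x' p.1)) *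
          (G x p.2 * (starRingEnd ℂ) (G x' p.2)) * e ((θ * (x - x')) * p.1 * p.2) := by
      intro p
      rw [← Complex.mul_conj', hT]
      simp only
      rw [map_sum, sum_mul_sum]
      refine sum_congr rfl fun x _ => sum_congr rfl fun x' _ => ?_
      have e1 : θ * (x - x') * p.1 * p.2 = θ * x * p.1 * p.2 - θ * x' * p.1 * p.2 := by ring
      rw [map_mul, map_mul, e1, e_sub]
      ring
    rw [sum_congr rfl fun p _ => h1 p, sum_comm]
    refine sum_congr rfl fun x _ => ?_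
    rw [sum_comm]
    refine sum_congr rfl fun x' _ => ?_
    rw [sum_product]
  have h4 : (∑ p ∈ Y ×ˢ W, ‖T p‖ ^ 2 : ℝ) ≤ ∑ x ∈ X, ∑ x' ∈ X,
        ‖∑ y ∈ Y, ∑ w ∈ W, (H x y * (starRingEnd ℂ) (H x' y)) *
          (G x w * (starRingEnd ℂ) (G x' w)) * e ((θ * (x - x')) * y * w)‖ := by
    have h5 : ‖(((∑ p ∈ Y ×ˢ W, ‖T p‖ ^ 2 : ℝ)) : ℂ)‖ = ∑ p ∈ Y ×ˢ W, ‖T p‖ ^ 2 := by
      rw [Complex.norm_real, Real.norm_of_nonneg (by positivity)]
    rw [← h5, key]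
    refine (norm_sum_le _ _).trans (sum_le_sum fun x _ => ?_)
    exact norm_sum_le _ _
  rw [h1]
  calc ‖∑ p ∈ Y ×ˢ W, F p.1 p.2 * T p‖ ^ 2 ≤ (∑ p ∈ Y ×ˢ W, 1 * ‖T p‖) ^ 2 :=
        pow_le_pow_left₀ (norm_nonneg _) h2 2
    _ ≤ (∑ p ∈ Y ×ˢ W, (1 : ℝ) ^ 2) * ∑ p ∈ Y ×ˢ W, ‖T p‖ ^ 2 := h3
    _ = Y.card * W.card * ∑ p ∈ Y ×ˢ W, ‖T p‖ ^ 2 := by
        congr 1
        rw [sum_const, card_product]
        simp
    _ ≤ _ := mul_le_mul_of_nonneg_left h4 (by positivity)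

/-- The trilinear sum at scale `Z`. -/
lemma tri_bound (ε : ℝ) (hε : 0 < ε) (hε1 : ε ≤ 1) :
    ∀ᶠ Z : ℝ in atTop, ∀ (θ U V R M : ℝ) (X Y W : Finset ℝ) (F G H : ℝ → ℝ → ℂ),
      Z ^ ε ≤ U → Z ^ ε ≤ V → Z ^ ε ≤ R → R ≤ Z →
      Z ^ (ε - ε / 2048) ≤ |θ| * (U * V * R) → |θ| * U ≤ Z ^ (4 * (ε / 2048) - ε) →
      (∀ x ∈ X, 0 ≤ x ∧ x ≤ U) → (∀ x ∈ X, ∀ x' ∈ X, x ≠ x' → 1 ≤ |x - x'|) →
      (∀ y ∈ Y, 0 ≤ y ∧ y ≤ V) → (∀ y ∈ Y, ∀ y' ∈ Y, y ≠ y' → 1 ≤ |y - y'|) →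
      (∀ w ∈ W, 0 ≤ w ∧ w ≤ R) → (∀ w ∈ W, ∀ w' ∈ W, w ≠ w' → 1 ≤ |w - w'|) →
      U * V * R * Z ^ (-(ε / 256)) ≤ M → M ≤ (X.card : ℝ) * Y.card * W.card →
      (∀ y w, ‖F y w‖ ≤ 1) → (∀ x w, ‖G x w‖ ≤ 1) → (∀ x y, ‖H x y‖ ≤ 1) →
      ‖∑ x ∈ X, ∑ y ∈ Y, ∑ w ∈ W, F y w * G x w * H x y * e (θ * x * y * w)‖ ≤
        M * Z ^ (-(4 * (ε / 2048))) / 8 := by
  have hε4 : 0 < ε / 4 := by positivity
  filter_upwards [eventually_ge_atTop (2 : ℝ), sep_bound (ε / 4) hε4 (ε / 4 / 64) rfl,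
    ev_pow (-(ε / 8)) (-(ε / 256)) 2 (by linarith),
    ev_pow (-(ε / 64)) (-(3 * ε / 256)) (104 * 64) (by linarith)] with Z hZ2 hsb hp1 hp2
  intro θ U V R M X Y W F G H hU hV hR hRZ hθ1 hθ2 hX0 hX hY0 hY hW0 hW hM1 hM2 hF hG hH
  have hZ0 : 0 < Z := by linarith
  have hZ1 : 1 ≤ Z := by linarith
  have hE : ∀ a b : ℝ, a ≤ b → Z ^ a ≤ Z ^ b := fun a b h =>
    Real.rpow_le_rpow_of_exponent_le hZ1 h
  have hZε : 1 ≤ Z ^ ε := by
    calc (1 : ℝ) = Z ^ (0 : ℝ) := (Real.rpow_zero Z).symm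
      _ ≤ _ := hE _ _ hε.le
  have hU1 : 1 ≤ U := hZε.trans hU
  have hV1 : 1 ≤ V := hZε.trans hV
  have hR1 : 1 ≤ R := hZε.trans hR
  have hU0 : 0 < U := by linarith
  have hV0 : 0 < V := by linarith
  have hR0 : 0 < R := by linarith
  have cX : (X.card : ℝ) ≤ 2 * U := by
    have := card_sep X 0 U hU0.le (fun s hs => by simpa using hX0 s hs) hX
    linarith
  have cY : (Y.card : ℝ) ≤ 2 * V := by
    have := card_sep Y 0 V hV0.le (fun s hs => by simpa using hY0 s hs) hY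
    linarith
  have cW : (W.card : ℝ) ≤ 2 * R := by
    have := card_sep W 0 R hR0.le (fun s hs => by simpa using hW0 s hs) hW
    linarith
  have hX0' : (0 : ℝ) ≤ X.card := Nat.cast_nonneg _
  have hY0' : (0 : ℝ) ≤ Y.card := Nat.cast_nonneg _
  have hW0' : (0 : ℝ) ≤ W.card := Nat.cast_nonneg _
  -- the density of `Y × W`
  have hYW : V * R * Z ^ (-(ε / 4 / 2)) ≤ (Y.card : ℝ) * W.card := by
    have h1 : U * V * R * Z ^ (-(ε / 256)) ≤ 2 * U * ((Y.card : ℝ) * W.card) := by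
      calc U * V * R * Z ^ (-(ε / 256)) ≤ (X.card : ℝ) * Y.card * W.card := hM1.trans hM2
        _ = (X.card : ℝ) * ((Y.card : ℝ) * W.card) := by ring
        _ ≤ 2 * U * ((Y.card : ℝ) * W.card) := by gcongr
    have h2 : V * R * Z ^ (-(ε / 256)) ≤ 2 * ((Y.card : ℝ) * W.card) := by
      have h3 : U * (V * R * Z ^ (-(ε / 256))) ≤ U * (2 * ((Y.card : ℝ) * W.card)) := by
        calc U * (V * R * Z ^ (-(ε / 256))) = U * V * R * Z ^ (-(ε / 256)) := by ring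
          _ ≤ _ := h1
          _ = _ := by ring
      exact le_of_mul_le_mul_left h3 hU0
    have h4 : V * R * (2 * Z ^ (-(ε / 8))) ≤ V * R * Z ^ (-(ε / 256)) := by gcongr
    have h5 : -(ε / 4 / 2) = -(ε / 8) := by ring
    rw [h5]
    linarith
  -- close pairs
  set D : ℝ := U * Z ^ (-(ε / 4)) with hD
  have hD1 : 1 ≤ D := by
    calc (1 : ℝ) = Z ^ (0 : ℝ) := (Real.rpow_zero Z).symm
      _ ≤ Z ^ (ε + -(ε / 4)) := hE _ _ (by linarith)
      _ = Z ^ ε * Z ^ (-(ε / 4)) := Real.rpow_add hZ0 _ _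
      _ ≤ D := by
        rw [hD]
        gcongr
  set s4 : ℝ := Z ^ (-(4 * (ε / 4 / 64))) with hs4
  have hs40 : 0 < s4 := by positivity
  set Bf : ℝ → ℝ → ℝ := fun x x' => ‖∑ y ∈ Y, ∑ w ∈ W, (H x y * (starRingEnd ℂ) (H x' y)) *
          (G x w * (starRingEnd ℂ) (G x' w)) * e ((θ * (x - x')) * y * w)‖ with hBf
  have hone : ∀ a b : ℂ, ‖a‖ ≤ 1 → ‖b‖ ≤ 1 → ‖a * (starRingEnd ℂ) b‖ ≤ 1 := by
    intro a b ha hb
    rw [norm_mul, RCLike.norm_conj]
    exact mul_le_one₀ ha (norm_nonneg _) hb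
  have htriv : ∀ x x', Bf x x' ≤ (Y.card : ℝ) * W.card := by
    intro x x'
    calc Bf x x' ≤ ∑ y ∈ Y, ∑ w ∈ W, (1 : ℝ) := by
          refine (norm_sum_le _ _).trans (sum_le_sum fun y _ => ?_)
          refine (norm_sum_le _ _).trans (sum_le_sum fun w _ => ?_)
          rw [norm_mul, norm_e, mul_one, norm_mul]
          exact mul_le_one₀ (hone _ _ (hH x y) (hH x' y)) (norm_nonneg _)
            (hone _ _ (hG x w) (hG x' w))
      _ = _ := by simp
  have hfar : ∀ x ∈ X, ∀ x' ∈ X, D ≤ |x - x'| → Bf x x' ≤ (Y.card : ℝ) * W.card * s4 / 8 := by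
    intro x hx x' hx' hxx
    have hxU : |x - x'| ≤ U := by
      have := hX0 x hx
      have := hX0 x' hx'
      rw [abs_le]
      constructor <;> linarith
    refine hsb (θ * (x - x')) V R Y W (fun y => H x y * (starRingEnd ℂ) (H x' y))
      (fun w => G x w * (starRingEnd ℂ) (G x' w)) ((hE _ _ (by linarith)).trans hV)
      ((hE _ _ (by linarith)).trans hR) hRZ ?_ ?_ hY0 hY hW0 hW hYW
      (fun y => hone _ _ (hH x y) (hH x' y)) (fun w => hone _ _ (hG x w) (hG x' w))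
    · rw [abs_mul]
      calc Z ^ (ε / 4 - ε / 4 / 64) ≤ Z ^ (ε - ε / 2048 + -(ε / 4)) := hE _ _ (by linarith)
        _ = Z ^ (ε - ε / 2048) * Z ^ (-(ε / 4)) := Real.rpow_add hZ0 _ _
        _ ≤ |θ| * (U * V * R) * Z ^ (-(ε / 4)) := by gcongr
        _ = |θ| * D * (V * R) := by rw [hD]; ring
        _ ≤ |θ| * |x - x'| * (V * R) := by gcongr
    · rw [abs_mul]
      calc |θ| * |x - x'| ≤ |θ| * U := by gcongr
        _ ≤ Z ^ (4 * (ε / 2048) - ε) := hθ2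
        _ ≤ _ := hE _ _ (by linarith)
  have hsum : ∑ x ∈ X, ∑ x' ∈ X, Bf x x' ≤
      (Y.card : ℝ) * W.card * (X.card * (3 * D) + X.card * X.card * s4 / 8) := by
    have h1 : ∀ x ∈ X, ∑ x' ∈ X, Bf x x' ≤
        (Y.card : ℝ) * W.card * (3 * D + X.card * s4 / 8) := by
      intro x hx
      rw [← sum_filter_add_sum_filter_not X (fun x' => |x - x'| < D)]
      have h2 : ∑ x' ∈ X.filter (fun x' => |x - x'| < D), Bf x x' ≤
          (Y.card : ℝ) * W.card * (3 * D) := by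
        have h3 : ((X.filter (fun x' => |x - x'| < D)).card : ℝ) ≤ 2 * D + 1 := by
          apply card_sep _ (x - D) (2 * D) (by linarith)
          · intro s hs
            rw [mem_filter, abs_lt] at hs
            constructor <;> linarith [hs.2.1, hs.2.2]
          · intro s hs s' hs' hne
            rw [mem_filter] at hs hs'
            exact hX s hs.1 s' hs'.1 hne
        calc ∑ x' ∈ X.filter (fun x' => |x - x'| < D), Bf x x' ≤
            ∑ x' ∈ X.filter (fun x' => |x - x'| < D), (Y.card : ℝ) * W.card :=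
              sum_le_sum fun x' _ => htriv x x'
          _ = ((X.filter (fun x' => |x - x'| < D)).card : ℝ) * ((Y.card : ℝ) * W.card) := by
              rw [sum_const, nsmul_eq_mul]
          _ ≤ (3 * D) * ((Y.card : ℝ) * W.card) := by
              apply mul_le_mul_of_nonneg_right _ (by positivity)
              linarith
          _ = _ := by ring
      have h4 : ∑ x' ∈ X.filter (fun x' => ¬ |x - x'| < D), Bf x x' ≤
          (Y.card : ℝ) * W.card * (X.card * s4 / 8) := by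
        calc ∑ x' ∈ X.filter (fun x' => ¬ |x - x'| < D), Bf x x' ≤
            ∑ x' ∈ X.filter (fun x' => ¬ |x - x'| < D), (Y.card : ℝ) * W.card * s4 / 8 := by
              refine sum_le_sum fun x' hx' => ?_
              rw [mem_filter, not_lt] at hx'
              exact hfar x hx x' hx'.1 hx'.2
          _ = ((X.filter (fun x' => ¬ |x - x'| < D)).card : ℝ) *
                ((Y.card : ℝ) * W.card * s4 / 8) := by
              rw [sum_const, nsmul_eq_mul]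
          _ ≤ (X.card : ℝ) * ((Y.card : ℝ) * W.card * s4 / 8) := by
              apply mul_le_mul_of_nonneg_right _ (by positivity)
              exact_mod_cast card_filter_le _ _
          _ = _ := by ring
      calc _ ≤ (Y.card : ℝ) * W.card * (3 * D) + (Y.card : ℝ) * W.card * (X.card * s4 / 8) :=
            add_le_add h2 h4
        _ = _ := by ring
    calc ∑ x ∈ X, ∑ x' ∈ X, Bf x x' ≤
        ∑ x ∈ X, (Y.card : ℝ) * W.card * (3 * D + X.card * s4 / 8) := sum_le_sum h1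
      _ = _ := by
          rw [sum_const, nsmul_eq_mul]
          ring
  have hcs := tri_cs X Y W F G H hF θ
  set P : ℝ := U * V * R with hP
  have hP0 : 0 < P := by positivity
  have hM0 : 0 < M := lt_of_lt_of_le (by positivity) hM1
  refine le_of_sq_le_sq ?_ (by positivity)
  refine hcs.trans ?_
  have hmain : (Y.card : ℝ) * W.card * ((Y.card : ℝ) * W.card *
      (X.card * (3 * D) + X.card * X.card * s4 / 8)) ≤ P ^ 2 * (104 * Z ^ (-(ε / 64))) := by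
    have e1 : s4 = Z ^ (-(ε / 64)) := by
      rw [hs4]
      congr 1
      ring
    have e2 : Z ^ (-(ε / 4)) ≤ Z ^ (-(ε / 64)) := hE _ _ (by linarith)
    have e3 : 0 < Z ^ (-(ε / 64)) := by positivity
    have e4 : 0 < Z ^ (-(ε / 4)) := by positivity
    calc (Y.card : ℝ) * W.card * ((Y.card : ℝ) * W.card *
        (X.card * (3 * D) + X.card * X.card * s4 / 8)) ≤
        (2 * V) * (2 * R) * ((2 * V) * (2 * R) *
          ((2 * U) * (3 * D) + (2 * U) * (2 * U) * s4 / 8)) := by gcongr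
      _ = P ^ 2 * (96 * Z ^ (-(ε / 4)) + 8 * Z ^ (-(ε / 64))) := by
          rw [hD, e1, hP]
          ring
      _ ≤ P ^ 2 * (104 * Z ^ (-(ε / 64))) := by
          apply mul_le_mul_of_nonneg_left _ (by positivity)
          linarith
  calc (Y.card : ℝ) * W.card * ∑ x ∈ X, ∑ x' ∈ X, Bf x x' ≤
      (Y.card : ℝ) * W.card * ((Y.card : ℝ) * W.card *
        (X.card * (3 * D) + X.card * X.card * s4 / 8)) := by gcongr
    _ ≤ P ^ 2 * (104 * Z ^ (-(ε / 64))) := hmain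
    _ = P ^ 2 * (104 * 64 * Z ^ (-(ε / 64))) / 64 := by ring
    _ ≤ P ^ 2 * Z ^ (-(3 * ε / 256)) / 64 := by gcongr
    _ = (P * Z ^ (-(ε / 256)) * Z ^ (-(4 * (ε / 2048))) / 8) ^ 2 := by
        have e5 : Z ^ (-(3 * ε / 256)) =
            (Z ^ (-(ε / 256)) * Z ^ (-(4 * (ε / 2048)))) ^ 2 := by
          rw [← Real.rpow_add hZ0, ← Real.rpow_natCast, ← Real.rpow_mul hZ0.le]
          congr 1
          push_cast
          ring
        rw [e5]
        ring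
    _ ≤ (M * Z ^ (-(4 * (ε / 2048))) / 8) ^ 2 := by gcongr

end Pool.Agent.Y565.RG
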