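import Pool.Agent.Y565.RG.Count
import Pool.Agent.Y565.RG.Tri

set_option autoImplicit false

/-!
Record prime-free neighbourhoods of `α x y w + f y w + g x w + h x y` for separated sets of reals.
-/

namespace Pool.Agent.Y565.RG

open Finset Filter
open Pool.Agent.H469R2.NK (e norm_e e_add)
open Pool.Agent.W147.PS (ff ff_compare ev_pow)

theorem tri_scale (ε : ℝ) (hε : 0 < ε) (hε1 : ε ≤ 1) :
    ∃ κ : ℝ, 0 < κ ∧ ∀ᶠ Z : ℝ in atTop,
      ∀ (α U V R : ℝ) (X Y W : Finset ℝ) (R₁ R₂ R₃ : ℝ → ℝ → Prop) (f g h : ℝ → ℝ → ℝ)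
        (E : Finset (ℝ × ℝ × ℝ)),
      Z ^ ε ≤ U → Z ^ ε ≤ V → Z ^ ε ≤ R → R ≤ Z →
      Z ^ ε ≤ |α| * (U * V * R) → |α| * U ≤ Z ^ (-ε) →
      (∀ x ∈ X, 0 ≤ x ∧ x ≤ U) → (∀ x ∈ X, ∀ x' ∈ X, x ≠ x' → 1 ≤ |x - x'|) →
      (∀ y ∈ Y, 0 ≤ y ∧ y ≤ V) → (∀ y ∈ Y, ∀ y' ∈ Y, y ≠ y' → 1 ≤ |y - y'|) →
      (∀ w ∈ W, 0 ≤ w ∧ w ≤ R) → (∀ w ∈ W, ∀ w' ∈ W, w ≠ w' → 1 ≤ |w - w'|) →
      (∀ p, p ∈ E ↔ (p.1 ∈ X ∧ p.2.1 ∈ Y ∧ p.2.2 ∈ W) ∧
        R₁ p.2.1 p.2.2 ∧ R₂ p.1 p.2.2 ∧ R₃ p.1 p.2.1) →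
      U * V * R * Z ^ (-(ε / 256)) ≤ E.card →
      (∀ p ∈ E, Z ^ ε ≤ α * p.1 * p.2.1 * p.2.2 + f p.2.1 p.2.2 + g p.1 p.2.2 + h p.1 p.2.1) →
      ∃ S : Finset (ℝ × ℝ × ℝ), S ⊆ E ∧ (E.card : ℝ) * Z ^ (-ε) ≤ S.card ∧
        ∀ p ∈ S, ∀ q : ℕ, q.Prime → κ * ff Z <
          |(q : ℝ) - (α * p.1 * p.2.1 * p.2.2 + f p.2.1 p.2.2 + g p.1 p.2.2 + h p.1 p.2.1)| := by
  classical
  have hη0 : 0 < ε / 2048 := by positivity
  obtain ⟨κ, hκ, hcrit⟩ := crit_count (ε / 2048) hη0 (by linarith)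
  refine ⟨κ, hκ, ?_⟩
  filter_upwards [hcrit, tri_bound ε hε hε1, eventually_ge_atTop (2 : ℝ),
    ev_pow (-ε) (-(4 * (ε / 2048))) 2 (by linarith)] with Z hcr hbd hZ2 hp4
  intro α U V R X Y W R₁ R₂ R₃ f g h E hU hV hR hRZ hα1 hα2 hX0 hX hY0 hY hW0 hW hE hEc hlow
  have hZ0 : 0 < Z := by linarith
  have hZ1 : 1 ≤ Z := by linarith
  have hU0 : 0 < U := lt_of_lt_of_le (by positivity) hU
  have hV0 : 0 < V := lt_of_lt_of_le (by positivity) hV
  have hR0 : 0 < R := lt_of_lt_of_le (by positivity) hR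
  have hEpos : (0 : ℝ) < E.card := lt_of_lt_of_le (by positivity) hEc
  have hEeq : E = (X ×ˢ (Y ×ˢ W)).filter (fun p =>
      R₁ p.2.1 p.2.2 ∧ R₂ p.1 p.2.2 ∧ R₃ p.1 p.2.1) := by
    ext p
    rw [hE, mem_filter, mem_product, mem_product]
  have hEle : (E.card : ℝ) ≤ (X.card : ℝ) * Y.card * W.card := by
    have h1 : E.card ≤ (X ×ˢ (Y ×ˢ W)).card := by
      rw [hEeq]
      exact card_filter_le _ _
    rw [card_product, card_product] at h1
    have h2 : (E.card : ℝ) ≤ ((X.card * (Y.card * W.card) : ℕ) : ℝ) := by exact_mod_cast h1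
    push_cast at h2
    linarith
  obtain ⟨S, hS1, hS2, hS3⟩ := hcr (ℝ × ℝ × ℝ) E
    (fun p => α * p.1 * p.2.1 * p.2.2 + f p.2.1 p.2.2 + g p.1 p.2.2 + h p.1 p.2.1) (by
      rw [← Finset.card_pos]
      exact_mod_cast hEpos) (by
      intro p hp
      refine le_trans ?_ (hlow p hp)
      exact Real.rpow_le_rpow_of_exponent_le hZ1 (by linarith)) (by
      intro q k hq hqZ hk hkZ
      have hq1 : (1 : ℝ) ≤ q := by exact_mod_cast hq
      have hk1 : (1 : ℝ) ≤ k := by exact_mod_cast hk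
      have hq0 : (0 : ℝ) < q := by linarith
      have hlo : Z ^ (-(ε / 2048)) ≤ (k : ℝ) / q := by
        rw [Real.rpow_neg hZ0.le, ← one_div]
        gcongr
      have hhi : (k : ℝ) / q ≤ Z ^ (4 * (ε / 2048)) := by
        rw [div_le_iff₀ hq0]
        calc (k : ℝ) ≤ Z ^ (4 * (ε / 2048)) * 1 := by linarith
          _ ≤ Z ^ (4 * (ε / 2048)) * q := by gcongr
      have hkq0 : 0 < (k : ℝ) / q := by positivity
      set θ : ℝ := (k : ℝ) / q * α with hθ
      have habs : |θ| = (k : ℝ) / q * |α| := by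
        rw [hθ, abs_mul, abs_of_pos hkq0]
      set F : ℝ → ℝ → ℂ := fun y w => if R₁ y w then e ((k : ℝ) / q * f y w) else 0 with hFd
      set G : ℝ → ℝ → ℂ := fun x w => if R₂ x w then e ((k : ℝ) / q * g x w) else 0 with hGd
      set H : ℝ → ℝ → ℂ := fun x y => if R₃ x y then e ((k : ℝ) / q * h x y) else 0 with hHd
      have hn : ∀ (Q : Prop) [Decidable Q] (t : ℝ), ‖(if Q then e t else 0 : ℂ)‖ ≤ 1 := by
        intro Q _ t
        split_ifs
        · rw [norm_e]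
        · rw [norm_zero]
          exact zero_le_one
      have hb := hbd θ U V R E.card X Y W F G H hU hV hR hRZ (by
          rw [habs]
          calc Z ^ (ε - ε / 2048) = Z ^ (-(ε / 2048)) * Z ^ ε := by
                rw [← Real.rpow_add hZ0]
                congr 1
                ring
            _ ≤ (k : ℝ) / q * (|α| * (U * V * R)) := by gcongr
            _ = _ := by ring) (by
          rw [habs]
          calc (k : ℝ) / q * |α| * U = (k : ℝ) / q * (|α| * U) := by ring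
            _ ≤ Z ^ (4 * (ε / 2048)) * Z ^ (-ε) := by gcongr
            _ = Z ^ (4 * (ε / 2048) - ε) := by
                rw [← Real.rpow_add hZ0]
                congr 1) hX0 hX hY0 hY hW0 hW hEc hEle
        (fun y w => hn _ _) (fun x w => hn _ _) (fun x y => hn _ _)
      have hsum : ∑ p ∈ E, e ((k : ℝ) / q * (α * p.1 * p.2.1 * p.2.2 + f p.2.1 p.2.2 +
          g p.1 p.2.2 + h p.1 p.2.1)) =
          ∑ x ∈ X, ∑ y ∈ Y, ∑ w ∈ W, F y w * G x w * H x y * e (θ * x * y * w) := by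
        rw [hEeq, sum_filter, sum_product]
        refine sum_congr rfl fun x _ => ?_
        rw [sum_product]
        refine sum_congr rfl fun y _ => sum_congr rfl fun w _ => ?_
        simp only [hFd, hGd, hHd]
        by_cases c1 : R₁ y w
        · by_cases c2 : R₂ x w
          · by_cases c3 : R₃ x y
            · rw [if_pos ⟨c1, c2, c3⟩, if_pos c1, if_pos c2, if_pos c3, ← e_add, ← e_add,
                ← e_add]
              congr 1
              rw [hθ]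
              ring
            · rw [if_neg (fun hh => c3 hh.2.2), if_neg c3]
              ring
          · rw [if_neg (fun hh => c2 hh.2.1), if_neg c2]
            ring
        · rw [if_neg (fun hh => c1 hh.1), if_neg c1]
          ring
      rw [hsum]
      exact hb)
  refine ⟨S, hS1, ?_, hS3⟩
  refine le_trans ?_ hS2
  have h6 : (E.card : ℝ) * (2 * Z ^ (-ε)) ≤ (E.card : ℝ) * Z ^ (-(4 * (ε / 2048))) := by
    gcongr
  linarith

end Pool.Agent.Y565.RG
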