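import Pool.Agent.Y565.RG.Sep

set_option autoImplicit false

/-!
Bilinear sums over separated sets of points of `ℝ ^ d`.
-/

namespace Pool.Agent.Y565.RG

open Finset
open Pool.Agent.H469R2.NK (e norm_e e_add e_zero harm_le)
open Pool.Agent.TH915.PW (e_sub)

lemma e_sum {ι : Type} (s : Finset ι) (a : ι → ℝ) : e (∑ i ∈ s, a i) = ∏ i ∈ s, e (a i) := by
  classical
  induction s using Finset.induction_on with
  | empty => simp [e_zero]
  | insert i s hi ih => rw [sum_insert hi, prod_insert hi, e_add, ih]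

lemma reidx (S : Finset ℕ) (φ : ℕ → ℕ) (M : ℕ) (hinj : Set.InjOn φ (S : Set ℕ))
    (hmap : ∀ k ∈ S, 1 ≤ φ k ∧ φ k < M) : ∑ k ∈ S, (1 : ℝ) / (φ k : ℝ) ≤ 1 + Real.log M := by
  classical
  calc ∑ k ∈ S, (1 : ℝ) / (φ k : ℝ) = ∑ j ∈ S.image φ, (1 : ℝ) / (j : ℝ) := by
        rw [sum_image (fun s hs s' hs' h => hinj hs hs' h)]
    _ ≤ ∑ j ∈ Ico 1 M, (1 : ℝ) / (j : ℝ) := by
        apply sum_le_sum_of_subset_of_nonneg
        · intro j hj
          obtain ⟨k, hk, rfl⟩ := mem_image.mp hj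
          rw [mem_Ico]
          exact hmap k hk
        · intro j _ _
          positivity
    _ ≤ _ := harm_le M

/-- the bound for the kernel in the cells `m`, `k` -/
noncomputable def cellb (N L : ℝ) (m k : ℕ) : ℝ :=
  if k ≤ m + 1 ∧ m ≤ k + 1 then N else L * (1 / (((k - m) + (m - k) - 1 : ℕ) : ℝ))

lemma cellb_nonneg {N L : ℝ} (hN : 0 ≤ N) (hL : 0 ≤ L) (m k : ℕ) : 0 ≤ cellb N L m k := by
  unfold cellb
  split_ifs
  · exact hN
  · positivity

lemma cellb_sum {N L : ℝ} (hN : 0 ≤ N) (hL : 0 ≤ L) (M m : ℕ) (hm : m < M) :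
    ∑ k ∈ range M, cellb N L m k ≤ 3 * N + 2 * L * (1 + Real.log M) := by
  classical
  rw [← sum_filter_add_sum_filter_not (range M) (fun k => k ≤ m + 1 ∧ m ≤ k + 1)]
  apply add_le_add
  · calc ∑ k ∈ (range M).filter (fun k => k ≤ m + 1 ∧ m ≤ k + 1), cellb N L m k =
        ∑ k ∈ (range M).filter (fun k => k ≤ m + 1 ∧ m ≤ k + 1), N := by
          refine sum_congr rfl fun k hk => ?_
          rw [mem_filter] at hk
          unfold cellb
          rw [if_pos hk.2]
      _ = (((range M).filter (fun k => k ≤ m + 1 ∧ m ≤ k + 1)).card : ℝ) * N := by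
          rw [sum_const, nsmul_eq_mul]
      _ ≤ 3 * N := by
          gcongr
          have h1 : (range M).filter (fun k => k ≤ m + 1 ∧ m ≤ k + 1) ⊆ Icc (m - 1) (m + 1) := by
            intro k hk
            rw [mem_filter] at hk
            rw [mem_Icc]
            omega
          have h2 := card_le_card h1
          rw [Nat.card_Icc] at h2
          have h3 : ((range M).filter (fun k => k ≤ m + 1 ∧ m ≤ k + 1)).card ≤ 3 := by omega
          exact_mod_cast h3
  · rw [← sum_filter_add_sum_filter_not ((range M).filter (fun k => ¬ (k ≤ m + 1 ∧ m ≤ k + 1)))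
      (fun k => k < m)]
    have key : ∀ S : Finset ℕ, (∀ k ∈ S, k < M ∧ ¬ (k ≤ m + 1 ∧ m ≤ k + 1)) →
        Set.InjOn (fun k => (k - m) + (m - k) - 1) (S : Set ℕ) →
        ∑ k ∈ S, cellb N L m k ≤ L * (1 + Real.log M) := by
      intro S hS hinj
      calc ∑ k ∈ S, cellb N L m k =
          ∑ k ∈ S, L * (1 / (((k - m) + (m - k) - 1 : ℕ) : ℝ)) := by
            refine sum_congr rfl fun k hk => ?_
            unfold cellb
            rw [if_neg (hS k hk).2]
        _ = L * ∑ k ∈ S, (1 / (((k - m) + (m - k) - 1 : ℕ) : ℝ)) := by rw [mul_sum]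
        _ ≤ _ := by
            apply mul_le_mul_of_nonneg_left _ hL
            apply reidx S (fun k => (k - m) + (m - k) - 1) M hinj
            intro k hk
            have := hS k hk
            constructor <;> omega
    have k1 := key (((range M).filter (fun k => ¬ (k ≤ m + 1 ∧ m ≤ k + 1))).filter
      (fun k => k < m)) (by
        intro k hk
        rw [mem_filter, mem_filter, Finset.mem_range] at hk
        exact hk.1) (by
        intro a ha b hb hab
        rw [Finset.mem_coe, mem_filter, mem_filter] at ha hb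
        simp only at hab
        omega)
    have k2 := key (((range M).filter (fun k => ¬ (k ≤ m + 1 ∧ m ≤ k + 1))).filter
      (fun k => ¬ k < m)) (by
        intro k hk
        rw [mem_filter, mem_filter, Finset.mem_range] at hk
        exact hk.1) (by
        intro a ha b hb hab
        rw [Finset.mem_coe, mem_filter, mem_filter] at ha hb
        simp only at hab
        omega)
    linarith

/-- kernels with the usual bounds, in cells -/
lemma ker_cell {N L V : ℝ} (hL : 0 ≤ L) (ker : ℝ → ℝ → ℝ)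
    (h1 : ∀ s t : ℝ, 0 ≤ s → s ≤ V → 0 ≤ t → t ≤ V → ker s t ≤ N)
    (h2 : ∀ s t : ℝ, 0 ≤ s → s ≤ V → 0 ≤ t → t ≤ V → s ≠ t → ker s t ≤ L / |s - t|)
    (s t : ℝ) (hs : 0 ≤ s) (hsV : s ≤ V) (ht : 0 ≤ t) (htV : t ≤ V) :
    ker s t ≤ cellb N L ⌊s⌋₊ ⌊t⌋₊ := by
  unfold cellb
  split_ifs with h
  · exact h1 s t hs hsV ht htV
  · have a1 := Nat.floor_le hs
    have a2 := Nat.lt_floor_add_one s
    have b1 := Nat.floor_le ht
    have b2 := Nat.lt_floor_add_one t
    set m := ⌊s⌋₊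
    set k := ⌊t⌋₊
    have hpos : (1 : ℝ) ≤ (((k - m) + (m - k) - 1 : ℕ) : ℝ) := by
      have : 1 ≤ (k - m) + (m - k) - 1 := by omega
      exact_mod_cast this
    have hdist : (((k - m) + (m - k) - 1 : ℕ) : ℝ) ≤ |s - t| := by
      rcases lt_or_ge k m with hkm | hkm
      · have e1 : (k - m) + (m - k) - 1 + 1 + k = m := by omega
        have e2 : (((k - m) + (m - k) - 1 : ℕ) : ℝ) + 1 + k = m := by exact_mod_cast e1
        have := le_abs_self (s - t)
        linarith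
      · have e1 : (k - m) + (m - k) - 1 + 1 + m = k := by omega
        have e2 : (((k - m) + (m - k) - 1 : ℕ) : ℝ) + 1 + m = k := by exact_mod_cast e1
        have := neg_abs_le (s - t)
        linarith
    have hne : s ≠ t := by
      intro hst
      rw [hst, sub_self, abs_zero] at hdist
      linarith
    refine (h2 s t hs hsV ht htV hne).trans ?_
    rw [div_eq_mul_one_div]
    apply mul_le_mul_of_nonneg_left _ hL
    exact one_div_le_one_div_of_le (by linarith) hdist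

/-- sum of the products of the kernels over a separated set -/
lemma ker_sum {d : ℕ} {N L V : ℝ} (hN : 0 ≤ N) (hL : 0 ≤ L) (hV : 0 ≤ V) (ker : ℝ → ℝ → ℝ)
    (h0 : ∀ s t : ℝ, 0 ≤ ker s t)
    (h1 : ∀ s t : ℝ, 0 ≤ s → s ≤ V → 0 ≤ t → t ≤ V → ker s t ≤ N)
    (h2 : ∀ s t : ℝ, 0 ≤ s → s ≤ V → 0 ≤ t → t ≤ V → s ≠ t → ker s t ≤ L / |s - t|)
    (Y : Finset (Fin d → ℝ)) (hY0 : ∀ y ∈ Y, ∀ i, 0 ≤ y i ∧ y i ≤ V)
    (hY : ∀ y ∈ Y, ∀ y' ∈ Y, y ≠ y' → ∃ i, 1 ≤ |y i - y' i|) (y : Fin d → ℝ) (hy : y ∈ Y) :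
    ∑ y' ∈ Y, ∏ i, ker (y i) (y' i) ≤ (3 * N + 2 * L * (1 + Real.log (V + 1))) ^ d := by
  classical
  set M : ℕ := ⌊V⌋₊ + 1 with hM
  have hfl : ∀ z ∈ Y, ∀ i, ⌊z i⌋₊ < M := fun z hz i =>
    Nat.lt_succ_of_le (Nat.floor_le_floor (hY0 z hz i).2)
  have hinj : Set.InjOn (fun (z : Fin d → ℝ) (i : Fin d) => ⌊z i⌋₊) (Y : Set (Fin d → ℝ)) := by
    intro z hz z' hz' h
    by_contra hne
    obtain ⟨i, hi⟩ := hY z hz z' hz' hne
    have h3 : ⌊z i⌋₊ = ⌊z' i⌋₊ := congrFun h i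
    have a1 := Nat.floor_le (hY0 z hz i).1
    have a2 := Nat.lt_floor_add_one (z i)
    have b1 := Nat.floor_le (hY0 z' hz' i).1
    have b2 := Nat.lt_floor_add_one (z' i)
    rw [h3] at a1 a2
    have : |z i - z' i| < 1 := by
      rw [abs_lt]
      constructor <;> linarith
    linarith
  calc ∑ y' ∈ Y, ∏ i, ker (y i) (y' i) ≤ ∑ y' ∈ Y, ∏ i, cellb N L ⌊y i⌋₊ ⌊y' i⌋₊ := by
        refine sum_le_sum fun y' hy' => ?_
        refine prod_le_prod (fun i _ => h0 _ _) fun i _ => ?_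
        exact ker_cell hL ker h1 h2 _ _ (hY0 y hy i).1 (hY0 y hy i).2 (hY0 y' hy' i).1
          (hY0 y' hy' i).2
    _ = ∑ k ∈ Y.image (fun (z : Fin d → ℝ) (i : Fin d) => ⌊z i⌋₊),
          ∏ i, cellb N L ⌊y i⌋₊ (k i) := by
        rw [sum_image (fun s hs s' hs' h => hinj hs hs' h)]
    _ ≤ ∑ k ∈ Fintype.piFinset (fun _ : Fin d => range M), ∏ i, cellb N L ⌊y i⌋₊ (k i) := by
        apply sum_le_sum_of_subset_of_nonneg
        · intro k hk
          obtain ⟨z, hz, rfl⟩ := mem_image.mp hk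
          rw [Fintype.mem_piFinset]
          intro i
          rw [Finset.mem_range]
          exact hfl z hz i
        · intro k _ _
          exact prod_nonneg fun i _ => cellb_nonneg hN hL _ _
    _ = ∏ i : Fin d, ∑ k ∈ range M, cellb N L ⌊y i⌋₊ k := by
        rw [Finset.prod_univ_sum]
    _ ≤ ∏ i : Fin d, (3 * N + 2 * L * (1 + Real.log (V + 1))) := by
        refine prod_le_prod (fun i _ => sum_nonneg fun k _ => cellb_nonneg hN hL _ _) fun i _ => ?_
        refine (cellb_sum hN hL M _ (hfl y hy i)).trans ?_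
        have h5 : Real.log M ≤ Real.log (V + 1) := by
          apply Real.log_le_log
          · rw [hM]
            positivity
          · rw [hM]
            push_cast
            have := Nat.floor_le hV
            linarith
        gcongr
    _ = _ := by
        rw [prod_const, Finset.card_univ, Fintype.card_fin]

/-- the mean square over the integer points of a cube of an exponential sum with separated
frequencies -/
lemma mean_vec {d : ℕ} (Y : Finset (Fin d → ℝ)) (V : ℝ) (hV : 0 ≤ V)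
    (hY0 : ∀ y ∈ Y, ∀ i, 0 ≤ y i ∧ y i ≤ V)
    (hY : ∀ y ∈ Y, ∀ y' ∈ Y, y ≠ y' → ∃ i, 1 ≤ |y i - y' i|) (c : ℝ) (hc : c ≠ 0)
    (hcV : |c| * V ≤ 1 / 2) (w : (Fin d → ℝ) → ℂ) (hw : ∀ y, ‖w y‖ ≤ 1) (N : ℕ) :
    ∑ n ∈ Fintype.piFinset (fun _ : Fin d => range N),
      ‖∑ y ∈ Y, w y * e (∑ i, (n i : ℝ) * (c * y i))‖ ^ 2 ≤
      Y.card * (3 * N + 2 * (2 / |c|) * (1 + Real.log (V + 1))) ^ d := by
  classical
  have hc0 : 0 < |c| := abs_pos.mpr hc
  set B : Finset (Fin d → ℕ) := Fintype.piFinset (fun _ : Fin d => range N) with hB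
  have key : (((∑ n ∈ B, ‖∑ y ∈ Y, w y * e (∑ i, (n i : ℝ) * (c * y i))‖ ^ 2 : ℝ)) : ℂ) =
      ∑ y ∈ Y, ∑ y' ∈ Y, w y * (starRingEnd ℂ) (w y') *
        ∑ n ∈ B, e (∑ i, (n i : ℝ) * (c * (y i - y' i))) := by
    push_cast
    have h1 : ∀ n : Fin d → ℕ, ((‖∑ y ∈ Y, w y * e (∑ i, (n i : ℝ) * (c * y i))‖ : ℂ)) ^ 2 =
        ∑ y ∈ Y, ∑ y' ∈ Y, w y * (starRingEnd ℂ) (w y') *
          e (∑ i, (n i : ℝ) * (c * (y i - y' i))) := by
      intro n
      rw [← Complex.mul_conj', map_sum, sum_mul_sum]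
      refine sum_congr rfl fun y _ => sum_congr rfl fun y' _ => ?_
      have e1 : ∑ i, (n i : ℝ) * (c * (y i - y' i)) =
          ∑ i, (n i : ℝ) * (c * y i) - ∑ i, (n i : ℝ) * (c * y' i) := by
        rw [← sum_sub_distrib]
        refine sum_congr rfl fun i _ => ?_
        ring
      rw [map_mul, e1, e_sub]
      ring
    rw [sum_congr rfl fun n _ => h1 n, sum_comm]
    refine sum_congr rfl fun y _ => ?_
    rw [sum_comm]
    refine sum_congr rfl fun y' _ => ?_
    rw [mul_sum]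
  set ker : ℝ → ℝ → ℝ := fun s t => ‖∑ n ∈ range N, e ((n : ℝ) * (c * (s - t)))‖ with hker
  have hfac : ∀ y y' : Fin d → ℝ, ‖∑ n ∈ B, e (∑ i, (n i : ℝ) * (c * (y i - y' i)))‖ =
      ∏ i, ker (y i) (y' i) := by
    intro y y'
    have e1 : ∑ n ∈ B, e (∑ i, (n i : ℝ) * (c * (y i - y' i))) =
        ∏ i : Fin d, ∑ n ∈ range N, e ((n : ℝ) * (c * (y i - y' i))) := by
      rw [Finset.prod_univ_sum]
      refine sum_congr rfl fun n _ => ?_
      rw [e_sum]
    rw [e1, norm_prod]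
  have h2 : (∑ n ∈ B, ‖∑ y ∈ Y, w y * e (∑ i, (n i : ℝ) * (c * y i))‖ ^ 2 : ℝ) ≤
      ∑ y ∈ Y, ∑ y' ∈ Y, ∏ i, ker (y i) (y' i) := by
    have h3 : ‖(((∑ n ∈ B, ‖∑ y ∈ Y, w y * e (∑ i, (n i : ℝ) * (c * y i))‖ ^ 2 : ℝ)) : ℂ)‖ =
        ∑ n ∈ B, ‖∑ y ∈ Y, w y * e (∑ i, (n i : ℝ) * (c * y i))‖ ^ 2 := by
      rw [Complex.norm_real, Real.norm_of_nonneg (by positivity)]
    rw [← h3, key]
    refine (norm_sum_le _ _).trans (sum_le_sum fun y _ => ?_)
    refine (norm_sum_le _ _).trans (sum_le_sum fun y' _ => ?_)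
    rw [norm_mul, norm_mul, RCLike.norm_conj, hfac]
    have h5 : 0 ≤ ∏ i, ker (y i) (y' i) := prod_nonneg fun i _ => norm_nonneg _
    calc ‖w y‖ * ‖w y'‖ * ∏ i, ker (y i) (y' i) ≤ 1 * 1 * ∏ i, ker (y i) (y' i) := by
          gcongr
          · exact hw y
          · exact hw y'
      _ = _ := by ring
  refine h2.trans ?_
  have h4 : ∀ y ∈ Y, ∑ y' ∈ Y, ∏ i, ker (y i) (y' i) ≤
      (3 * N + 2 * (2 / |c|) * (1 + Real.log (V + 1))) ^ d := by
    intro y hy
    refine ker_sum (Nat.cast_nonneg N) (by positivity) hV ker (fun s t => norm_nonneg _) ?_ ?_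
      Y hY0 hY y hy
    · intro s t _ _ _ _
      refine (norm_sum_le _ _).trans ?_
      simp only [norm_e, sum_const, card_range, nsmul_eq_mul, mul_one]
      exact le_rfl
    · intro s t hs hsV ht htV hne
      have h5 : |s - t| ≤ V := by
        rw [abs_le]
        constructor <;> linarith
      have h6 : c * (s - t) ≠ 0 := mul_ne_zero hc (sub_ne_zero.mpr hne)
      have h7 : |c * (s - t)| ≤ 1 / 2 := by
        rw [abs_mul]
        exact (mul_le_mul_of_nonneg_left h5 hc0.le).trans hcV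
      refine (geom_half N _ h6 h7).trans (le_of_eq ?_)
      rw [abs_mul, div_div]
  calc ∑ y ∈ Y, ∑ y' ∈ Y, ∏ i, ker (y i) (y' i) ≤
      ∑ y ∈ Y, (3 * (N : ℝ) + 2 * (2 / |c|) * (1 + Real.log (V + 1))) ^ d := sum_le_sum h4
    _ = _ := by rw [sum_const, nsmul_eq_mul]

/-- the bilinear sum over separated sets of points -/
lemma bil_vec {d : ℕ} (hd : 1 ≤ d) (X Y : Finset (Fin d → ℝ)) (U V : ℝ) (hU : 0 < U) (hV : 0 < V)
    (hX0 : ∀ x ∈ X, ∀ i, 0 ≤ x i ∧ x i ≤ U)
    (hX : ∀ x ∈ X, ∀ x' ∈ X, x ≠ x' → ∃ i, 1 ≤ |x i - x' i|)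
    (hY0 : ∀ y ∈ Y, ∀ i, 0 ≤ y i ∧ y i ≤ V)
    (hY : ∀ y ∈ Y, ∀ y' ∈ Y, y ≠ y' → ∃ i, 1 ≤ |y i - y' i|) (θ δ ρ : ℝ) (hθ : θ ≠ 0)
    (hδ : 0 < δ) (hδ1 : δ ≤ 1) (hρ : |θ| * δ * V * d ≤ ρ) (hρ2 : ρ ≤ 1 / 2)
    (u w : (Fin d → ℝ) → ℂ) (hu : ∀ x, ‖u x‖ ≤ 1) (hw : ∀ y, ‖w y‖ ≤ 1) :
    ‖∑ x ∈ X, ∑ y ∈ Y, u x * w y * e (θ * ∑ i, x i * y i)‖ ≤
      2 * Real.pi * ρ * (X.card * Y.card) +
      Real.sqrt (X.card * Y.card *
        (3 * (U / δ + 1) + 2 * (2 / (|θ| * δ)) * (1 + Real.log (V + 1))) ^ d) := by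
  classical
  have hd' : (1 : ℝ) ≤ d := by exact_mod_cast hd
  set n : (Fin d → ℝ) → (Fin d → ℕ) := fun x i => ⌊x i / δ⌋₊ with hn
  have hθ0 : 0 < |θ| := abs_pos.mpr hθ
  have hnx : ∀ x ∈ X, ∀ i, 0 ≤ x i - δ * n x i ∧ x i - δ * n x i ≤ δ := by
    intro x hx i
    have a0 : 0 ≤ x i / δ := div_nonneg (hX0 x hx i).1 hδ.le
    have a1 := Nat.floor_le a0
    have a2 := (Nat.lt_floor_add_one (x i / δ)).le
    have e1 : δ * (x i / δ) = x i := by field_simp
    have b1 := mul_le_mul_of_nonneg_left a1 hδ.le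
    have b2 := mul_le_mul_of_nonneg_left a2 hδ.le
    rw [e1] at b1 b2
    rw [mul_add, mul_one] at b2
    constructor <;> simp only [hn] <;> linarith
  have hinj : Set.InjOn n (X : Set (Fin d → ℝ)) := by
    intro x hx x' hx' h
    by_contra hne
    obtain ⟨i, h4⟩ := hX x hx x' hx' hne
    have a1 : x i / δ < ⌊x i / δ⌋₊ + 1 := Nat.lt_floor_add_one (x i / δ)
    have a2 : x' i / δ < ⌊x' i / δ⌋₊ + 1 := Nat.lt_floor_add_one (x' i / δ)
    have b1 := Nat.floor_le (div_nonneg (hX0 x hx i).1 hδ.le)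
    have b2 := Nat.floor_le (div_nonneg (hX0 x' hx' i).1 hδ.le)
    have h' : ⌊x i / δ⌋₊ = ⌊x' i / δ⌋₊ := congrFun h i
    rw [h'] at a1 b1
    have h5 : |x i / δ - x' i / δ| < 1 := by
      rw [abs_lt]
      constructor <;> linarith
    rw [← sub_div, abs_div, abs_of_pos hδ, div_lt_one hδ] at h5
    linarith
  set G : (Fin d → ℕ) → ℂ := fun m => ∑ y ∈ Y, w y * e (∑ i, (m i : ℝ) * ((θ * δ) * y i)) with hG
  have hdiff : ‖(∑ x ∈ X, ∑ y ∈ Y, u x * w y * e (θ * ∑ i, x i * y i)) -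
      ∑ x ∈ X, u x * G (n x)‖ ≤ 2 * Real.pi * ρ * (X.card * Y.card) := by
    rw [← sum_sub_distrib]
    calc ‖∑ x ∈ X, ((∑ y ∈ Y, u x * w y * e (θ * ∑ i, x i * y i)) - u x * G (n x))‖ ≤
        ∑ x ∈ X, ∑ y ∈ Y, 2 * Real.pi * ρ := by
          refine (norm_sum_le _ _).trans (sum_le_sum fun x hx => ?_)
          rw [hG, mul_sum, ← sum_sub_distrib]
          refine (norm_sum_le _ _).trans (sum_le_sum fun y hy => ?_)
          have e1 : u x * w y * e (θ * ∑ i, x i * y i) -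
              u x * (w y * e (∑ i, (n x i : ℝ) * (θ * δ * y i))) =
              u x * w y * (e (θ * ∑ i, x i * y i) - e (∑ i, (n x i : ℝ) * (θ * δ * y i))) := by
            ring
          rw [e1, norm_mul, norm_mul]
          have h1 := e_close (θ * ∑ i, x i * y i) (∑ i, (n x i : ℝ) * (θ * δ * y i))
          have e2 : θ * ∑ i, x i * y i - ∑ i, (n x i : ℝ) * (θ * δ * y i) =
              ∑ i, θ * (x i - δ * n x i) * y i := by
            rw [mul_sum, ← sum_sub_distrib]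
            refine sum_congr rfl fun i _ => ?_
            ring
          rw [e2] at h1
          have h4 : |∑ i, θ * (x i - δ * n x i) * y i| ≤ ρ := by
            refine (abs_sum_le_sum_abs _ _).trans (le_trans ?_ hρ)
            calc ∑ i, |θ * (x i - δ * n x i) * y i| ≤ ∑ i : Fin d, |θ| * δ * V := by
                  refine sum_le_sum fun i _ => ?_
                  have h2 := hnx x hx i
                  have h3 := hY0 y hy i
                  rw [abs_mul, abs_mul, abs_of_nonneg h2.1, abs_of_nonneg h3.1]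
                  exact mul_le_mul (mul_le_mul_of_nonneg_left h2.2 hθ0.le) h3.2 h3.1
                    (by positivity)
              _ = |θ| * δ * V * d := by
                  rw [sum_const, Finset.card_univ, Fintype.card_fin, nsmul_eq_mul]
                  ring
          have h5 : 2 * Real.pi * |∑ i, θ * (x i - δ * n x i) * y i| ≤ 2 * Real.pi * ρ :=
            mul_le_mul_of_nonneg_left h4 (by positivity)
          calc ‖u x‖ * ‖w y‖ * ‖e (θ * ∑ i, x i * y i) -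
              e (∑ i, (n x i : ℝ) * (θ * δ * y i))‖ ≤ 1 * 1 * (2 * Real.pi * ρ) := by
                refine mul_le_mul (mul_le_mul (hu x) (hw y) (norm_nonneg _) zero_le_one)
                  (h1.trans h5) (norm_nonneg _) (by norm_num)
            _ = _ := by ring
      _ = _ := by
          rw [sum_const, sum_const, nsmul_eq_mul, nsmul_eq_mul]
          ring
  have hmain : ‖∑ x ∈ X, u x * G (n x)‖ ≤
      Real.sqrt (X.card * Y.card *
        (3 * (U / δ + 1) + 2 * (2 / (|θ| * δ)) * (1 + Real.log (V + 1))) ^ d) := by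
    apply Real.le_sqrt_of_sq_le
    have h1 : ‖∑ x ∈ X, u x * G (n x)‖ ≤ ∑ x ∈ X, 1 * ‖G (n x)‖ := by
      refine (norm_sum_le _ _).trans (sum_le_sum fun x _ => ?_)
      rw [norm_mul]
      exact mul_le_mul_of_nonneg_right (hu x) (norm_nonneg _)
    have h2 := Finset.sum_mul_sq_le_sq_mul_sq X (fun _ => (1 : ℝ)) (fun x => ‖G (n x)‖)
    have hlog : 0 ≤ 1 + Real.log (V + 1) := by
      have := Real.log_nonneg (show (1 : ℝ) ≤ V + 1 by linarith)
      linarith
    calc ‖∑ x ∈ X, u x * G (n x)‖ ^ 2 ≤ (∑ x ∈ X, 1 * ‖G (n x)‖) ^ 2 :=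
          pow_le_pow_left₀ (norm_nonneg _) h1 2
      _ ≤ (∑ x ∈ X, (1 : ℝ) ^ 2) * ∑ x ∈ X, ‖G (n x)‖ ^ 2 := h2
      _ = X.card * ∑ m ∈ X.image n, ‖G m‖ ^ 2 := by
          rw [sum_image (fun s hs s' hs' h => hinj hs hs' h)]
          simp
      _ ≤ X.card * ∑ m ∈ Fintype.piFinset (fun _ : Fin d => range (⌊U / δ⌋₊ + 1)), ‖G m‖ ^ 2 := by
          apply mul_le_mul_of_nonneg_left _ (Nat.cast_nonneg _)
          apply sum_le_sum_of_subset_of_nonneg
          · intro m hm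
            obtain ⟨x, hx, rfl⟩ := mem_image.mp hm
            rw [Fintype.mem_piFinset]
            intro i
            rw [Finset.mem_range]
            exact Nat.lt_succ_of_le (Nat.floor_le_floor
              (div_le_div_of_nonneg_right (hX0 x hx i).2 hδ.le))
          · intro m _ _
            positivity
      _ ≤ X.card * (Y.card * (3 * ((⌊U / δ⌋₊ + 1 : ℕ) : ℝ) +
            2 * (2 / |θ * δ|) * (1 + Real.log (V + 1))) ^ d) := by
          apply mul_le_mul_of_nonneg_left _ (Nat.cast_nonneg _)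
          refine mean_vec Y V hV.le hY0 hY (θ * δ) (mul_ne_zero hθ hδ.ne') ?_ w hw _
          rw [abs_mul, abs_of_pos hδ]
          have h5 : |θ| * δ * V ≤ |θ| * δ * V * d := le_mul_of_one_le_right (by positivity) hd'
          linarith
      _ ≤ X.card * (Y.card *
            (3 * (U / δ + 1) + 2 * (2 / (|θ| * δ)) * (1 + Real.log (V + 1))) ^ d) := by
          have h3 : (((⌊U / δ⌋₊ + 1 : ℕ) : ℝ)) ≤ U / δ + 1 := by
            push_cast
            have := Nat.floor_le (show 0 ≤ U / δ by positivity)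
            linarith
          rw [abs_mul, abs_of_pos hδ]
          gcongr
      _ = _ := by ring
  calc _ = ‖((∑ x ∈ X, ∑ y ∈ Y, u x * w y * e (θ * ∑ i, x i * y i)) - ∑ x ∈ X, u x * G (n x)) +
        ∑ x ∈ X, u x * G (n x)‖ := by rw [sub_add_cancel]
    _ ≤ _ := (norm_add_le _ _).trans (add_le_add hdiff hmain)

end Pool.Agent.Y565.RG
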