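import Pool.Agent.Y565.RG.Count
import Pool.Agent.Y565.RG.Vec
import Pool.Agent.Y565.RG.SepF

set_option autoImplicit false

/-!
Record prime-free neighbourhoods of `α ⟨x, y⟩ + f x + g y` for separated sets of points of `ℝ ^ d`.
-/

namespace Pool.Agent.Y565.RG

open Finset Filter
open Pool.Agent.H469R2.NK (e norm_e e_add)
open Pool.Agent.W147.PS (ff ff_compare ev_pow)

/-- The exponential sum bound at scale `Z`. -/
lemma vec_bound (d : ℕ) (hd : 1 ≤ d) (ε : ℝ) (hε : 0 < ε) (η : ℝ) (hη : η = ε / 64) :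
    ∀ᶠ Z : ℝ in atTop, ∀ (θ U V : ℝ) (X Y : Finset (Fin d → ℝ)) (u w : (Fin d → ℝ) → ℂ),
      Z ^ ε ≤ U → Z ^ ε ≤ V → V ≤ Z →
      Z ^ (ε - η) ≤ |θ| * (U * V) → |θ| ≤ Z ^ (4 * η - ε) →
      (∀ x ∈ X, ∀ i, 0 ≤ x i ∧ x i ≤ U) →
      (∀ x ∈ X, ∀ x' ∈ X, x ≠ x' → ∃ i, 1 ≤ |x i - x' i|) →
      (∀ y ∈ Y, ∀ i, 0 ≤ y i ∧ y i ≤ V) →
      (∀ y ∈ Y, ∀ y' ∈ Y, y ≠ y' → ∃ i, 1 ≤ |y i - y' i|) →
      (U * V) ^ d * Z ^ (-(d * ε / 2)) ≤ (X.card : ℝ) * Y.card →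
      (∀ x, ‖u x‖ ≤ 1) → (∀ y, ‖w y‖ ≤ 1) →
      ‖∑ x ∈ X, ∑ y ∈ Y, u x * w y * e (θ * ∑ i, x i * y i)‖ ≤
        (X.card : ℝ) * Y.card * Z ^ (-(4 * η)) / 8 := by
  have hη0 : 0 < η := by rw [hη]; positivity
  have hd' : (1 : ℝ) ≤ d := by exact_mod_cast hd
  have hd0 : (0 : ℝ) < d := by linarith
  set K : ℝ := 7 * (1 + d) + 3 with hK
  have hK0 : 0 < K := by positivity
  have hexp : (10 * η - ε) * d + 8 * η < -(d * ε / 2) := by
    rw [hη]
    nlinarith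
  filter_upwards [eventually_ge_atTop (2 : ℝ), ev_log η hη0,
    ev_pow (-(5 * η)) (-(4 * η)) (32 * 4) (by linarith),
    ev_pow (-(5 * η)) 0 2 (by linarith),
    ev_pow ((10 * η - ε) * d + 8 * η) (-(d * ε / 2)) (256 * K ^ d) hexp] with Z hZ2 hlog hp1 hp2 hp3
  intro θ U V X Y u w hU hV hVZ hθ1 hθ2 hX0 hX hY0 hY hN hu hw
  rw [Real.rpow_zero] at hp2
  have hZ0 : 0 < Z := by linarith
  have hZ1 : 1 ≤ Z := by linarith
  have hU0 : 0 < U := lt_of_lt_of_le (by positivity) hU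
  have hV0 : 0 < V := lt_of_lt_of_le (by positivity) hV
  set P : ℝ := U * V with hP
  have hP0 : 0 < P := by positivity
  have hθ0 : 0 < |θ| := by
    by_contra h
    have h0 : |θ| = 0 := le_antisymm (not_lt.mp h) (abs_nonneg _)
    rw [h0, zero_mul] at hθ1
    have : 0 < Z ^ (ε - η) := by positivity
    linarith
  have hθne : θ ≠ 0 := abs_pos.mp hθ0
  set ρ : ℝ := Z ^ (-(5 * η)) with hρ
  have hρ0 : 0 < ρ := by positivity
  set δ : ℝ := min 1 (ρ / (|θ| * V * d)) with hδ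
  have hδ0 : 0 < δ := lt_min one_pos (by positivity)
  have hδ1 : δ ≤ 1 := min_le_left _ _
  have hδ2 : δ ≤ ρ / (|θ| * V * d) := min_le_right _ _
  have hρδ : |θ| * δ * V * d ≤ ρ := by
    rw [le_div_iff₀ (by positivity)] at hδ2
    linarith
  have hbil := bil_vec hd X Y U V hU0 hV0 hX0 hX hY0 hY θ δ ρ hθne hδ0 hδ1 hρδ (by linarith)
    u w hu hw
  set N : ℝ := (X.card : ℝ) * Y.card with hNdef
  have hNpos : 0 < N := lt_of_lt_of_le (by positivity) hN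
  -- 1 / δ
  have hinv : 1 / δ ≤ 1 + |θ| * V * d * Z ^ (5 * η) := by
    rcases le_total 1 (ρ / (|θ| * V * d)) with h | h
    · rw [hδ, min_eq_left h]
      have : 0 ≤ |θ| * V * d * Z ^ (5 * η) := by positivity
      linarith
    · rw [hδ, min_eq_right h]
      have : 1 / (ρ / (|θ| * V * d)) = |θ| * V * d * Z ^ (5 * η) := by
        rw [one_div_div, hρ, Real.rpow_neg hZ0.le, div_inv_eq_mul]
      rw [this]
      linarith
  have hE : ∀ a b : ℝ, a ≤ b → Z ^ a ≤ Z ^ b := fun a b h =>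
    Real.rpow_le_rpow_of_exponent_le hZ1 h
  set W : ℝ := P * Z ^ (10 * η - ε) with hW
  have hW0 : 0 < W := by positivity
  have hUP : U ≤ P * Z ^ (-ε) := by
    rw [Real.rpow_neg hZ0.le, ← div_eq_mul_inv, le_div_iff₀ (by positivity), hP]
    gcongr
  have hVP : V ≤ P * Z ^ (-ε) := by
    rw [Real.rpow_neg hZ0.le, ← div_eq_mul_inv, le_div_iff₀ (by positivity), hP, mul_comm U V]
    gcongr
  have hb1 : U / δ ≤ (1 + d) * W := by
    have h1 : U / δ = U * (1 / δ) := by ring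
    have h2 : U * (|θ| * V * Z ^ (5 * η)) ≤ W := by
      calc U * (|θ| * V * Z ^ (5 * η)) ≤ U * (Z ^ (4 * η - ε) * V * Z ^ (5 * η)) := by gcongr
        _ = P * (Z ^ (4 * η - ε) * Z ^ (5 * η)) := by rw [hP]; ring
        _ = P * Z ^ (4 * η - ε + 5 * η) := by rw [Real.rpow_add hZ0]
        _ ≤ W := by
          rw [hW]
          exact mul_le_mul_of_nonneg_left (hE _ _ (by linarith)) hP0.le
    have h4 : U ≤ W := by
      refine hUP.trans ?_
      rw [hW]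
      exact mul_le_mul_of_nonneg_left (hE _ _ (by linarith)) hP0.le
    calc U / δ = U * (1 / δ) := h1
      _ ≤ U * (1 + |θ| * V * d * Z ^ (5 * η)) := by gcongr
      _ = U + d * (U * (|θ| * V * Z ^ (5 * η))) := by ring
      _ ≤ W + d * W := by gcongr
      _ = (1 + d) * W := by ring
  have hb2 : (1 : ℝ) ≤ W := by
    calc (1 : ℝ) = Z ^ (0 : ℝ) := (Real.rpow_zero Z).symm
      _ ≤ Z ^ (ε + ε + (10 * η - ε)) := hE _ _ (by linarith)
      _ = Z ^ ε * Z ^ ε * Z ^ (10 * η - ε) := by rw [Real.rpow_add hZ0, Real.rpow_add hZ0]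
      _ ≤ U * V * Z ^ (10 * η - ε) := by gcongr
      _ = W := by rw [hW, hP]
  have hb3 : 1 / (|θ| * δ) * (1 + Real.log (V + 1)) ≤ (1 + d) * W := by
    have h1 : 1 / (|θ| * δ) ≤ P * Z ^ (η - ε) + d * (V * Z ^ (5 * η)) := by
      have h2 : 1 / |θ| ≤ P * Z ^ (η - ε) := by
        rw [div_le_iff₀ hθ0]
        calc (1 : ℝ) = Z ^ (η - ε) * Z ^ (ε - η) := by
              rw [← Real.rpow_add hZ0]
              have : η - ε + (ε - η) = 0 := by ring
              rw [this, Real.rpow_zero]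
          _ ≤ Z ^ (η - ε) * (|θ| * P) := by gcongr
          _ = P * Z ^ (η - ε) * |θ| := by ring
      calc 1 / (|θ| * δ) = 1 / |θ| * (1 / δ) := by rw [one_div_mul_one_div]
        _ ≤ 1 / |θ| * (1 + |θ| * V * d * Z ^ (5 * η)) := by gcongr
        _ = 1 / |θ| + d * (V * Z ^ (5 * η)) := by field_simp
        _ ≤ _ := by linarith
    have hl0 : 0 ≤ 1 + Real.log (V + 1) := by
      have := Real.log_nonneg (show (1 : ℝ) ≤ V + 1 by linarith)
      linarith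
    have hl1 : 1 + Real.log (V + 1) ≤ Z ^ η := by
      refine le_trans ?_ hlog
      have := Real.log_le_log (show (0 : ℝ) < V + 1 by linarith)
        (show V + 1 ≤ Z + 1 by linarith)
      linarith
    have h5 : P * Z ^ (η - ε) * Z ^ η ≤ W := by
      rw [mul_assoc, ← Real.rpow_add hZ0, hW]
      exact mul_le_mul_of_nonneg_left (hE _ _ (by linarith)) hP0.le
    have h6 : V * Z ^ (5 * η) * Z ^ η ≤ W := by
      calc V * Z ^ (5 * η) * Z ^ η ≤ (P * Z ^ (-ε)) * Z ^ (5 * η) * Z ^ η := by gcongr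
        _ = P * Z ^ (-ε + 5 * η + η) := by rw [Real.rpow_add hZ0, Real.rpow_add hZ0]; ring
        _ ≤ W := by
          rw [hW]
          exact mul_le_mul_of_nonneg_left (hE _ _ (by linarith)) hP0.le
    calc 1 / (|θ| * δ) * (1 + Real.log (V + 1)) ≤
        (P * Z ^ (η - ε) + d * (V * Z ^ (5 * η))) * Z ^ η := by gcongr
      _ = P * Z ^ (η - ε) * Z ^ η + d * (V * Z ^ (5 * η) * Z ^ η) := by ring
      _ ≤ W + d * W := by gcongr
      _ = (1 + d) * W := by ring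
  set B : ℝ := 3 * (U / δ + 1) + 2 * (2 / (|θ| * δ)) * (1 + Real.log (V + 1)) with hBdef
  have hB0 : 0 ≤ B := by
    have := Real.log_nonneg (show (1 : ℝ) ≤ V + 1 by linarith)
    positivity
  have hB : B ≤ K * W := by
    have e1 : 2 * (2 / (|θ| * δ)) * (1 + Real.log (V + 1)) =
        4 * (1 / (|θ| * δ) * (1 + Real.log (V + 1))) := by ring
    rw [hBdef, e1, hK]
    linarith
  have hz4 : 0 < Z ^ (-(4 * η)) := by positivity
  have hmain : N * B ^ d ≤ (N * Z ^ (-(4 * η)) / 16) ^ 2 := by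
    have h1 : 256 * (K * W) ^ d ≤ N * Z ^ (-(8 * η)) := by
      rw [Real.rpow_neg hZ0.le, ← div_eq_mul_inv, le_div_iff₀ (by positivity)]
      have e1 : (Z ^ (10 * η - ε)) ^ d = Z ^ ((10 * η - ε) * d) := by
        rw [Real.rpow_mul hZ0.le, Real.rpow_natCast]
      calc 256 * (K * W) ^ d * Z ^ (8 * η) =
          P ^ d * (256 * K ^ d * ((Z ^ (10 * η - ε)) ^ d * Z ^ (8 * η))) := by
            rw [hW, mul_pow, mul_pow]
            ring
        _ = P ^ d * (256 * K ^ d * Z ^ ((10 * η - ε) * d + 8 * η)) := by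
            rw [e1, ← Real.rpow_add hZ0]
        _ ≤ P ^ d * Z ^ (-(d * ε / 2)) := by gcongr
        _ ≤ N := hN
    have h5 : Z ^ (-(4 * η)) * Z ^ (-(4 * η)) = Z ^ (-(8 * η)) := by
      rw [← Real.rpow_add hZ0]
      congr 1
      ring
    calc N * B ^ d ≤ N * (K * W) ^ d := by gcongr
      _ = N * (256 * (K * W) ^ d) / 256 := by ring
      _ ≤ N * (N * Z ^ (-(8 * η))) / 256 := by gcongr
      _ = (N * Z ^ (-(4 * η)) / 16) ^ 2 := by rw [← h5]; ring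
  have hsqrt : Real.sqrt (N * B ^ d) ≤ N * Z ^ (-(4 * η)) / 16 := by
    rw [Real.sqrt_le_left (by positivity)]
    exact hmain
  have hfirst : 2 * Real.pi * ρ * N ≤ N * Z ^ (-(4 * η)) / 16 := by
    have hpi : Real.pi ≤ 4 := Real.pi_le_four
    have h1 : Real.pi * ρ ≤ 4 * ρ := by gcongr
    have h2 : 32 * (Real.pi * ρ) ≤ Z ^ (-(4 * η)) := by linarith
    calc 2 * Real.pi * ρ * N = N * (32 * (Real.pi * ρ)) / 16 := by ring
      _ ≤ N * Z ^ (-(4 * η)) / 16 := by gcongr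
  calc _ ≤ _ := hbil
    _ ≤ N * Z ^ (-(4 * η)) / 16 + N * Z ^ (-(4 * η)) / 16 := add_le_add hfirst hsqrt
    _ = _ := by ring

/-- the theorem for separated sets of points -/
theorem vec_scale (d : ℕ) (hd : 1 ≤ d) (ε : ℝ) (hε : 0 < ε) (hε1 : ε ≤ 1) :
    ∃ κ : ℝ, 0 < κ ∧ ∀ᶠ Z : ℝ in atTop,
      ∀ (α U V : ℝ) (X Y : Finset (Fin d → ℝ)) (f g : (Fin d → ℝ) → ℝ),
      Z ^ ε ≤ U → Z ^ ε ≤ V → V ≤ Z → Z ^ ε ≤ |α| * (U * V) → |α| ≤ Z ^ (-ε) →
      (∀ x ∈ X, ∀ i, 0 ≤ x i ∧ x i ≤ U) →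
      (∀ x ∈ X, ∀ x' ∈ X, x ≠ x' → ∃ i, 1 ≤ |x i - x' i|) →
      (∀ y ∈ Y, ∀ i, 0 ≤ y i ∧ y i ≤ V) →
      (∀ y ∈ Y, ∀ y' ∈ Y, y ≠ y' → ∃ i, 1 ≤ |y i - y' i|) →
      (U * V) ^ d * Z ^ (-(d * ε / 2)) ≤ (X.card : ℝ) * Y.card →
      (∀ x ∈ X, ∀ y ∈ Y, Z ^ ε ≤ α * ∑ i, x i * y i + f x + g y) →
      ∃ G : Finset ((Fin d → ℝ) × (Fin d → ℝ)), (X.card : ℝ) * Y.card * Z ^ (-ε) ≤ G.card ∧
        ∀ p ∈ G, p.1 ∈ X ∧ p.2 ∈ Y ∧ ∀ q : ℕ, q.Prime →
          κ * ff Z < |(q : ℝ) - (α * ∑ i, p.1 i * p.2 i + f p.1 + g p.2)| := by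
  classical
  obtain ⟨η, hη⟩ : ∃ η : ℝ, η = ε / 64 := ⟨_, rfl⟩
  have hη0 : 0 < η := by rw [hη]; positivity
  obtain ⟨κ, hκ, hcrit⟩ := crit_count η hη0 (by linarith)
  refine ⟨κ, hκ, ?_⟩
  filter_upwards [hcrit, vec_bound d hd ε hε η hη, eventually_ge_atTop (2 : ℝ),
    ev_pow (-ε) (-(4 * η)) 2 (by linarith)] with Z hcr hbd hZ2 hp4
  intro α U V X Y f g hU hV hVZ hα1 hα2 hX0 hX hY0 hY hXY hlow
  have hZ0 : 0 < Z := by linarith
  have hZ1 : 1 ≤ Z := by linarith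
  have hU0 : 0 < U := lt_of_lt_of_le (by positivity) hU
  have hV0 : 0 < V := lt_of_lt_of_le (by positivity) hV
  have hXYpos : (0 : ℝ) < (X.card : ℝ) * Y.card := lt_of_lt_of_le (by positivity) hXY
  have hcard : ((X ×ˢ Y).card : ℝ) = (X.card : ℝ) * Y.card := by
    rw [card_product]
    push_cast
    rfl
  obtain ⟨G, hG1, hG2, hG3⟩ := hcr ((Fin d → ℝ) × (Fin d → ℝ)) (X ×ˢ Y)
    (fun p => α * ∑ i, p.1 i * p.2 i + f p.1 + g p.2) (by
      rw [← Finset.card_pos]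
      have : (0 : ℝ) < (X ×ˢ Y).card := by rw [hcard]; exact hXYpos
      exact_mod_cast this) (by
      intro p hp
      rw [Finset.mem_product] at hp
      refine le_trans ?_ (hlow p.1 hp.1 p.2 hp.2)
      exact Real.rpow_le_rpow_of_exponent_le hZ1 (by linarith)) (by
      intro q h hq hqZ hh hhZ
      have hq1 : (1 : ℝ) ≤ q := by exact_mod_cast hq
      have hh1 : (1 : ℝ) ≤ h := by exact_mod_cast hh
      have hq0 : (0 : ℝ) < q := by linarith
      have hlo : Z ^ (-η) ≤ (h : ℝ) / q := by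
        rw [Real.rpow_neg hZ0.le, ← one_div]
        gcongr
      have hhi : (h : ℝ) / q ≤ Z ^ (4 * η) := by
        rw [div_le_iff₀ hq0]
        calc (h : ℝ) ≤ Z ^ (4 * η) * 1 := by linarith
          _ ≤ Z ^ (4 * η) * q := by gcongr
      have hhq0 : 0 < (h : ℝ) / q := by positivity
      set θ : ℝ := (h : ℝ) / q * α with hθ
      have habs : |θ| = (h : ℝ) / q * |α| := by
        rw [hθ, abs_mul, abs_of_pos hhq0]
      have hb := hbd θ U V X Y (fun x => e ((h : ℝ) / q * f x)) (fun y => e ((h : ℝ) / q * g y))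
        hU hV hVZ (by
          rw [habs]
          calc Z ^ (ε - η) = Z ^ (-η) * Z ^ ε := by
                rw [← Real.rpow_add hZ0]
                congr 1
                ring
            _ ≤ (h : ℝ) / q * (|α| * (U * V)) := by gcongr
            _ = _ := by ring) (by
          rw [habs]
          calc (h : ℝ) / q * |α| ≤ Z ^ (4 * η) * Z ^ (-ε) := by gcongr
            _ = Z ^ (4 * η - ε) := by
                rw [← Real.rpow_add hZ0]
                congr 1) hX0 hX hY0 hY hXY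
        (fun x => (norm_e _).le) (fun y => (norm_e _).le)
      have hsum : ∑ p ∈ X ×ˢ Y, e ((h : ℝ) / q * (α * ∑ i, p.1 i * p.2 i + f p.1 + g p.2)) =
          ∑ x ∈ X, ∑ y ∈ Y, e ((h : ℝ) / q * f x) * e ((h : ℝ) / q * g y) *
            e (θ * ∑ i, x i * y i) := by
        rw [sum_product]
        refine sum_congr rfl fun x _ => sum_congr rfl fun y _ => ?_
        rw [← e_add, ← e_add]
        congr 1
        rw [hθ]
        ring
      rw [hsum, hcard]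
      exact hb)
  refine ⟨G, ?_, ?_⟩
  · rw [hcard] at hG2
    refine le_trans ?_ hG2
    have h6 : (X.card : ℝ) * Y.card * (2 * Z ^ (-ε)) ≤ (X.card : ℝ) * Y.card * Z ^ (-(4 * η)) := by
      gcongr
    linarith
  · intro p hp
    have h7 := Finset.mem_product.mp (hG1 hp)
    exact ⟨h7.1, h7.2, hG3 p hp⟩

end Pool.Agent.Y565.RG
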