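import Pool.Agent.Y565.RG.VecF
import Pool.Agent.H226R2.ShanksGap

set_option autoImplicit false

/-!
Early long runs of composite numbers around `α ⟨x, y⟩ + f x + h y` for separated sets of points.
-/

namespace Pool.Agent.Y565.RG

open Finset Filter
open Pool.Agent.W147.PS (ff)

/-- the record scale is eventually increasing -/
lemma ff_mono_ev : ∃ X₁ : ℝ, ∀ x y : ℝ, X₁ ≤ x → x ≤ y → ff x ≤ ff y := by
  refine ⟨Real.exp (Real.exp (Real.exp (Real.exp 1))), fun x y hx hxy => ?_⟩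
  have hx0 : 0 < x := lt_of_lt_of_le (Real.exp_pos _) hx
  have a1 : Real.exp (Real.exp (Real.exp 1)) ≤ Real.log x := by
    rw [← Real.log_exp (Real.exp (Real.exp (Real.exp 1)))]
    exact Real.log_le_log (Real.exp_pos _) hx
  have a1p : 0 < Real.log x := lt_of_lt_of_le (Real.exp_pos _) a1
  have a2 : Real.exp (Real.exp 1) ≤ Real.log (Real.log x) := by
    rw [← Real.log_exp (Real.exp (Real.exp 1))]
    exact Real.log_le_log (Real.exp_pos _) a1
  have a2p : 0 < Real.log (Real.log x) := lt_of_lt_of_le (Real.exp_pos _) a2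
  have a3 : Real.exp 1 ≤ Real.log (Real.log (Real.log x)) := by
    rw [← Real.log_exp (Real.exp 1)]
    exact Real.log_le_log (Real.exp_pos _) a2
  have a3p : 0 < Real.log (Real.log (Real.log x)) := lt_of_lt_of_le (Real.exp_pos _) a3
  have a4 : 1 ≤ Real.log (Real.log (Real.log (Real.log x))) := by
    rw [← Real.log_exp 1]
    exact Real.log_le_log (Real.exp_pos _) a3
  have b1 : Real.log x ≤ Real.log y := Real.log_le_log hx0 hxy
  have b2 : Real.log (Real.log x) ≤ Real.log (Real.log y) := Real.log_le_log a1p b1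
  have b3 : Real.log (Real.log (Real.log x)) ≤ Real.log (Real.log (Real.log y)) :=
    Real.log_le_log a2p b2
  have b4 : Real.log (Real.log (Real.log (Real.log x))) ≤ Real.log (Real.log (Real.log (Real.log y))) :=
    Real.log_le_log a3p b3
  have hee : Real.exp 1 ≤ Real.exp (Real.exp 1) := by
    apply Real.exp_le_exp.2
    linarith [Real.add_one_le_exp (1 : ℝ)]
  have h : Real.log (Real.log (Real.log y)) / Real.log (Real.log y) ≤
      Real.log (Real.log (Real.log x)) / Real.log (Real.log x) :=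
    Real.log_div_self_antitoneOn (by simpa using hee.trans a2) (by simpa using (hee.trans a2).trans b2) b2
  have hb3p : 0 < Real.log (Real.log (Real.log y)) := lt_of_lt_of_le a3p b3
  have hb2p : 0 < Real.log (Real.log y) := lt_of_lt_of_le a2p b2
  have h' : Real.log (Real.log x) / Real.log (Real.log (Real.log x)) ≤
      Real.log (Real.log y) / Real.log (Real.log (Real.log y)) := by
    rw [div_le_div_iff₀ hb2p a2p] at h
    rw [div_le_div_iff₀ a3p hb3p]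
    linarith
  have e : ∀ t : ℝ, ff t = Real.log t * (Real.log (Real.log t) / Real.log (Real.log (Real.log t))) ^ 2 *
      Real.log (Real.log (Real.log (Real.log t))) := by
    intro t
    unfold ff
    rw [div_pow]
    ring
  rw [e, e]
  have hq : 0 ≤ Real.log (Real.log x) / Real.log (Real.log (Real.log x)) := by positivity
  have hlx : 0 ≤ Real.log y := a1p.le.trans b1
  gcongr


/-- first occurrence form -/
theorem vec_first (d : ℕ) (hd : 1 ≤ d) (ε : ℝ) (hε : 0 < ε) (hε1 : ε ≤ 1) :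
    ∃ C : ℝ, 0 < C ∧ ∃ G : ℕ, ∀ g : ℕ, G ≤ g → ∀ Z : ℝ,
      Real.exp (C * g * (Real.log (Real.log g)) ^ 2 /
        ((Real.log g) ^ 2 * Real.log (Real.log (Real.log g)))) ≤ Z →
      ∀ (α U V : ℝ) (X Y : Finset (Fin d → ℝ)) (f h : (Fin d → ℝ) → ℝ),
      Z ^ ε ≤ U → Z ^ ε ≤ V → V ≤ Z → Z ^ ε ≤ |α| * (U * V) → |α| ≤ Z ^ (-ε) →
      (∀ x ∈ X, ∀ i, 0 ≤ x i ∧ x i ≤ U) →
      (∀ x ∈ X, ∀ x' ∈ X, x ≠ x' → ∃ i, 1 ≤ |x i - x' i|) →
      (∀ y ∈ Y, ∀ i, 0 ≤ y i ∧ y i ≤ V) →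
      (∀ y ∈ Y, ∀ y' ∈ Y, y ≠ y' → ∃ i, 1 ≤ |y i - y' i|) →
      (U * V) ^ d * Z ^ (-(d * ε / 2)) ≤ (X.card : ℝ) * Y.card →
      (∀ x ∈ X, ∀ y ∈ Y, Z ^ ε ≤ α * ∑ i, x i * y i + f x + h y) →
      ∃ S : Finset ((Fin d → ℝ) × (Fin d → ℝ)), (X.card : ℝ) * Y.card * Z ^ (-ε) ≤ S.card ∧
        ∀ p ∈ S, p.1 ∈ X ∧ p.2 ∈ Y ∧ ∀ q : ℕ, q.Prime →
          (g : ℝ) < |(q : ℝ) - (α * ∑ i, p.1 i * p.2 i + f p.1 + h p.2)| := by
  obtain ⟨κ, hκ, hev⟩ := vec_scale d hd ε hε hε1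
  obtain ⟨Z₀, hZ₀⟩ := eventually_atTop.mp hev
  obtain ⟨X₁, hX₁⟩ := ff_mono_ev
  obtain ⟨G, hG⟩ := Pool.Agent.H226R2.ShanksGap.ana κ hκ (max Z₀ X₁)
  refine ⟨16 / κ, by positivity, G, fun g hg Z hZ => ?_⟩
  obtain ⟨h1, h2⟩ := hG g hg
  obtain ⟨h1a, h1b⟩ := max_le_iff.1 h1
  intro α U V X Y f h b1 b2 b3 b4 b5 b6 b7 b8 b9 b10 b11
  obtain ⟨S, hS1, hS2⟩ := hZ₀ Z (h1a.trans hZ) α U V X Y f h b1 b2 b3 b4 b5 b6 b7 b8 b9 b10 b11
  refine ⟨S, hS1, fun p hp => ?_⟩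
  obtain ⟨c1, c2, c3⟩ := hS2 p hp
  refine ⟨c1, c2, fun q hq => lt_of_le_of_lt ?_ (c3 q hq)⟩
  set Q : ℝ := (16 / κ) * g * (Real.log (Real.log g)) ^ 2 /
      ((Real.log g) ^ 2 * Real.log (Real.log (Real.log g))) with hQ
  have hff : ff (Real.exp Q) = Q * (Real.log Q) ^ 2 * Real.log (Real.log (Real.log Q)) /
      (Real.log (Real.log Q)) ^ 2 := by
    unfold ff
    rw [Real.log_exp]
  have h5 : κ * ff (Real.exp Q) ≤ κ * ff Z :=
    mul_le_mul_of_nonneg_left (hX₁ _ _ h1b hZ) hκ.le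
  rw [hff] at h5
  linarith

end Pool.Agent.Y565.RG
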